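import Mathlib

/-!
# Restricted partition numbers: definition and recursion

`P m k` is the number of `u : Fin m → ℕ` with `∑ (i + 1) * u i = k`.
-/

set_option autoImplicit false

namespace Pool.Agent.Helper23.EP

open Finset

/-- The set of all partitions of `k` into parts from `{1, ..., m}`, a partition being given by the
multiplicities `u i` of the parts `i + 1`, `i < m`. -/
def S (m k : ℕ) : Set (Fin m → ℕ) := {u | ∑ i : Fin m, ((i : ℕ) + 1) * u i = k}

/-- The number of partitions of `k` into parts from `{1, ..., m}`. -/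
noncomputable def P (m k : ℕ) : ℕ := (S m k).ncard

theorem S_finite (m k : ℕ) : (S m k).Finite := by
  apply Set.Finite.subset (Set.Finite.pi' (fun _ : Fin m => Set.finite_Iic k))
  intro u hu i
  simp only [Set.mem_Iic]
  have h1 : ((i : ℕ) + 1) * u i ≤ ∑ i : Fin m, ((i : ℕ) + 1) * u i :=
    Finset.single_le_sum (f := fun i : Fin m => ((i : ℕ) + 1) * u i) (fun _ _ => Nat.zero_le _)
      (Finset.mem_univ i)
  have h2 : ∑ i : Fin m, ((i : ℕ) + 1) * u i = k := hu
  nlinarith [Nat.zero_le ((i : ℕ) * u i)]

theorem P_zero_zero : P 0 0 = 1 := by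
  have : S 0 0 = {fun i => i.elim0} := by
    ext u
    simp only [S, Finset.univ_eq_empty, Finset.sum_empty, Set.mem_ofPred_eq, true_iff,
      Set.mem_singleton_iff]
    ext i
    exact i.elim0
  rw [P, this, Set.ncard_singleton]

theorem P_zero_succ (k : ℕ) : P 0 (k + 1) = 0 := by
  have : S 0 (k + 1) = ∅ := by
    ext u
    simp [S]
  rw [P, this, Set.ncard_empty]

/-- increase the last multiplicity by one -/
def bump {m : ℕ} (u : Fin (m + 1) → ℕ) : Fin (m + 1) → ℕ :=
  fun i => u i + (if i = Fin.last m then 1 else 0)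

theorem bump_injective {m : ℕ} : Function.Injective (bump (m := m)) := by
  intro u v h
  ext i
  have := congrFun h i
  simp only [bump] at this
  omega

theorem sum_bump {m : ℕ} (u : Fin (m + 1) → ℕ) :
    ∑ i : Fin (m + 1), ((i : ℕ) + 1) * bump u i =
      (∑ i : Fin (m + 1), ((i : ℕ) + 1) * u i) + (m + 1) := by
  simp only [bump, mul_add, Finset.sum_add_distrib, mul_ite, mul_one, mul_zero,
    Finset.sum_ite_eq', Finset.mem_univ, if_true, Fin.val_last]

theorem sum_snoc {m : ℕ} (u : Fin m → ℕ) :
    ∑ i : Fin (m + 1), ((i : ℕ) + 1) * (Fin.snoc u 0 : Fin (m + 1) → ℕ) i =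
      ∑ i : Fin m, ((i : ℕ) + 1) * u i := by
  rw [Fin.sum_univ_castSucc]
  simp [Fin.snoc_castSucc, Fin.snoc_last]

theorem snoc_injective {m : ℕ} :
    Function.Injective (fun u : Fin m → ℕ => (Fin.snoc u 0 : Fin (m + 1) → ℕ)) := by
  intro u v h
  ext i
  have := congrFun h i.castSucc
  simpa using this

theorem P_succ_of_lt {m k : ℕ} (h : k < m + 1) : P (m + 1) k = P m k := by
  have : S (m + 1) k = (fun u : Fin m → ℕ => (Fin.snoc u 0 : Fin (m + 1) → ℕ)) '' S m k := by
    ext u
    constructor
    · intro hu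
      have hu' : ∑ i : Fin (m + 1), ((i : ℕ) + 1) * u i = k := hu
      rw [Fin.sum_univ_castSucc] at hu'
      simp only [Fin.val_castSucc, Fin.val_last] at hu'
      have h0 : u (Fin.last m) = 0 := by
        by_contra hne
        have : 1 ≤ u (Fin.last m) := Nat.one_le_iff_ne_zero.2 hne
        have h3 : (m + 1) * 1 ≤ (m + 1) * u (Fin.last m) := Nat.mul_le_mul_left _ this
        omega
      refine ⟨fun i => u i.castSucc, ?_, ?_⟩
      · rw [h0] at hu'
        simpa [S] using hu'
      · ext i
        refine Fin.lastCases ?_ (fun j => ?_) i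
        · simp [h0]
        · simp
    · rintro ⟨v, hv, rfl⟩
      have hv' : ∑ i : Fin m, ((i : ℕ) + 1) * v i = k := hv
      show ∑ i : Fin (m + 1), ((i : ℕ) + 1) * (Fin.snoc v 0 : Fin (m + 1) → ℕ) i = k
      rw [sum_snoc, hv']
  rw [P, this, Set.ncard_image_of_injective _ snoc_injective, P]

theorem P_succ_add (m k : ℕ) : P (m + 1) (k + (m + 1)) = P m (k + (m + 1)) + P (m + 1) k := by
  have hU : S (m + 1) (k + (m + 1)) =
      (fun u : Fin m → ℕ => (Fin.snoc u 0 : Fin (m + 1) → ℕ)) '' S m (k + (m + 1)) ∪
        bump '' S (m + 1) k := by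
    ext u
    constructor
    · intro hu
      have hu' : ∑ i : Fin (m + 1), ((i : ℕ) + 1) * u i = k + (m + 1) := hu
      by_cases h0 : u (Fin.last m) = 0
      · left
        rw [Fin.sum_univ_castSucc] at hu'
        simp only [Fin.val_castSucc, Fin.val_last] at hu'
        refine ⟨fun i => u i.castSucc, ?_, ?_⟩
        · rw [h0] at hu'
          simpa [S] using hu'
        · ext i
          refine Fin.lastCases ?_ (fun j => ?_) i
          · simp [h0]
          · simp
      · right
        have hb : bump (fun i => u i - (if i = Fin.last m then 1 else 0)) = u := by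
          ext i
          simp only [bump]
          split_ifs with hi
          · rw [hi]; omega
          · omega
        refine ⟨fun i => u i - (if i = Fin.last m then 1 else 0), ?_, hb⟩
        have := sum_bump (fun i => u i - (if i = Fin.last m then 1 else 0))
        rw [hb, hu'] at this
        show ∑ i : Fin (m + 1), ((i : ℕ) + 1) * (u i - (if i = Fin.last m then 1 else 0)) = k
        omega
    · rintro (⟨v, hv, rfl⟩ | ⟨v, hv, rfl⟩)
      · have hv' : ∑ i : Fin m, ((i : ℕ) + 1) * v i = k + (m + 1) := hv
        show ∑ i : Fin (m + 1), ((i : ℕ) + 1) * (Fin.snoc v 0 : Fin (m + 1) → ℕ) i = k + (m + 1)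
        rw [sum_snoc, hv']
      · have hv' : ∑ i : Fin (m + 1), ((i : ℕ) + 1) * v i = k := hv
        show ∑ i : Fin (m + 1), ((i : ℕ) + 1) * bump v i = k + (m + 1)
        rw [sum_bump, hv']
  have hd : Disjoint ((fun u : Fin m → ℕ => (Fin.snoc u 0 : Fin (m + 1) → ℕ)) '' S m (k + (m + 1)))
      (bump '' S (m + 1) k) := by
    rw [Set.disjoint_left]
    rintro _ ⟨u, _, rfl⟩ ⟨v, _, hv⟩
    have := congrFun hv (Fin.last m)
    simp [bump] at this
  rw [P, hU, Set.ncard_union_eq hd ((S_finite _ _).image _) ((S_finite _ _).image _),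
    Set.ncard_image_of_injective _ snoc_injective, Set.ncard_image_of_injective _ bump_injective,
    P, P]

theorem P_one (k : ℕ) : P 1 k = 1 := by
  induction k with
  | zero => rw [P_succ_of_lt (by omega), P_zero_zero]
  | succ k ih =>
    have := P_succ_add 0 k
    simp only [zero_add] at this
    rw [this, P_zero_succ, ih]

theorem P_zero_right (m : ℕ) : P m 0 = 1 := by
  induction m with
  | zero => exact P_zero_zero
  | succ m ih => rw [P_succ_of_lt (by omega), ih]

end Pool.Agent.Helper23.EP
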