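import Mathlib
import Pool.Agent.Helper23.EP.Count

/-!
# Two sided extension of the restricted partition function

`Q n : ℤ → ℚ` is `P n` on `y ≥ 0`, `0` on `- N n < y < 0` and `(-1)^(n+1) P n (- N n - y)` on
`y ≤ - N n`, where `N n = 1 + ... + n`. It satisfies the difference equation
`Q (n+1) y - Q (n+1) (y - (n+1)) = Q n y` on all of `ℤ`.
-/

set_option autoImplicit false

namespace Pool.Agent.Helper23.EP

open Finset Polynomial

/-- `1 + 2 + ... + n` -/
def N (n : ℕ) : ℕ := ∑ i ∈ range n, (i + 1)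

theorem N_succ (n : ℕ) : N (n + 1) = N n + (n + 1) := by
  simp [N, Finset.sum_range_succ]

theorem N_one : N 1 = 1 := by simp [N]

theorem two_N (n : ℕ) : 2 * N n = n * (n + 1) := by
  induction n with
  | zero => simp [N]
  | succ n ih => rw [N_succ]; linarith

theorem N_pos {n : ℕ} (hn : 1 ≤ n) : 1 ≤ N n := by
  have := two_N n
  nlinarith

/-- the two sided extension -/
noncomputable def Q (n : ℕ) (y : ℤ) : ℚ :=
  if 0 ≤ y then (P n y.toNat : ℚ)
  else if -(N n : ℤ) < y then 0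
  else (-1) ^ (n + 1) * (P n (-(N n : ℤ) - y).toNat : ℚ)

theorem Q_natCast (n k : ℕ) : Q n (k : ℤ) = P n k := by
  simp [Q]

theorem Q_gap {n : ℕ} {y : ℤ} (h1 : -(N n : ℤ) < y) (h2 : y < 0) : Q n y = 0 := by
  rw [Q, if_neg (by omega), if_pos h1]

theorem Q_neg (n k : ℕ) (hn : 1 ≤ n) : Q n (-(N n : ℤ) - k) = (-1) ^ (n + 1) * P n k := by
  have := N_pos hn
  rw [Q, if_neg (by omega), if_neg (by omega)]
  congr 3
  omega

/-- reciprocity -/
theorem Q_recip (n : ℕ) (hn : 1 ≤ n) (y : ℤ) : Q n (-(N n : ℤ) - y) = (-1) ^ (n + 1) * Q n y := by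
  have hN := N_pos hn
  rcases le_or_gt 0 y with h | h
  · obtain ⟨k, rfl⟩ := Int.eq_ofNat_of_zero_le h
    rw [Q_neg n k hn, Q_natCast]
  · rcases lt_or_ge (-(N n : ℤ)) y with h2 | h2
    · rw [Q_gap (by omega) (by omega), Q_gap h2 h, mul_zero]
    · obtain ⟨k, hk⟩ := Int.eq_ofNat_of_zero_le (show 0 ≤ -(N n : ℤ) - y by omega)
      have hy : y = -(N n : ℤ) - k := by omega
      rw [hk, Q_natCast, hy, Q_neg n k hn, ← mul_assoc, ← pow_add, ← two_mul, pow_mul]
      simp

theorem Q_one (y : ℤ) : Q 1 y = 1 := by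
  rcases le_or_gt 0 y with h | h
  · obtain ⟨k, rfl⟩ := Int.eq_ofNat_of_zero_le h
    rw [Q_natCast, P_one, Nat.cast_one]
  · obtain ⟨k, hk⟩ := Int.eq_ofNat_of_zero_le (show 0 ≤ -(N 1 : ℤ) - y by rw [N_one]; push_cast; omega)
    have hy : y = -(N 1 : ℤ) - k := by omega
    rw [hy, Q_neg 1 k le_rfl, P_one]
    norm_num

theorem Q_diff (n : ℕ) (hn : 1 ≤ n) (y : ℤ) :
    Q (n + 1) y - Q (n + 1) (y - (n + 1)) = Q n y := by
  have hN := N_pos hn
  have hN1 : (N (n + 1) : ℤ) = N n + (n + 1) := by rw [N_succ]; push_cast; ring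
  -- the case `y ≥ 0`, in terms of `P`
  have key : ∀ k : ℕ, (P (n + 1) k : ℚ) - (if n + 1 ≤ k then (P (n + 1) (k - (n + 1)) : ℚ) else 0)
      = P n k := by
    intro k
    split_ifs with hk
    · obtain ⟨j, rfl⟩ := Nat.exists_eq_add_of_le' hk
      rw [P_succ_add, Nat.add_sub_cancel]
      push_cast
      ring
    · rw [P_succ_of_lt (by omega), sub_zero]
  rcases le_or_gt 0 y with h | h
  · obtain ⟨k, rfl⟩ := Int.eq_ofNat_of_zero_le h
    rw [Q_natCast, Q_natCast, ← key k]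
    congr 1
    split_ifs with hk
    · obtain ⟨j, rfl⟩ := Nat.exists_eq_add_of_le' hk
      have : ((j + (n + 1) : ℕ) : ℤ) - (n + 1) = (j : ℤ) := by push_cast; ring
      rw [this, Q_natCast, Nat.add_sub_cancel]
    · exact Q_gap (by omega) (by omega)
  · rcases lt_or_ge (-(N n : ℤ)) y with h2 | h2
    · rw [Q_gap h2 h, Q_gap (by omega) h, Q_gap (by omega) (by omega), sub_zero]
    · obtain ⟨k, hk⟩ := Int.eq_ofNat_of_zero_le (show 0 ≤ -(N n : ℤ) - y by omega)
      have hy : y = -(N n : ℤ) - k := by omega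
      have e1 : y - (n + 1) = -(N (n + 1) : ℤ) - k := by omega
      rw [e1, Q_neg (n + 1) k (by omega), hy, Q_neg n k hn, ← key k]
      have e2 : Q (n + 1) (-(N n : ℤ) - k) =
          (-1) ^ (n + 2) * (if n + 1 ≤ k then (P (n + 1) (k - (n + 1)) : ℚ) else 0) := by
        split_ifs with hk'
        · obtain ⟨j, rfl⟩ := Nat.exists_eq_add_of_le' hk'
          have : -(N n : ℤ) - ((j + (n + 1) : ℕ) : ℤ) = -(N (n + 1) : ℤ) - j := by
            push_cast; omega
          rw [this, Q_neg (n + 1) j (by omega), Nat.add_sub_cancel]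
        · rw [mul_zero]
          exact Q_gap (by omega) (by omega)
      rw [e2]
      ring

/-- the shift `(T f) y = f (y - 1)` -/
def T : Module.End ℚ (ℤ → ℚ) where
  toFun f := fun y => f (y - 1)
  map_add' _ _ := rfl
  map_smul' _ _ := rfl

theorem T_apply (f : ℤ → ℚ) (y : ℤ) : T f y = f (y - 1) := rfl

theorem T_pow_apply (k : ℕ) (f : ℤ → ℚ) (y : ℤ) : (T ^ k) f y = f (y - k) := by
  induction k generalizing y with
  | zero => simp
  | succ k ih =>
    rw [pow_succ', Module.End.mul_apply, T_apply, ih]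
    congr 1
    push_cast
    ring

theorem aeval_X_pow_sub_one_apply (k : ℕ) (f : ℤ → ℚ) (y : ℤ) :
    (aeval T (X ^ k - 1 : ℚ[X])) f y = f (y - k) - f y := by
  simp only [map_sub, map_pow, aeval_X, map_one, LinearMap.sub_apply, Module.End.one_apply,
    Pi.sub_apply, T_pow_apply]

theorem aeval_apply_eq_sum (p : ℚ[X]) (f : ℤ → ℚ) (y : ℤ) {d : ℕ} (hd : p.natDegree < d) :
    (aeval T p) f y = ∑ j ∈ range d, p.coeff j * f (y - j) := by
  rw [aeval_eq_sum_range' hd]
  simp only [LinearMap.sum_apply, Finset.sum_apply, LinearMap.smul_apply, Pi.smul_apply,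
    T_pow_apply, smul_eq_mul]

/-- `(X - 1)(X^2 - 1) ... (X^n - 1)` -/
noncomputable def D (n : ℕ) : ℚ[X] := ∏ i ∈ range n, (X ^ (i + 1) - 1)

theorem D_succ (n : ℕ) : D (n + 1) = D n * (X ^ (n + 1) - 1) := by
  simp [D, Finset.prod_range_succ]

theorem aeval_D_Q (n : ℕ) (hn : 1 ≤ n) : (aeval T (D n)) (Q n) = 0 := by
  induction n, hn using Nat.le_induction with
  | base =>
    ext y
    have : D 1 = X ^ 1 - 1 := by simp [D]
    rw [this, aeval_X_pow_sub_one_apply, Q_one, Q_one]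
    simp
  | succ n hn ih =>
    rw [D_succ, map_mul, Module.End.mul_apply]
    have h : (aeval T (X ^ (n + 1) - 1 : ℚ[X])) (Q (n + 1)) = - Q n := by
      ext y
      rw [aeval_X_pow_sub_one_apply, Pi.neg_apply, ← Q_diff n hn y]
      push_cast
      ring
    rw [h, map_neg, ih, neg_zero]

theorem natDegree_D (n : ℕ) : (D n).natDegree = N n := by
  have hm : ∀ i ∈ range n, (X ^ (i + 1) - 1 : ℚ[X]).Monic := by
    intro i _
    exact monic_X_pow_sub_C 1 (Nat.succ_ne_zero i)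
  rw [D, natDegree_prod_of_monic _ _ hm, N]
  apply Finset.sum_congr rfl
  intro i _
  have := natDegree_X_pow_sub_C (R := ℚ) (n := i + 1) (r := 1)
  simpa using this

theorem D_coeff_zero (n : ℕ) : (D n).coeff 0 ≠ 0 := by
  rw [D, coeff_zero_eq_eval_zero, eval_prod]
  apply Finset.prod_ne_zero_iff.2
  intro i _
  simp

end Pool.Agent.Helper23.EP
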