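import Mathlib
import Pool.Agent.Helper23.EP.Ext

/-!
# Functions on `ℤ` killed by `(T ^ h - 1) ^ k` are polynomials of degree `< k` on the classes mod `h`
-/

set_option autoImplicit false

namespace Pool.Agent.Helper23.EP

open Finset Polynomial

/-- top coefficients of a translate -/
theorem coeff_comp_top (f : ℚ[X]) (r : ℚ) (k : ℕ) (hf : f.natDegree ≤ k + 1) :
    (f.comp (X + C r)).coeff k = f.coeff k + (k + 1) * r * f.coeff (k + 1) := by
  have h1 : f.comp (X + C r) = taylor r f := rfl
  rw [h1, taylor_coeff]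
  have h2 : (hasseDeriv k f).natDegree < 2 := by
    have := natDegree_hasseDeriv_le f k
    omega
  rw [eval_eq_sum_range' h2]
  simp only [Finset.sum_range_succ, Finset.sum_range_zero, zero_add, hasseDeriv_coeff, pow_zero,
    mul_one, pow_one, Nat.choose_self, Nat.cast_one, one_mul]
  have h3 : (1 + k).choose k = k + 1 := by
    rw [Nat.choose_symm_of_eq_add (show 1 + k = k + 1 by ring)]
    simp [add_comm]
  rw [h3, add_comm 1 k]
  push_cast
  ring

theorem coeff_comp_high (f : ℚ[X]) (r : ℚ) (k : ℕ) (hf : f.natDegree ≤ k) :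
    (f.comp (X + C r)).coeff k = f.coeff k := by
  rw [coeff_comp_top f r k (by omega), coeff_eq_zero_of_natDegree_lt (show f.natDegree < k + 1 by omega)]
  ring

theorem natDegree_comp_X_add_C (f : ℚ[X]) (r : ℚ) : (f.comp (X + C r)).natDegree = f.natDegree := by
  rw [natDegree_comp, natDegree_X_add_C, mul_one]

/-- the difference operator is onto -/
theorem diff_surj (h : ℚ) (hh : h ≠ 0) (k : ℕ) (q : ℚ[X]) (hq : q.degree < k) :
    ∃ p : ℚ[X], p.degree < (k + 1 : ℕ) ∧ p.comp (X + C h) - p = q := by
  induction k generalizing q with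
  | zero =>
    have : q = 0 := by
      rw [← degree_eq_bot]
      exact Nat.WithBot.lt_zero_iff.1 (by simpa using hq)
    exact ⟨0, by simp, by simp [this]⟩
  | succ k ih =>
    set c : ℚ := q.coeff k / ((k + 1) * h) with hc
    have hk : ((k : ℚ) + 1) ≠ 0 := by positivity
    set p0 : ℚ[X] := C c * X ^ (k + 1) with hp0
    have hp0d : p0.natDegree ≤ k + 1 := natDegree_C_mul_X_pow_le c (k + 1)
    have hdeg : (q - (p0.comp (X + C h) - p0)).degree < (k : ℕ) := by
      rw [degree_lt_iff_coeff_zero]
      intro m hm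
      rcases Nat.eq_or_lt_of_le hm with rfl | hm'
      · rw [coeff_sub, coeff_sub, coeff_comp_top p0 h _ hp0d, hp0, coeff_C_mul_X_pow,
          coeff_C_mul_X_pow, if_neg (by omega), if_pos rfl, hc]
        field_simp
        ring
      · have e1 : q.coeff m = 0 := by
          apply coeff_eq_zero_of_degree_lt
          exact lt_of_lt_of_le hq (by exact_mod_cast hm')
        rw [coeff_sub, coeff_sub, e1, coeff_comp_high p0 h m (by omega)]
        ring
    obtain ⟨p1, hp1, hp1'⟩ := ih _ hdeg
    refine ⟨p0 + p1, ?_, ?_⟩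
    · apply lt_of_le_of_lt (degree_add_le _ _)
      rw [max_lt_iff]
      constructor
      · apply lt_of_le_of_lt (degree_le_natDegree.trans (by exact_mod_cast hp0d) : p0.degree ≤ ((k + 1 : ℕ) : WithBot ℕ))
        exact_mod_cast Nat.lt_succ_self _
      · exact lt_trans hp1 (by exact_mod_cast Nat.lt_succ_self _)
    · rw [add_comp]
      linear_combination hp1'

/-- functions killed by `(T ^ h - 1) ^ k` -/
theorem exists_poly (h : ℕ) (hh : 0 < h) (k : ℕ) (f : ℤ → ℚ)
    (hf : (aeval T ((X ^ h - 1 : ℚ[X]) ^ k)) f = 0) (r : ℤ) :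
    ∃ p : ℚ[X], p.degree < k ∧ ∀ j : ℤ, f (r + h * j) = p.eval ((r + h * j : ℤ) : ℚ) := by
  induction k generalizing f with
  | zero =>
    refine ⟨0, by simp, fun j => ?_⟩
    have : f = 0 := by simpa using hf
    simp [this]
  | succ k ih =>
    have h1 : (aeval T ((X ^ h - 1 : ℚ[X]) ^ k)) ((aeval T (X ^ h - 1 : ℚ[X])) f) = 0 := by
      rw [← Module.End.mul_apply, ← map_mul, ← pow_succ]
      exact hf
    obtain ⟨q, hq, hq'⟩ := ih _ h1
    obtain ⟨p, hp, hp'⟩ := diff_surj (-(h : ℚ)) (by simpa using hh.ne') k q hq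
    -- `f - p` is constant on the class
    have h2 : ∀ j : ℤ, f (r + h * (j - 1)) - p.eval ((r + h * (j - 1) : ℤ) : ℚ) =
        f (r + h * j) - p.eval ((r + h * j : ℤ) : ℚ) := by
      intro j
      have e1 := hq' j
      rw [aeval_X_pow_sub_one_apply, ← hp', eval_sub, eval_comp] at e1
      simp only [eval_add, eval_X, eval_C] at e1
      have e2 : r + (h : ℤ) * (j - 1) = r + h * j - h := by ring
      rw [e2]
      have e3 : ((r + h * j : ℤ) : ℚ) + -(h : ℚ) = ((r + h * j - h : ℤ) : ℚ) := by push_cast; ring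
      rw [e3] at e1
      linarith
    have h3 : ∀ j : ℤ, f (r + h * j) - p.eval ((r + h * j : ℤ) : ℚ) = f r - p.eval (r : ℚ) := by
      intro j
      induction j using Int.induction_on with
      | zero => simp
      | succ i ihi =>
        have := h2 (i + 1)
        rw [show ((i : ℤ) + 1 - 1) = i by ring] at this
        rw [← this, ihi]
      | pred i ihi =>
        rw [h2 (-(i : ℤ)), ihi]
    refine ⟨p + C (f r - p.eval (r : ℚ)), ?_, fun j => ?_⟩
    · apply lt_of_le_of_lt (degree_add_le _ _)
      rw [max_lt_iff]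
      exact ⟨hp, lt_of_le_of_lt degree_C_le (by exact_mod_cast Nat.succ_pos k)⟩
    · rw [eval_add, eval_C, ← h3 j]
      ring

/-- conversely, polynomials of degree `< k` are killed by `(T - 1) ^ k` -/
theorem killed_of_poly (k : ℕ) (p : ℚ[X]) (hp : p.degree < k) :
    (aeval T ((X ^ 1 - 1 : ℚ[X]) ^ k)) (fun y : ℤ => p.eval (y : ℚ)) = 0 := by
  induction k generalizing p with
  | zero =>
    have : p = 0 := by
      rw [← degree_eq_bot]
      exact Nat.WithBot.lt_zero_iff.1 (by simpa using hp)
    simp [this]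
    rfl
  | succ k ih =>
    rw [pow_succ, map_mul, Module.End.mul_apply]
    have h1 : (aeval T (X ^ 1 - 1 : ℚ[X])) (fun y : ℤ => p.eval (y : ℚ)) =
        fun y : ℤ => (p.comp (X + C (-1)) - p).eval (y : ℚ) := by
      ext y
      rw [aeval_X_pow_sub_one_apply, eval_sub, eval_comp]
      simp only [eval_add, eval_X, eval_C]
      congr 2
      push_cast
      ring
    rw [h1]
    apply ih
    rw [degree_lt_iff_coeff_zero]
    intro m hm
    have hn : p.natDegree ≤ m := by
      have : p.natDegree < k + 1 ∨ p = 0 := by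
        by_cases h0 : p = 0
        · right; exact h0
        · left
          rw [degree_eq_natDegree h0] at hp
          exact_mod_cast hp
      rcases this with h | h
      · omega
      · rw [h]; simp
    rw [coeff_sub, coeff_comp_high p _ m hn, sub_self]

/-- twisting by `(-1) ^ y` -/
theorem twist (k : ℕ) (f : ℤ → ℚ) :
    (aeval T ((X ^ 1 - 1 : ℚ[X]) ^ k)) (fun y => (-1) ^ y * f y) =
      fun y => (-1) ^ k * (-1) ^ y * (aeval T ((X + 1 : ℚ[X]) ^ k)) f y := by
  induction k generalizing f with
  | zero => ext y; simp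
  | succ k ih =>
    rw [pow_succ, map_mul, Module.End.mul_apply]
    have h1 : (aeval T (X ^ 1 - 1 : ℚ[X])) (fun y => (-1) ^ y * f y) =
        fun y => (-1) ^ y * (- (aeval T (X + 1 : ℚ[X])) f y) := by
      ext y
      rw [aeval_X_pow_sub_one_apply]
      simp only [map_add, aeval_X, map_one, LinearMap.add_apply, Module.End.one_apply,
        Pi.add_apply, T_apply]
      have : (-1 : ℚ) ^ (y - (1 : ℕ)) = - (-1) ^ y := by
        rw [zpow_sub₀ (by norm_num)]
        simp only [Nat.cast_one, zpow_one]
        ring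
      rw [this]
      push_cast
      ring
    rw [h1, ih]
    ext y
    have h2 : (aeval T ((X + 1 : ℚ[X]) ^ k)) (fun y => - (aeval T (X + 1 : ℚ[X])) f y) =
        - (aeval T ((X + 1 : ℚ[X]) ^ (k + 1))) f := by
      rw [pow_succ, map_mul, Module.End.mul_apply, ← map_neg]
      rfl
    rw [h2, Pi.neg_apply]
    ring

end Pool.Agent.Helper23.EP
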