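import Mathlib
import Pool.Agent.Helper23.EP.Poly

/-!
# The decomposition of the two sided restricted partition function
-/

set_option autoImplicit false

namespace Pool.Agent.Helper23.EP

open Finset Polynomial

/-- the product of the cyclotomic polynomials `Φ_d`, `d ∣ i`, `d ≥ 3` -/
noncomputable def E (i : ℕ) : ℚ[X] := ∏ d ∈ (Nat.divisors i).filter (3 ≤ ·), cyclotomic d ℚ

/-- `K n = E 1 ... E n` -/
noncomputable def K (n : ℕ) : ℚ[X] := ∏ i ∈ range n, E (i + 1)

theorem K_succ (n : ℕ) : K (n + 1) = K n * E (n + 1) := by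
  simp [K, Finset.prod_range_succ]

theorem X_pow_sub_one_eq (i : ℕ) (hi : 0 < i) :
    (X ^ i - 1 : ℚ[X]) = (X - 1) * (if 2 ∣ i then X + 1 else 1) * E i := by
  rw [← prod_cyclotomic_eq_X_pow_sub_one hi ℚ]
  have hsplit : Nat.divisors i = insert 1 ((if 2 ∣ i then ({2} : Finset ℕ) else ∅) ∪
      (Nat.divisors i).filter (3 ≤ ·)) := by
    ext d
    simp only [Finset.mem_insert, Finset.mem_union, Finset.mem_filter, Nat.mem_divisors]
    constructor
    · rintro ⟨hd, hi0⟩
      have hd0 : d ≠ 0 := fun h => hi0 (by rw [h] at hd; exact Nat.eq_zero_of_zero_dvd hd)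
      rcases Nat.lt_or_ge d 3 with h | h
      · have : d = 1 ∨ d = 2 := by omega
        rcases this with rfl | rfl
        · left; rfl
        · right; left
          rw [if_pos hd]; simp
      · right; right; exact ⟨⟨hd, hi0⟩, h⟩
    · rintro (rfl | h | h)
      · exact ⟨one_dvd _, hi.ne'⟩
      · split_ifs at h with h2
        · simp only [Finset.mem_singleton] at h
          rw [h]; exact ⟨h2, hi.ne'⟩
        · simp at h
      · exact h.1
  rw [hsplit, Finset.prod_insert, Finset.prod_union, cyclotomic_one, mul_assoc]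
  · congr 2
    split_ifs
    · rw [Finset.prod_singleton, cyclotomic_two]
    · simp
  · rw [Finset.disjoint_left]
    intro d hd
    split_ifs at hd
    · simp only [Finset.mem_singleton] at hd
      rw [hd]; simp
    · simp at hd
  · simp only [Finset.mem_union, Finset.mem_filter, not_or]
    constructor
    · split_ifs <;> simp
    · rintro ⟨_, h⟩; omega

theorem D_eq (n : ℕ) : D n = (X - 1) ^ n * (X + 1) ^ (n / 2) * K n := by
  induction n with
  | zero => simp [D, K]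
  | succ n ih =>
    rw [D_succ, ih, X_pow_sub_one_eq (n + 1) (Nat.succ_pos n), K_succ]
    by_cases h : 2 ∣ n + 1
    · rw [if_pos h]
      have : (n + 1) / 2 = n / 2 + 1 := by omega
      rw [this]
      ring
    · rw [if_neg h]
      have : (n + 1) / 2 = n / 2 := by omega
      rw [this]
      ring

theorem E_dvd (i L : ℕ) (hi : 0 < i) (hL : i ∣ L) : E i ∣ (X ^ L - 1 : ℚ[X]) := by
  have h1 : E i ∣ (X ^ i - 1 : ℚ[X]) := by
    rw [X_pow_sub_one_eq i hi]
    exact dvd_mul_left _ _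
  refine h1.trans ?_
  obtain ⟨m, rfl⟩ := hL
  rw [pow_mul]
  have := sub_dvd_pow_sub_pow (X ^ i : ℚ[X]) 1 m
  simpa using this

theorem isCoprime_E_E (i j : ℕ) (hij : i < j) (hj : j ≤ i + 2) : IsCoprime (E i) (E j) := by
  unfold E
  apply IsCoprime.prod_left
  intro d hd
  apply IsCoprime.prod_right
  intro e he
  simp only [Finset.mem_filter, Nat.mem_divisors] at hd he
  apply cyclotomic.isCoprime_rat
  rintro rfl
  have h1 : d ∣ j - i := Nat.dvd_sub he.1.1 hd.1.1
  have := Nat.le_of_dvd (by omega) h1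
  omega

theorem isCoprime_E_X_sub_one (i : ℕ) : IsCoprime (X - 1 : ℚ[X]) (E i) := by
  rw [← cyclotomic_one]
  apply IsCoprime.prod_right
  intro e he
  simp only [Finset.mem_filter, Nat.mem_divisors] at he
  apply cyclotomic.isCoprime_rat
  omega

theorem isCoprime_E_X_add_one (i : ℕ) : IsCoprime (X + 1 : ℚ[X]) (E i) := by
  rw [← cyclotomic_two]
  apply IsCoprime.prod_right
  intro e he
  simp only [Finset.mem_filter, Nat.mem_divisors] at he
  apply cyclotomic.isCoprime_rat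
  omega

theorem isCoprime_sub_add : IsCoprime (X - 1 : ℚ[X]) (X + 1) := by
  rw [← cyclotomic_one, ← cyclotomic_two]
  exact cyclotomic.isCoprime_rat (by norm_num)

theorem isCoprime_K_X_sub_one (n : ℕ) : IsCoprime (X - 1 : ℚ[X]) (K n) :=
  IsCoprime.prod_right fun _ _ => isCoprime_E_X_sub_one _

theorem isCoprime_K_X_add_one (n : ℕ) : IsCoprime (X + 1 : ℚ[X]) (K n) :=
  IsCoprime.prod_right fun _ _ => isCoprime_E_X_add_one _

theorem E_one : E 1 = 1 := by
  have : (Nat.divisors 1).filter (3 ≤ ·) = ∅ := by decide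
  rw [E, this, Finset.prod_empty]

theorem E_two : E 2 = 1 := by
  have : (Nat.divisors 2).filter (3 ≤ ·) = ∅ := by decide
  rw [E, this, Finset.prod_empty]

/-- blocks of three -/
theorem K_block_dvd (L c : ℕ) (hL : ∀ i, 0 < i → i ≤ 3 * c + 2 → i ∣ L) :
    K (3 * c + 2) ∣ (X ^ L - 1 : ℚ[X]) ^ c := by
  induction c with
  | zero =>
    simp [K, Finset.prod_range_succ, E_one, E_two]
  | succ c ih =>
    have e : 3 * (c + 1) + 2 = 3 * c + 2 + 1 + 1 + 1 := by ring
    rw [e, K_succ, K_succ, K_succ, pow_succ, mul_assoc, mul_assoc]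
    apply mul_dvd_mul (ih fun i hi hi' => hL i hi (by omega))
    have h1 := E_dvd (3 * c + 2 + 1) L (by omega) (hL _ (by omega) (by omega))
    have h2 := E_dvd (3 * c + 2 + 1 + 1) L (by omega) (hL _ (by omega) (by omega))
    have h3 := E_dvd (3 * c + 2 + 1 + 1 + 1) L (by omega) (hL _ (by omega) (by omega))
    apply IsCoprime.mul_dvd _ h1
    · exact IsCoprime.mul_dvd (isCoprime_E_E _ _ (by omega) (by omega)) h2 h3
    · exact IsCoprime.mul_right (isCoprime_E_E _ _ (by omega) (by omega))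
        (isCoprime_E_E _ _ (by omega) (by omega))

theorem K_dvd_of_le {m n : ℕ} (h : m ≤ n) : K m ∣ K n := by
  induction n, h using Nat.le_induction with
  | base => exact dvd_rfl
  | succ n _ ih => rw [K_succ]; exact ih.mul_right _

theorem K_dvd (L n : ℕ) (hL : ∀ i, 0 < i → i ≤ n + 2 → i ∣ L) :
    K n ∣ (X ^ L - 1 : ℚ[X]) ^ (n / 3) :=
  (K_dvd_of_le (show n ≤ 3 * (n / 3) + 2 by omega)).trans
    (K_block_dvd L (n / 3) fun i hi hi' => hL i hi (by omega))

theorem mem_ker_of_dvd {p q : ℚ[X]} (h : p ∣ q) {f : ℤ → ℚ} (hf : (aeval T p) f = 0) :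
    (aeval T q) f = 0 := by
  obtain ⟨r, rfl⟩ := h
  rw [mul_comm, map_mul, Module.End.mul_apply, hf, map_zero]

theorem split {p q : ℚ[X]} (h : IsCoprime p q) {f : ℤ → ℚ} (hf : (aeval T (p * q)) f = 0) :
    ∃ g k : ℤ → ℚ, f = g + k ∧ (aeval T p) g = 0 ∧ (aeval T q) k = 0 := by
  have h1 := Polynomial.sup_ker_aeval_eq_ker_aeval_mul_of_coprime T h
  have h2 : f ∈ LinearMap.ker (aeval T p) ⊔ LinearMap.ker (aeval T q) := by
    rw [h1]; exact LinearMap.mem_ker.2 hf
  obtain ⟨g, hg, k, hk, hgk⟩ := Submodule.mem_sup.1 h2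
  exact ⟨g, k, hgk.symm, LinearMap.mem_ker.1 hg, LinearMap.mem_ker.1 hk⟩

theorem disj {p q : ℚ[X]} (h : IsCoprime p q) {f : ℤ → ℚ} (hp : (aeval T p) f = 0)
    (hq : (aeval T q) f = 0) : f = 0 := by
  have h1 := Polynomial.disjoint_ker_aeval_of_isCoprime T h
  exact (Submodule.disjoint_def.1 h1) f (LinearMap.mem_ker.2 hp) (LinearMap.mem_ker.2 hq)

/-- the decomposition -/
theorem decomp (n : ℕ) (hn : 1 ≤ n) : ∃ (G B : ℚ[X]) (w : ℤ → ℚ),
    G.degree < n ∧ B.degree < (n / 2 : ℕ) ∧ (aeval T (K n)) w = 0 ∧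
    (∀ y : ℤ, Q n y = G.eval (y : ℚ) + (-1) ^ y * B.eval (y : ℚ) + w y) ∧
    (aeval T ((X - 1 : ℚ[X]) ^ n)) (fun y : ℤ => G.eval (y : ℚ)) = 0 ∧
    (aeval T ((X + 1 : ℚ[X]) ^ (n / 2))) (fun y : ℤ => (-1) ^ y * B.eval (y : ℚ)) = 0 := by
  have h0 := aeval_D_Q n hn
  rw [D_eq] at h0
  have c1 : IsCoprime ((X - 1 : ℚ[X]) ^ n * (X + 1) ^ (n / 2)) (K n) :=
    IsCoprime.mul_left (isCoprime_K_X_sub_one n).pow_left (isCoprime_K_X_add_one n).pow_left
  have c2 : IsCoprime ((X - 1 : ℚ[X]) ^ n) ((X + 1) ^ (n / 2)) := isCoprime_sub_add.pow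
  obtain ⟨g, w, hgw, hg, hw⟩ := split c1 h0
  obtain ⟨u, v, huv, hu, hv⟩ := split c2 hg
  have hu' : (aeval T ((X ^ 1 - 1 : ℚ[X]) ^ n)) u = 0 := by rw [pow_one]; exact hu
  obtain ⟨G, hG, hG'⟩ := exists_poly 1 one_pos n u hu' 0
  have hGu : ∀ y : ℤ, u y = G.eval (y : ℚ) := by
    intro y
    have := hG' y
    simpa using this
  have hv' : (aeval T ((X ^ 1 - 1 : ℚ[X]) ^ (n / 2))) (fun y => (-1) ^ y * v y) = 0 := by
    rw [twist, hv]
    ext y
    simp
  obtain ⟨B, hB, hB'⟩ := exists_poly 1 one_pos (n / 2) _ hv' 0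
  have hsq : ∀ y : ℤ, (-1 : ℚ) ^ y * (-1) ^ y = 1 := by
    intro y
    rw [← mul_zpow]
    simp
  have hBv : ∀ y : ℤ, v y = (-1) ^ y * B.eval (y : ℚ) := by
    intro y
    have := hB' y
    simp only [Nat.cast_one, one_mul, zero_add] at this
    rw [← this, ← mul_assoc, hsq, one_mul]
  refine ⟨G, B, w, hG, hB, hw, ?_, ?_, ?_⟩
  · intro y
    rw [hgw, huv]
    simp only [Pi.add_apply]
    rw [hGu, hBv]
  · have : (fun y : ℤ => G.eval (y : ℚ)) = u := by ext y; exact (hGu y).symm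
    rw [this]; exact hu
  · have : (fun y : ℤ => (-1) ^ y * B.eval (y : ℚ)) = v := by ext y; exact (hBv y).symm
    rw [this]; exact hv

end Pool.Agent.Helper23.EP
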