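import Mathlib
import Pool.Agent.Helper23.EP.Decomp

/-!
# Leading coefficients of the polynomial part and of the alternating part
-/

set_option autoImplicit false

namespace Pool.Agent.Helper23.EP

open Finset Polynomial

theorem poly_eq_of_forall_int {p q : ℚ[X]} (h : ∀ y : ℤ, p.eval (y : ℚ) = q.eval (y : ℚ)) : p = q := by
  apply Polynomial.eq_of_infinite_eval_eq
  have : Set.Infinite (Set.range (fun y : ℤ => (y : ℚ))) :=
    Set.infinite_range_of_injective Int.cast_injective
  apply this.mono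
  rintro _ ⟨y, rfl⟩
  exact h y

/-- the functions occurring in the decomposition, with all their properties -/
structure IsDecomp (n : ℕ) (G B : ℚ[X]) (w : ℤ → ℚ) : Prop where
  degG : G.degree < n
  degB : B.degree < (n / 2 : ℕ)
  kw : (aeval T (K n)) w = 0
  eq : ∀ y : ℤ, Q n y = G.eval (y : ℚ) + (-1) ^ y * B.eval (y : ℚ) + w y
  kG : (aeval T ((X - 1 : ℚ[X]) ^ n)) (fun y : ℤ => G.eval (y : ℚ)) = 0
  kB : (aeval T ((X + 1 : ℚ[X]) ^ (n / 2))) (fun y : ℤ => (-1) ^ y * B.eval (y : ℚ)) = 0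

theorem exists_isDecomp (n : ℕ) (hn : 1 ≤ n) : ∃ G B w, IsDecomp n G B w := by
  obtain ⟨G, B, w, h1, h2, h3, h4, h5, h6⟩ := decomp n hn
  exact ⟨G, B, w, ⟨h1, h2, h3, h4, h5, h6⟩⟩

theorem comm_apply (p q : ℚ[X]) (f : ℤ → ℚ) (h : (aeval T p) f = 0) :
    (aeval T p) ((aeval T q) f) = 0 := by
  rw [← Module.End.mul_apply, ← map_mul, mul_comm, map_mul, Module.End.mul_apply, h, map_zero]

/-- recursion for the polynomial part -/
theorem G_rec {n : ℕ} (hn : 1 ≤ n) {G B G' B' : ℚ[X]} {w w' : ℤ → ℚ} (h : IsDecomp n G B w)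
    (h' : IsDecomp (n + 1) G' B' w') (y : ℤ) :
    G'.eval (y : ℚ) - G'.eval ((y - (n + 1 : ℕ) : ℤ) : ℚ) = G.eval (y : ℚ) := by
  set q : ℚ[X] := X ^ (n + 1) - 1 with hq
  -- functions
  set u : ℤ → ℚ := fun y => G.eval (y : ℚ) with hu
  set v : ℤ → ℚ := fun y => (-1) ^ y * B.eval (y : ℚ) with hv
  set u' : ℤ → ℚ := fun y => G'.eval (y : ℚ) with hu'
  set v' : ℤ → ℚ := fun y => (-1) ^ y * B'.eval (y : ℚ) with hv'
  have hQ : Q n = u + v + w := by ext y; exact h.eq y
  have hQ' : Q (n + 1) = u' + v' + w' := by ext y; exact h'.eq y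
  have hd : (aeval T q) (Q (n + 1)) = - Q n := by
    ext y
    rw [hq, aeval_X_pow_sub_one_apply, Pi.neg_apply, ← Q_diff n hn y]
    push_cast
    ring
  set z : ℤ → ℚ := (aeval T q) u' + u with hz
  have hz2 : z = -((aeval T q) v' + v) - ((aeval T q) w' + w) := by
    rw [hQ, hQ', map_add, map_add] at hd
    rw [hz]
    linear_combination hd
  have k1 : (aeval T ((X - 1 : ℚ[X]) ^ (n + 1))) z = 0 := by
    rw [hz, map_add, comm_apply _ _ _ h'.kG, zero_add]
    exact mem_ker_of_dvd (pow_dvd_pow _ (Nat.le_succ n)) h.kG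
  have k2 : (aeval T ((X + 1 : ℚ[X]) ^ ((n + 1) / 2) * K (n + 1))) z = 0 := by
    rw [hz2, map_sub, map_neg, map_add, map_add]
    have a1 : (aeval T ((X + 1 : ℚ[X]) ^ ((n + 1) / 2) * K (n + 1))) ((aeval T q) v') = 0 :=
      mem_ker_of_dvd (dvd_mul_right _ _) (comm_apply _ _ _ h'.kB)
    have a2 : (aeval T ((X + 1 : ℚ[X]) ^ ((n + 1) / 2) * K (n + 1))) v = 0 :=
      mem_ker_of_dvd ((pow_dvd_pow _ (Nat.div_le_div_right (Nat.le_succ n))).mul_right _) h.kB
    have a3 : (aeval T ((X + 1 : ℚ[X]) ^ ((n + 1) / 2) * K (n + 1))) ((aeval T q) w') = 0 :=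
      mem_ker_of_dvd (dvd_mul_left _ _) (comm_apply _ _ _ h'.kw)
    have a4 : (aeval T ((X + 1 : ℚ[X]) ^ ((n + 1) / 2) * K (n + 1))) w = 0 :=
      mem_ker_of_dvd ((K_dvd_of_le (Nat.le_succ n)).mul_left _) h.kw
    rw [a1, a2, a3, a4]
    simp
  have c : IsCoprime ((X - 1 : ℚ[X]) ^ (n + 1)) ((X + 1 : ℚ[X]) ^ ((n + 1) / 2) * K (n + 1)) :=
    IsCoprime.mul_right isCoprime_sub_add.pow (isCoprime_K_X_sub_one _).pow_left
  have hz0 := disj c k1 k2
  have := congrFun hz0 y
  simp only [hz, Pi.add_apply, Pi.zero_apply, hq, aeval_X_pow_sub_one_apply, hu', hu] at this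
  push_cast at this ⊢
  linarith

/-- the leading coefficient of the polynomial part -/
theorem coeff_G (n : ℕ) (hn : 1 ≤ n) : ∀ (G B : ℚ[X]) (w : ℤ → ℚ), IsDecomp n G B w →
    G.coeff (n - 1) = 1 / (n.factorial * (n - 1).factorial) := by
  induction n, hn using Nat.le_induction with
  | base =>
    intro G B w h
    have hB : B = 0 := by
      rw [← degree_eq_bot]
      exact Nat.WithBot.lt_zero_iff.1 (by simpa using h.degB)
    have hw : w = 0 := by
      have h1 : K 1 = 1 := by simp [K, E_one]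
      have := h.kw
      rw [h1] at this
      simpa using this
    have h2 := h.eq 0
    rw [Q_one, hB, hw] at h2
    simp only [Int.cast_zero, eval_zero, mul_zero, add_zero, Pi.zero_apply] at h2
    rw [← coeff_zero_eq_eval_zero] at h2
    simp [← h2]
  | succ n hn ih =>
    intro G' B' w' h'
    obtain ⟨G, B, w, h⟩ := exists_isDecomp n hn
    have ih' := ih G B w h
    have e : G' - G'.comp (X + C (-((n + 1 : ℕ) : ℚ))) = G := by
      apply poly_eq_of_forall_int
      intro y
      rw [← G_rec hn h h' y, eval_sub, eval_comp]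
      simp only [eval_add, eval_X, eval_C]
      congr 2
      push_cast
      ring
    have hd : G'.natDegree ≤ (n - 1) + 1 := by
      have := h'.degG
      rw [Nat.sub_add_cancel hn]
      by_cases h0 : G' = 0
      · rw [h0]; simp
      · rw [degree_eq_natDegree h0] at this
        have : G'.natDegree < n + 1 := by exact_mod_cast this
        omega
    have e2 := coeff_comp_top G' (-((n + 1 : ℕ) : ℚ)) (n - 1) hd
    rw [Nat.sub_add_cancel hn] at e2
    have e3 := congrArg (fun p => p.coeff (n - 1)) e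
    simp only [coeff_sub] at e3
    rw [e2, ih'] at e3
    rw [Nat.add_sub_cancel, Nat.factorial_succ]
    have hn' : (n : ℚ) ≠ 0 := by
      have : (0 : ℚ) < n := by exact_mod_cast hn
      exact this.ne'
    have hf : (n.factorial : ℚ) = n * (n - 1).factorial := by
      have := Nat.mul_factorial_pred (show n ≠ 0 by omega)
      rw [← this]
      push_cast
      ring
    have hf0 : (n.factorial : ℚ) ≠ 0 := by positivity
    have hf1 : ((n - 1).factorial : ℚ) ≠ 0 := by positivity
    have hn1 : ((n : ℚ) + 1) ≠ 0 := by positivity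
    have hc : ((n - 1 : ℕ) : ℚ) + 1 = n := by
      have : (n - 1) + 1 = n := Nat.sub_add_cancel hn
      exact_mod_cast this
    rw [hc] at e3
    push_cast at e3 ⊢
    have e4 : (n : ℚ) * (n + 1) * G'.coeff n = 1 / (n.factorial * (n - 1).factorial) := by
      rw [← e3]; ring
    rw [eq_div_iff (by positivity)]
    rw [eq_div_iff (by positivity)] at e4
    linear_combination e4 + G'.coeff n * (n + 1) * n.factorial * hf

/-- the alternating part has degree exactly `n / 2 - 1` -/
theorem coeff_B (n : ℕ) (hn : 2 ≤ n) (G B : ℚ[X]) (w : ℤ → ℚ) (h : IsDecomp n G B w) :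
    B.coeff (n / 2 - 1) ≠ 0 := by
  intro h0
  obtain ⟨s, hs⟩ : ∃ s, n / 2 = s + 1 := ⟨n / 2 - 1, by omega⟩
  rw [hs, Nat.add_sub_cancel] at h0
  have hB := h.degB
  rw [hs] at hB
  have hB' : B.degree < (s : ℕ) := by
    rw [degree_lt_iff_coeff_zero] at hB ⊢
    intro m hm
    rcases Nat.eq_or_lt_of_le hm with rfl | hm'
    · exact h0
    · exact hB m hm'
  set v : ℤ → ℚ := fun y => (-1) ^ y * B.eval (y : ℚ) with hv
  -- `v` is killed by `(T + 1) ^ s`
  have hsq : ∀ y : ℤ, (-1 : ℚ) ^ y * (-1) ^ y = 1 := by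
    intro y
    rw [← mul_zpow]
    simp
  have k1 : (aeval T ((X + 1 : ℚ[X]) ^ s)) v = 0 := by
    have t := twist s v
    have e : (fun y : ℤ => (-1 : ℚ) ^ y * v y) = fun y : ℤ => B.eval (y : ℚ) := by
      ext y
      rw [hv]
      simp only
      rw [← mul_assoc, hsq, one_mul]
    rw [e, killed_of_poly s B hB'] at t
    ext y
    have := congrFun t y
    simp only [Pi.zero_apply] at this
    have h1 : ((-1 : ℚ)) ^ s * (-1) ^ y ≠ 0 := by
      apply mul_ne_zero
      · exact pow_ne_zero _ (by norm_num)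
      · exact zpow_ne_zero _ (by norm_num)
    rcases mul_eq_zero.1 this.symm with h2 | h2
    · exact absurd h2 h1
    · simpa using h2
  set M : ℚ[X] := (X - 1) ^ n * (X + 1) ^ s * K n with hM
  have hQ : Q n = (fun y : ℤ => G.eval (y : ℚ)) + v + w := by ext y; exact h.eq y
  have hkill : (aeval T M) (Q n) = 0 := by
    rw [hQ, map_add, map_add]
    have a1 : (aeval T M) (fun y : ℤ => G.eval (y : ℚ)) = 0 :=
      mem_ker_of_dvd ((dvd_mul_right _ _).mul_right _) h.kG
    have a2 : (aeval T M) v = 0 :=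
      mem_ker_of_dvd ((dvd_mul_left _ _).mul_right _) k1
    have a3 : (aeval T M) w = 0 := mem_ker_of_dvd (dvd_mul_left _ _) h.kw
    rw [a1, a2, a3]
    simp
  have hDM : D n = M * (X + 1) := by
    rw [D_eq, hs, hM]
    ring
  have hM0 : M.coeff 0 ≠ 0 := by
    have := D_coeff_zero n
    rw [hDM, mul_coeff_zero] at this
    exact left_ne_zero_of_mul this
  have hMne : M ≠ 0 := fun h => hM0 (by rw [h]; simp)
  have hMd : M.natDegree < N n := by
    have h1 := natDegree_D n
    have h2 : (X + 1 : ℚ[X]) ≠ 0 := X_add_C_ne_zero (1 : ℚ)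
    rw [hDM, natDegree_mul hMne h2] at h1
    have h3 : (X + 1 : ℚ[X]).natDegree = 1 := natDegree_X_add_C (1 : ℚ)
    omega
  have h1 := congrFun hkill 0
  rw [aeval_apply_eq_sum M (Q n) 0 hMd, Pi.zero_apply] at h1
  have hN := N_pos (show 1 ≤ n by omega)
  obtain ⟨N', hN'⟩ : ∃ N', N n = N' + 1 := ⟨N n - 1, by omega⟩
  rw [hN', Finset.sum_range_succ'] at h1
  have h2 : ∑ k ∈ range N', M.coeff (k + 1) * Q n (0 - ((k + 1 : ℕ) : ℤ)) = 0 := by
    apply Finset.sum_eq_zero
    intro k hk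
    rw [Finset.mem_range] at hk
    rw [Q_gap (by push_cast; omega) (by push_cast; omega), mul_zero]
  rw [h2, zero_add] at h1
  have h3 : Q n (0 - ((0 : ℕ) : ℤ)) = 1 := by
    have := Q_natCast n 0
    simp only [Nat.cast_zero, sub_zero] at this ⊢
    rw [this, P_zero_right, Nat.cast_one]
  rw [h3, mul_one] at h1
  exact hM0 h1

end Pool.Agent.Helper23.EP
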