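import Mathlib
import Pool.Agent.Helper23.EP.Lead

/-!
# The leading coefficient of the alternating part
-/

set_option autoImplicit false

namespace Pool.Agent.Helper23.EP

open Finset Polynomial

/-- recursion for the alternating part -/
theorem B_rec {n : ℕ} (hn : 1 ≤ n) {G B G' B' : ℚ[X]} {w w' : ℤ → ℚ} (h : IsDecomp n G B w)
    (h' : IsDecomp (n + 1) G' B' w') (y : ℤ) :
    (-1) ^ y * B'.eval (y : ℚ) -
      (-1) ^ (y - (n + 1 : ℕ)) * B'.eval ((y - (n + 1 : ℕ) : ℤ) : ℚ) = (-1) ^ y * B.eval (y : ℚ) := by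
  set q : ℚ[X] := X ^ (n + 1) - 1 with hq
  -- functions
  set u : ℤ → ℚ := fun y => G.eval (y : ℚ) with hu
  set v : ℤ → ℚ := fun y => (-1) ^ y * B.eval (y : ℚ) with hv
  set u' : ℤ → ℚ := fun y => G'.eval (y : ℚ) with hu'
  set v' : ℤ → ℚ := fun y => (-1) ^ y * B'.eval (y : ℚ) with hv'
  have hQ : Q n = u + v + w := by ext y; exact h.eq y
  have hQ' : Q (n + 1) = u' + v' + w' := by ext y; exact h'.eq y
  have hd : (aeval T q) (Q (n + 1)) = - Q n := by
    ext y
    rw [hq, aeval_X_pow_sub_one_apply, Pi.neg_apply, ← Q_diff n hn y]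
    push_cast
    ring
  set z : ℤ → ℚ := (aeval T q) v' + v with hz
  have hz2 : z = -((aeval T q) u' + u) - ((aeval T q) w' + w) := by
    rw [hQ, hQ', map_add, map_add] at hd
    rw [hz]
    linear_combination hd
  have k1 : (aeval T ((X + 1 : ℚ[X]) ^ ((n + 1) / 2))) z = 0 := by
    rw [hz, map_add, comm_apply _ _ _ h'.kB, zero_add]
    exact mem_ker_of_dvd (pow_dvd_pow _ (Nat.div_le_div_right (Nat.le_succ n))) h.kB
  have k2 : (aeval T ((X - 1 : ℚ[X]) ^ (n + 1) * K (n + 1))) z = 0 := by
    rw [hz2, map_sub, map_neg, map_add, map_add]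
    have a1 : (aeval T ((X - 1 : ℚ[X]) ^ (n + 1) * K (n + 1))) ((aeval T q) u') = 0 :=
      mem_ker_of_dvd (dvd_mul_right _ _) (comm_apply _ _ _ h'.kG)
    have a2 : (aeval T ((X - 1 : ℚ[X]) ^ (n + 1) * K (n + 1))) u = 0 :=
      mem_ker_of_dvd ((pow_dvd_pow _ (Nat.le_succ n)).mul_right _) h.kG
    have a3 : (aeval T ((X - 1 : ℚ[X]) ^ (n + 1) * K (n + 1))) ((aeval T q) w') = 0 :=
      mem_ker_of_dvd (dvd_mul_left _ _) (comm_apply _ _ _ h'.kw)
    have a4 : (aeval T ((X - 1 : ℚ[X]) ^ (n + 1) * K (n + 1))) w = 0 :=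
      mem_ker_of_dvd ((K_dvd_of_le (Nat.le_succ n)).mul_left _) h.kw
    rw [a1, a2, a3, a4]
    simp
  have c : IsCoprime ((X + 1 : ℚ[X]) ^ ((n + 1) / 2)) ((X - 1 : ℚ[X]) ^ (n + 1) * K (n + 1)) :=
    IsCoprime.mul_right isCoprime_sub_add.symm.pow (isCoprime_K_X_add_one _).pow_left
  have hz0 := disj c k1 k2
  have := congrFun hz0 y
  simp only [hz, Pi.add_apply, Pi.zero_apply, hq, aeval_X_pow_sub_one_apply, hv', hv] at this
  linarith

theorem coeff_B_eq (n : ℕ) (hn : 2 ≤ n) : ∀ (G B : ℚ[X]) (w : ℤ → ℚ), IsDecomp n G B w →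
    B.coeff (n / 2 - 1) = 1 / ((n / 2 - 1).factorial * (n / 2).factorial * 2 ^ n) := by
  induction n, hn using Nat.le_induction with
  | base =>
    intro G B w h
    have hw : w = 0 := by
      have h1 : K 2 = 1 := by simp [K, Finset.prod_range_succ, E_one, E_two]
      have := h.kw
      rw [h1] at this
      simpa using this
    have hB : B = C (B.coeff 0) := by
      apply eq_C_of_degree_le_zero
      have := h.degB
      exact Order.le_of_lt_succ this
    have hG := coeff_G 2 (by norm_num) G B w h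
    have hGd : G.natDegree < 2 := by
      have := h.degG
      by_cases h0 : G = 0
      · rw [h0]; simp
      · rw [degree_eq_natDegree h0] at this
        exact_mod_cast this
    have e0 := h.eq 0
    have e1 := h.eq (-1)
    have q0 : Q 2 0 = 1 := by
      have := Q_natCast 2 0
      simp only [Nat.cast_zero] at this
      rw [this, P_zero_right, Nat.cast_one]
    have q1 : Q 2 (-1) = 0 := Q_gap (by rw [N_succ, N_one]; norm_num) (by omega)
    rw [q0, hw, hB, eval_eq_sum_range' hGd] at e0
    rw [q1, hw, hB, eval_eq_sum_range' hGd] at e1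
    simp only [Finset.sum_range_succ, Finset.sum_range_zero] at e0 e1
    norm_num at e0 e1 hG ⊢
    rw [hG] at e1
    norm_num [Nat.factorial] at e1 ⊢
    linarith
  | succ n hn ih =>
    intro G' B' w' h'
    obtain ⟨G, B, w, h⟩ := exists_isDecomp n (by omega)
    have ih' := ih G B w h
    have hrec := fun y => B_rec (by omega) h h' y
    have hBd : B'.natDegree < (n + 1) / 2 := by
      have := h'.degB
      by_cases h0 : B' = 0
      · rw [h0]; simp; omega
      · rw [degree_eq_natDegree h0] at this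
        exact_mod_cast this
    rcases Nat.even_or_odd n with hpar | hpar
    · -- `n = 2 s`
      obtain ⟨s, hs⟩ := hpar
      obtain ⟨t, ht⟩ : ∃ t, s = t + 1 := ⟨s - 1, by omega⟩
      have hn2 : n / 2 = t + 1 := by omega
      have hn3 : (n + 1) / 2 = t + 1 := by omega
      have e : B' + B'.comp (X + C (-((n + 1 : ℕ) : ℚ))) = B := by
        apply poly_eq_of_forall_int
        intro y
        have h1 := hrec y
        have h2 : (-1 : ℚ) ^ (y - ((n + 1 : ℕ) : ℤ)) = - (-1) ^ y := by
          rw [zpow_sub₀ (by norm_num), zpow_natCast, Odd.neg_one_pow ⟨s, by omega⟩]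
          ring
        rw [h2] at h1
        have h3 : ((-1 : ℚ)) ^ y ≠ 0 := zpow_ne_zero _ (by norm_num)
        have h4 : (-1 : ℚ) ^ y * (B'.eval (y : ℚ) + B'.eval ((y - (n + 1 : ℕ) : ℤ) : ℚ)) =
            (-1) ^ y * B.eval (y : ℚ) := by linarith
        have h5 := mul_left_cancel₀ h3 h4
        rw [← h5, eval_add, eval_comp]
        simp only [eval_add, eval_X, eval_C]
        congr 2
        push_cast
        ring
      have e2 := congrArg (fun p => p.coeff t) e
      simp only [coeff_add] at e2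
      rw [coeff_comp_high _ _ _ (by omega)] at e2
      rw [hn2, Nat.add_sub_cancel] at ih'
      rw [hn3, Nat.add_sub_cancel, pow_succ]
      rw [ih'] at e2
      have : B'.coeff t = 1 / (t.factorial * (t + 1).factorial * 2 ^ n) / 2 := by linarith
      rw [this]
      field_simp
    · obtain ⟨s, hs⟩ := hpar
      obtain ⟨t, ht⟩ : ∃ t, s = t + 1 := ⟨s - 1, by omega⟩
      have hn2 : n / 2 = t + 1 := by omega
      have hn3 : (n + 1) / 2 = t + 2 := by omega
      have e : B' - B'.comp (X + C (-((n + 1 : ℕ) : ℚ))) = B := by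
        apply poly_eq_of_forall_int
        intro y
        have h1 := hrec y
        have h2 : (-1 : ℚ) ^ (y - ((n + 1 : ℕ) : ℤ)) = (-1) ^ y := by
          rw [zpow_sub₀ (by norm_num), zpow_natCast, Even.neg_one_pow ⟨s + 1, by omega⟩]
          ring
        rw [h2] at h1
        have h3 : ((-1 : ℚ)) ^ y ≠ 0 := zpow_ne_zero _ (by norm_num)
        have h4 : (-1 : ℚ) ^ y * (B'.eval (y : ℚ) - B'.eval ((y - (n + 1 : ℕ) : ℤ) : ℚ)) =
            (-1) ^ y * B.eval (y : ℚ) := by linarith
        have h5 := mul_left_cancel₀ h3 h4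
        rw [← h5, eval_sub, eval_comp]
        simp only [eval_add, eval_X, eval_C]
        congr 2
        push_cast
        ring
      have e2 := congrArg (fun p => p.coeff t) e
      simp only [coeff_sub] at e2
      rw [coeff_comp_top _ _ _ (by omega)] at e2
      rw [hn2, Nat.add_sub_cancel] at ih'
      rw [hn3, show t + 2 - 1 = t + 1 by omega, pow_succ, Nat.factorial_succ (t + 1)]
      rw [ih'] at e2
      have hnn : ((n + 1 : ℕ) : ℚ) = 2 * ((t : ℚ) + 2) := by
        have : n + 1 = 2 * (t + 2) := by omega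
        rw [this]
        push_cast
        ring
      rw [hnn] at e2
      have e3 : B'.coeff (t + 1) * (2 * (((t : ℚ) + 1) * (t + 2))) =
          1 / (t.factorial * (t + 1).factorial * 2 ^ n) := by linarith
      have e4 : B'.coeff (t + 1) = 1 / (t.factorial * (t + 1).factorial * 2 ^ n) /
          (2 * (((t : ℚ) + 1) * (t + 2))) := by
        rw [eq_div_iff (by positivity), e3]
      rw [e4, Nat.factorial_succ t]
      push_cast
      have f1 : (t.factorial : ℚ) ≠ 0 := by positivity
      have f2 : ((t : ℚ) + 1) ≠ 0 := by positivity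
      have f3 : ((t : ℚ) + 2) ≠ 0 := by positivity
      have f4 : ((t : ℚ) + 1 + 1) ≠ 0 := by positivity
      field_simp
      ring

end Pool.Agent.Helper23.EP
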