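import Mathlib
import Pool.Agent.Helper23.EP.Lead

/-!
# Restricted partition numbers on residue classes: square root with remainder of exact degree
-/

set_option autoImplicit false

namespace Pool.Agent.Helper23.EP

open Finset Polynomial

/-- square root with remainder -/
theorem exists_sqrt (s : ℕ) (α : ℚ) (hα : α ≠ 0) (q : ℚ[X])
    (hq : q.natDegree ≤ 2 * s) (hl : q.coeff (2 * s) = α) :
    ∃ U R : ℚ[X], U.Monic ∧ U.natDegree = s ∧ R.degree < s ∧ q = C α * U ^ 2 + R := by
  have key : ∀ k ≤ s, ∃ U : ℚ[X], U.Monic ∧ U.natDegree = s ∧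
      ∀ m, 2 * s - k ≤ m → (q - C α * U ^ 2).coeff m = 0 := by
    intro k
    induction k with
    | zero =>
      intro _
      refine ⟨X ^ s, monic_X_pow s, natDegree_X_pow s, fun m hm => ?_⟩
      rw [coeff_sub, ← pow_mul, mul_comm s 2, coeff_C_mul, coeff_X_pow]
      rcases Nat.eq_or_lt_of_le hm with h | h
      · rw [if_pos (by omega), show m = 2 * s by omega, hl]
        ring
      · rw [if_neg (by omega), coeff_eq_zero_of_natDegree_lt (by omega)]
        ring
    | succ k ih =>
      intro hk
      obtain ⟨U, hU, hUd, hUc⟩ := ih (by omega)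
      obtain ⟨e, he⟩ : ∃ e, s = e + (k + 1) := ⟨s - (k + 1), by omega⟩
      -- the new coefficient is at `D = s + e`
      set δ : ℚ := (q - C α * U ^ 2).coeff (s + e) with hδ
      set V : ℚ[X] := C (δ / (2 * α)) * X ^ e with hV
      have hVd : V.natDegree ≤ e := natDegree_C_mul_X_pow_le _ _
      have hUdeg : U.degree = (s : ℕ) := by
        rw [degree_eq_natDegree hU.ne_zero, hUd]
      have hlt : V.degree < U.degree := by
        rw [hUdeg]
        have a1 : V.degree ≤ ((e : ℕ) : WithBot ℕ) :=
          degree_le_natDegree.trans (by exact_mod_cast hVd)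
        have a2 : ((e : ℕ) : WithBot ℕ) < ((s : ℕ) : WithBot ℕ) := by
          exact_mod_cast (show e < s by omega)
        exact lt_of_le_of_lt a1 a2
      refine ⟨U + V, hU.add_of_left hlt, ?_, fun m hm => ?_⟩
      · rw [natDegree_add_eq_left_of_degree_lt hlt, hUd]
      · have e1 : q - C α * (U + V) ^ 2 =
            (q - C α * U ^ 2) - C δ * (X ^ e * U) - C (δ ^ 2 / (4 * α)) * X ^ (2 * e) := by
          have c1 : (C α * (2 * V) : ℚ[X]) = C δ * X ^ e := by
            rw [hV, ← mul_assoc, ← mul_assoc]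
            congr 1
            have : (2 : ℚ[X]) = C 2 := rfl
            rw [this, ← C_mul, ← C_mul]
            congr 1
            field_simp
          have c2 : (C α * V ^ 2 : ℚ[X]) = C (δ ^ 2 / (4 * α)) * X ^ (2 * e) := by
            rw [hV, mul_pow, ← mul_assoc, ← C_pow, ← C_mul, ← pow_mul, mul_comm e 2]
            congr 2
            field_simp
            ring
          linear_combination (-U) * c1 - c2
        rw [e1, coeff_sub, coeff_sub, coeff_C_mul, coeff_C_mul, coeff_X_pow, if_neg (by omega),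
          mul_zero, sub_zero]
        obtain ⟨t, ht⟩ : ∃ t, m = t + e := ⟨m - e, by omega⟩
        rw [ht, coeff_X_pow_mul]
        rcases Nat.eq_or_lt_of_le (show s ≤ t by omega) with h | h
        · rw [← h, ← hδ, show U.coeff s = 1 by rw [← hUd]; exact hU.coeff_natDegree]
          ring
        · rw [hUc _ (by omega), coeff_eq_zero_of_natDegree_lt (show U.natDegree < t by omega)]
          ring
  obtain ⟨U, hU, hUd, hUc⟩ := key s le_rfl
  refine ⟨U, q - C α * U ^ 2, hU, hUd, ?_, by ring⟩
  rw [degree_lt_iff_coeff_zero]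
  intro m hm
  exact hUc m (by omega)

theorem sqrt_unique (s : ℕ) (α : ℚ) (hα : α ≠ 0) (U V R : ℚ[X]) (hU : U.Monic)
    (hUd : U.natDegree = s) (hV : V.Monic) (hVd : V.natDegree = s) (hR : R.degree < s)
    (h : C α * U ^ 2 - C α * V ^ 2 = R) : U = V := by
  by_contra hne
  have h1 : U - V ≠ 0 := sub_ne_zero.2 hne
  have hc : (U + V).coeff s = 2 := by
    rw [coeff_add, show U.coeff s = 1 by rw [← hUd]; exact hU.coeff_natDegree,
      show V.coeff s = 1 by rw [← hVd]; exact hV.coeff_natDegree]
    norm_num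
  have h2 : U + V ≠ 0 := by
    intro h0
    rw [h0, coeff_zero] at hc
    norm_num at hc
  have h3 : R = C α * ((U - V) * (U + V)) := by rw [← h]; ring
  have h4 : s ≤ (U + V).natDegree := le_natDegree_of_ne_zero (by rw [hc]; norm_num)
  have h5 : R ≠ 0 := by
    rw [h3]
    exact mul_ne_zero (by simpa using hα) (mul_ne_zero h1 h2)
  have h6 : s ≤ R.natDegree := by
    rw [h3, natDegree_C_mul hα, natDegree_mul h1 h2]
    omega
  rw [degree_eq_natDegree h5] at hR
  have : R.natDegree < s := by exact_mod_cast hR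
  omega

/-- the reflection `y ↦ - y - c` on polynomials -/
noncomputable def refl (c : ℚ) (p : ℚ[X]) : ℚ[X] := (p.comp (C (-1) * X)).comp (X + C c)

theorem refl_eval (c : ℚ) (p : ℚ[X]) (x : ℚ) : (refl c p).eval x = p.eval (-c - x) := by
  rw [refl, eval_comp, eval_comp]
  simp only [eval_add, eval_mul, eval_X, eval_C]
  congr 1
  ring

theorem natDegree_refl (c : ℚ) (p : ℚ[X]) : (refl c p).natDegree = p.natDegree := by
  rw [refl, natDegree_comp_X_add_C, natDegree_comp, natDegree_C_mul (by norm_num : (-1 : ℚ) ≠ 0),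
    natDegree_X, mul_one]

theorem coeff_refl (c : ℚ) (p : ℚ[X]) (k : ℕ) (hp : p.natDegree ≤ k) :
    (refl c p).coeff k = (-1) ^ k * p.coeff k := by
  rw [refl, coeff_comp_high _ _ _ (by
    rw [natDegree_comp, natDegree_C_mul (by norm_num : (-1 : ℚ) ≠ 0), natDegree_X, mul_one]
    exact hp), comp_C_mul_X_coeff]
  ring

theorem refl_add (c : ℚ) (p q : ℚ[X]) : refl c (p + q) = refl c p + refl c q := by
  simp [refl]

theorem refl_C_mul_sq (c a : ℚ) (p : ℚ[X]) : refl c (C a * p ^ 2) = C a * (refl c p) ^ 2 := by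
  simp [refl, mul_comp, pow_comp]

theorem natDegree_lt_of_degree_lt {p : ℚ[X]} {k : ℕ} (hk : 0 < k) (h : p.degree < k) :
    p.natDegree < k := by
  by_cases h0 : p = 0
  · rw [h0]; simpa using hk
  · rw [degree_eq_natDegree h0] at h
    exact_mod_cast h

/-- the structure of `P n` on residue classes for `n = 1 mod 4` -/
theorem class_structure (n : ℕ) (h4 : n % 4 = 1) (h5 : 5 ≤ n) :
    ∃ L : ℕ, 0 < L ∧ ∀ r : ℤ, ∃ U R : ℚ[X], U.Monic ∧ U.natDegree = (n - 1) / 2 ∧
      R.degree < ((n - 1) / 2 : ℕ) ∧ R.coeff ((n - 1) / 2 - 1) ≠ 0 ∧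
      ∀ j : ℤ, ∀ y : ℕ, (y : ℤ) = r + L * j →
        (P n y : ℚ) = (1 / (n.factorial * (n - 1).factorial)) * (U.eval (y : ℚ)) ^ 2
          + R.eval (y : ℚ) := by
  obtain ⟨t, ht⟩ : ∃ t, n = 4 * t + 5 := ⟨(n - 5) / 4, by omega⟩
  obtain ⟨G, B, w, hd⟩ := exists_isDecomp n (by omega)
  set L : ℕ := (n + 2).factorial with hL
  have hL0 : 0 < L := Nat.factorial_pos _
  have hLdvd : ∀ i, 0 < i → i ≤ n + 2 → i ∣ L := fun i hi hi' => Nat.dvd_factorial hi hi'
  have hLeven : 2 ∣ L := hLdvd 2 (by omega) (by omega)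
  set s : ℕ := (n - 1) / 2 with hs
  have hs1 : s = 2 * t + 2 := by omega
  have hs2 : n / 2 = s := by omega
  set α : ℚ := 1 / (n.factorial * (n - 1).factorial) with hα
  have hα0 : α ≠ 0 := by positivity
  have hG : G.coeff (2 * s) = α := by
    have := coeff_G n (by omega) G B w hd
    rw [show 2 * s = n - 1 by omega, this]
  have hGd : G.natDegree ≤ 2 * s := by
    have := natDegree_lt_of_degree_lt (by omega) hd.degG
    omega
  have hB : B.coeff (s - 1) ≠ 0 := by
    have := coeff_B n (by omega) G B w hd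
    rwa [hs2] at this
  have hBd : B.natDegree ≤ s - 1 := by
    have := natDegree_lt_of_degree_lt (by omega) hd.degB
    omega
  have hw : (aeval T ((X ^ L - 1 : ℚ[X]) ^ (n / 3))) w = 0 :=
    mem_ker_of_dvd (K_dvd L n hLdvd) hd.kw
  -- the class polynomials
  have hcls : ∀ r : ℤ, ∃ H : ℚ[X], H.natDegree < s - 1 + 1 ∧ H.coeff (s - 1) = 0 ∧ ∀ j : ℤ,
      Q n (r + L * j) = (G + C ((-1 : ℚ) ^ r) * B + H).eval ((r + L * j : ℤ) : ℚ) := by
    intro r
    obtain ⟨H, hH, hH'⟩ := exists_poly L hL0 (n / 3) w hw r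
    have hHd : H.natDegree < n / 3 := natDegree_lt_of_degree_lt (by omega) hH
    refine ⟨H, by omega, ?_, fun j => ?_⟩
    · apply coeff_eq_zero_of_natDegree_lt
      omega
    · rw [hd.eq, hH' j, eval_add, eval_add, eval_mul, eval_C]
      congr 3
      obtain ⟨L', hL'⟩ := hLeven
      rw [hL']
      push_cast
      rw [zpow_add₀ (by norm_num), mul_assoc, zpow_mul]
      simp
  choose H hHd hHc hHe using hcls
  set q : ℤ → ℚ[X] := fun r => G + C ((-1 : ℚ) ^ r) * B + H r with hq
  have hsgnBd : ∀ r : ℤ, (C ((-1 : ℚ) ^ r) * B).natDegree ≤ s - 1 := fun r =>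
    (natDegree_C_mul_le _ _).trans hBd
  have hqd : ∀ r, (q r).natDegree ≤ 2 * s := by
    intro r
    apply (natDegree_add_le _ _).trans
    apply max_le _ (by have := hHd r; omega)
    apply (natDegree_add_le _ _).trans
    exact max_le hGd (by have := hsgnBd r; omega)
  have hqc : ∀ r, (q r).coeff (2 * s) = α := by
    intro r
    rw [hq]
    simp only [coeff_add]
    rw [hG, coeff_eq_zero_of_natDegree_lt (show (C ((-1 : ℚ) ^ r) * B).natDegree < 2 * s by
      have := hsgnBd r; omega), coeff_eq_zero_of_natDegree_lt (show (H r).natDegree < 2 * s by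
      have := hHd r; omega)]
    ring
  have hsq : ∀ r, ∃ U R : ℚ[X], U.Monic ∧ U.natDegree = s ∧ R.degree < s ∧
      q r = C α * U ^ 2 + R := fun r => exists_sqrt s α hα0 (q r) (hqd r) (hqc r)
  choose U R hU hUd hRd hqe using hsq
  -- reciprocity
  have hN2 := two_N n
  have hNodd : (N n) % 2 = 1 := by
    have h1 : 2 * N n = 2 * ((4 * t + 5) * (2 * t + 3)) := by rw [hN2, ht]; ring
    have h2 : N n = (4 * t + 5) * (2 * t + 3) := by omega
    rw [h2, Nat.mul_mod]
    have a1 : (4 * t + 5) % 2 = 1 := by omega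
    have a2 : (2 * t + 3) % 2 = 1 := by omega
    rw [a1, a2]
  have hnpar : (-1 : ℚ) ^ (n + 1) = 1 := by
    apply Even.neg_one_pow
    rw [ht]
    exact ⟨2 * t + 3, by ring⟩
  have hrec : ∀ r : ℤ, refl (N n : ℚ) (q (-(N n : ℤ) - r)) = q r := by
    intro r
    apply Polynomial.eq_of_infinite_eval_eq
    have hinf : Set.Infinite (Set.range (fun j : ℤ => ((r + L * j : ℤ) : ℚ))) := by
      apply Set.infinite_range_of_injective
      intro a b hab
      have hab' : (r + L * a : ℤ) = r + L * b := Int.cast_injective (α := ℚ) hab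
      have : (L : ℤ) * a = L * b := by linarith
      exact mul_left_cancel₀ (by exact_mod_cast hL0.ne') this
    apply hinf.mono
    rintro _ ⟨j, rfl⟩
    show (refl (N n : ℚ) (q (-(N n : ℤ) - r))).eval ((r + L * j : ℤ) : ℚ) =
      (q r).eval ((r + L * j : ℤ) : ℚ)
    rw [refl_eval, hq]
    simp only
    rw [← hHe r j]
    have e1 : -(N n : ℚ) - ((r + L * j : ℤ) : ℚ) = ((-(N n : ℤ) - r + L * (-j) : ℤ) : ℚ) := by
      push_cast; ring
    rw [e1, ← hHe (-(N n : ℤ) - r) (-j)]
    have e2 : -(N n : ℤ) - r + L * (-j) = -(N n : ℤ) - (r + L * j) := by ring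
    rw [e2, Q_recip n (by omega), hnpar, one_mul]
  refine ⟨L, hL0, fun r => ⟨U r, R r, hU r, hUd r, hRd r, ?_, ?_⟩⟩
  · -- the remainder has degree exactly `s - 1`
    set r' : ℤ := -(N n : ℤ) - r with hr'
    have hsgn : ((-1 : ℚ)) ^ r' = - (-1) ^ r := by
      have hodd : Odd (N n) := Nat.odd_iff.2 hNodd
      rw [hr', sub_eq_add_neg, zpow_add₀ (by norm_num), zpow_neg, zpow_neg, zpow_natCast,
        hodd.neg_one_pow]
      rcases Int.even_or_odd r with h | h
      · rw [h.neg_one_zpow]; norm_num
      · rw [h.neg_one_zpow]; norm_num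
    -- the difference of the two class polynomials
    have hdiff : q r - q r' = C (2 * (-1 : ℚ) ^ r) * B + (H r - H r') := by
      rw [hq]
      simp only
      rw [hsgn]
      simp only [C_mul, C_neg]
      have : (C 2 : ℚ[X]) = 2 := rfl
      rw [this]
      ring
    have hRdn : ∀ r, (R r).natDegree ≤ s - 1 := fun r => by
      have := natDegree_lt_of_degree_lt (by omega) (hRd r)
      omega
    have hUU : U r = U r' := by
      apply sqrt_unique s α hα0 (U r) (U r') (C (2 * (-1 : ℚ) ^ r) * B + (H r - H r') - R r + R r')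
        (hU r) (hUd r) (hU r') (hUd r')
      · rw [degree_lt_iff_coeff_zero]
        intro m hm
        rw [coeff_add, coeff_sub, coeff_add, coeff_sub, coeff_C_mul,
          coeff_eq_zero_of_natDegree_lt (show B.natDegree < m by omega),
          coeff_eq_zero_of_natDegree_lt (show (H r).natDegree < m by have := hHd r; omega),
          coeff_eq_zero_of_natDegree_lt (show (H r').natDegree < m by have := hHd r'; omega),
          coeff_eq_zero_of_natDegree_lt (show (R r).natDegree < m by have := hRdn r; omega),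
          coeff_eq_zero_of_natDegree_lt (show (R r').natDegree < m by have := hRdn r'; omega)]
        ring
      · rw [← hdiff, hqe r, hqe r']
        ring
    have hUr : U r = refl (N n : ℚ) (U r') := by
      have hm : (refl (N n : ℚ) (U r')).Monic := by
        rw [Monic, leadingCoeff, natDegree_refl, hUd, coeff_refl _ _ _ (hUd r').le]
        rw [show (U r').coeff s = 1 by rw [← hUd r']; exact (hU r').coeff_natDegree, hs1]
        rw [Even.neg_one_pow ⟨t + 1, by ring⟩]
        norm_num
      apply sqrt_unique s α hα0 (U r) _ (refl (N n : ℚ) (R r') - R r) (hU r) (hUd r) hm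
        (by rw [natDegree_refl, hUd])
      · rw [degree_lt_iff_coeff_zero]
        intro m hm
        rw [coeff_sub, coeff_eq_zero_of_natDegree_lt (show (refl (N n : ℚ) (R r')).natDegree < m by
            rw [natDegree_refl]; have := hRdn r'; omega),
          coeff_eq_zero_of_natDegree_lt (show (R r).natDegree < m by have := hRdn r; omega)]
        ring
      · have := hrec r
        rw [← hr', hqe r', refl_add, refl_C_mul_sq, hqe r] at this
        linear_combination (-1 : ℚ[X]) * this
    have hRr : R r = refl (N n : ℚ) (R r') := by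
      have := hrec r
      rw [← hr', hqe r', refl_add, refl_C_mul_sq, hqe r, ← hUr] at this
      exact (add_left_cancel this).symm
    have c1 : (R r).coeff (s - 1) = - (R r').coeff (s - 1) := by
      rw [hRr, coeff_refl _ _ _ (hRdn r'), hs1, Odd.neg_one_pow ⟨t, by omega⟩]
      ring
    have c2 : (R r).coeff (s - 1) - (R r').coeff (s - 1) = 2 * (-1 : ℚ) ^ r * B.coeff (s - 1) := by
      have h1 : R r - R r' = C (2 * (-1 : ℚ) ^ r) * B + (H r - H r') := by
        rw [← hdiff, hqe r, hqe r', hUU]
        ring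
      have := congrArg (fun p => p.coeff (s - 1)) h1
      simp only [coeff_sub, coeff_add, coeff_C_mul] at this
      rw [this, hHc r, hHc r']
      ring
    have c3 : (R r).coeff (s - 1) = (-1 : ℚ) ^ r * B.coeff (s - 1) := by linarith
    rw [c3]
    exact mul_ne_zero (zpow_ne_zero _ (by norm_num)) hB
  · intro j y hy
    have h1 := hHe r j
    rw [← hy, Q_natCast] at h1
    have h2 : (G + C ((-1 : ℚ) ^ r) * B + H r) = C α * U r ^ 2 + R r := hqe r
    rw [h1, h2]
    simp

end Pool.Agent.Helper23.EP
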