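import Mathlib

/-!
# A Runge type finiteness lemma
-/

set_option autoImplicit false

namespace Pool.Agent.Helper23.EP

open Finset Polynomial Filter Topology

theorem clear_denoms (p : ℚ[X]) :
    ∃ D : ℕ, 0 < D ∧ ∀ x : ℤ, ∃ k : ℤ, (D : ℚ) * p.eval (x : ℚ) = k := by
  induction p using Polynomial.induction_on' with
  | add p q hp hq =>
    obtain ⟨D1, h1, h1'⟩ := hp
    obtain ⟨D2, h2, h2'⟩ := hq
    refine ⟨D1 * D2, Nat.mul_pos h1 h2, fun x => ?_⟩
    obtain ⟨k1, hk1⟩ := h1' x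
    obtain ⟨k2, hk2⟩ := h2' x
    refine ⟨D2 * k1 + D1 * k2, ?_⟩
    rw [eval_add]
    push_cast
    rw [← hk1, ← hk2]
    ring
  | monomial n a =>
    refine ⟨a.den, a.den_pos, fun x => ⟨a.num * x ^ n, ?_⟩⟩
    rw [eval_monomial]
    push_cast
    have h : (a.den : ℚ) * a = a.num := by
      rw [mul_comm]
      exact Rat.mul_den_eq_num a
    rw [← mul_assoc, h]

theorem fiber_finite (p : ℚ[X]) (hp : 0 < p.natDegree) (c : ℚ) :
    {y : ℕ | p.eval (y : ℚ) = c}.Finite := by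
  have h0 : p - C c ≠ 0 := by
    intro h
    have : p = C c := sub_eq_zero.1 h
    rw [this] at hp
    simp at hp
  have h1 : {x : ℚ | (p - C c).IsRoot x}.Finite := by
    have := (p - C c).rootSet_finite ℚ
    apply this.subset
    intro x hx
    rw [mem_rootSet]
    refine ⟨h0, ?_⟩
    simpa [IsRoot] using hx
  have h2 := h1.preimage (f := fun y : ℕ => (y : ℚ)) (Nat.cast_injective.injOn)
  apply h2.subset
  intro y hy
  simp only [Set.mem_ofPred_eq] at hy
  simp [IsRoot, hy]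

theorem tendsto_of_fiber (C : Set (ℕ × ℕ)) (h : ∀ x : ℕ, {y : ℕ | (x, y) ∈ C}.Finite) :
    Tendsto (fun p : ℕ × ℕ => p.1) (cofinite ⊓ 𝓟 C) atTop := by
  rw [tendsto_atTop]
  intro M
  rw [eventually_inf_principal, eventually_cofinite]
  have h1 : (⋃ x ∈ Set.Iio M, (fun y => ((x, y) : ℕ × ℕ)) '' {y : ℕ | (x, y) ∈ C}).Finite :=
    (Set.finite_Iio M).biUnion fun x _ => (h x).image _
  apply h1.subset
  rintro ⟨x, y⟩ hxy
  simp only [Set.mem_ofPred_eq, Classical.not_imp, not_le] at hxy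
  simp only [Set.mem_iUnion]
  exact ⟨x, hxy.2, ⟨y, hxy.1, rfl⟩⟩

theorem tendsto_of_fiber' (C : Set (ℕ × ℕ)) (h : ∀ y : ℕ, {x : ℕ | (x, y) ∈ C}.Finite) :
    Tendsto (fun p : ℕ × ℕ => p.2) (cofinite ⊓ 𝓟 C) atTop := by
  rw [tendsto_atTop]
  intro M
  rw [eventually_inf_principal, eventually_cofinite]
  have h1 : (⋃ y ∈ Set.Iio M, (fun x => ((x, y) : ℕ × ℕ)) '' {x : ℕ | (x, y) ∈ C}).Finite :=
    (Set.finite_Iio M).biUnion fun y _ => (h y).image _
  apply h1.subset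
  rintro ⟨x, y⟩ hxy
  simp only [Set.mem_ofPred_eq, Classical.not_imp, not_le] at hxy
  simp only [Set.mem_iUnion]
  exact ⟨y, hxy.2, ⟨x, hxy.1, rfl⟩⟩

theorem natDegree_sq_pos (s : ℕ) (hs : 1 ≤ s) (U R : ℚ[X]) (a : ℚ) (ha : a ≠ 0) (hU : U.Monic)
    (hUd : U.natDegree = s) (hR : R.degree < s) : 0 < (C a * U ^ 2 + R).natDegree := by
  have h1 : (C a * U ^ 2 + R).coeff (2 * s) = a := by
    rw [coeff_add, coeff_C_mul, coeff_eq_zero_of_degree_lt (lt_of_lt_of_le hR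
      (by exact_mod_cast (show s ≤ 2 * s by omega)))]
    have : (U ^ 2).coeff (2 * s) = 1 := by
      have h2 := (hU.pow 2).coeff_natDegree
      rwa [hU.natDegree_pow, hUd] at h2
    rw [this]
    ring
  have := le_natDegree_of_ne_zero (show (C a * U ^ 2 + R).coeff (2 * s) ≠ 0 by rw [h1]; exact ha)
  omega

theorem runge_core (s t : ℕ) (hs : 1 ≤ s) (hst : s < t) (U V R S : ℚ[X]) (α κ : ℚ) (hα : 0 < α)
    (hκ : 0 < κ) (hU : U.Monic) (hUd : U.natDegree = s) (hV : V.Monic) (hVd : V.natDegree = t)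
    (hR : R.degree < s) (hS : S.degree < t) (hR' : s = 1 ∨ R.coeff (s - 1) ≠ 0)
    (hS' : S.coeff (t - 1) ≠ 0) :
    {p : ℕ × ℕ | α * κ ^ 2 * (U.eval (p.1 : ℚ)) ^ 2 + R.eval (p.1 : ℚ) =
      α * (V.eval (p.2 : ℚ)) ^ 2 + S.eval (p.2 : ℚ)}.Finite := by
  set Cs : Set (ℕ × ℕ) := {p : ℕ × ℕ | α * κ ^ 2 * (U.eval (p.1 : ℚ)) ^ 2 + R.eval (p.1 : ℚ) =
      α * (V.eval (p.2 : ℚ)) ^ 2 + S.eval (p.2 : ℚ)} with hCs
  by_contra hinf
  have hne : (cofinite ⊓ 𝓟 Cs).NeBot := cofinite_inf_principal_neBot_iff.2 hinf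
  set l : Filter (ℕ × ℕ) := cofinite ⊓ 𝓟 Cs with hl
  have hF := natDegree_sq_pos s hs U R (α * κ ^ 2) (by positivity) hU hUd hR
  have hG := natDegree_sq_pos t (by omega) V S α hα.ne' hV hVd hS
  have hx0 : Tendsto (fun p : ℕ × ℕ => p.1) l atTop := by
    apply tendsto_of_fiber
    intro x
    apply (fiber_finite _ hG ((α * κ ^ 2) * (U.eval (x : ℚ)) ^ 2 + R.eval (x : ℚ))).subset
    intro y hy
    have hy' : α * κ ^ 2 * (U.eval (x : ℚ)) ^ 2 + R.eval (x : ℚ) =
      α * (V.eval (y : ℚ)) ^ 2 + S.eval (y : ℚ) := hy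
    show (C α * V ^ 2 + S).eval (y : ℚ) = _
    rw [hy']
    simp
  have hy0 : Tendsto (fun p : ℕ × ℕ => p.2) l atTop := by
    apply tendsto_of_fiber'
    intro y
    apply (fiber_finite _ hF (α * (V.eval (y : ℚ)) ^ 2 + S.eval (y : ℚ))).subset
    intro x hx
    have hx' : α * κ ^ 2 * (U.eval (x : ℚ)) ^ 2 + R.eval (x : ℚ) =
      α * (V.eval (y : ℚ)) ^ 2 + S.eval (y : ℚ) := hx
    show (C (α * κ ^ 2) * U ^ 2 + R).eval (x : ℚ) = _
    rw [← hx']
    simp
  have hx : Tendsto (fun p : ℕ × ℕ => (p.1 : ℚ)) l atTop := tendsto_natCast_atTop_atTop.comp hx0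
  have hy : Tendsto (fun p : ℕ × ℕ => (p.2 : ℚ)) l atTop := tendsto_natCast_atTop_atTop.comp hy0
  have hmem : ∀ᶠ p in l, p ∈ Cs := by
    rw [hl, eventually_inf_principal]
    exact Eventually.of_forall fun _ h => h
  have hUdeg : U.degree = (s : ℕ) := by rw [degree_eq_natDegree hU.ne_zero, hUd]
  have hVdeg : V.degree = (t : ℕ) := by rw [degree_eq_natDegree hV.ne_zero, hVd]
  have hUtop : Tendsto (fun p : ℕ × ℕ => U.eval (p.1 : ℚ)) l atTop :=
    (tendsto_atTop_of_leadingCoeff_nonneg U (by rw [hUdeg]; exact_mod_cast hs)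
      (by rw [hU.leadingCoeff]; norm_num)).comp hx
  have hVtop : Tendsto (fun p : ℕ × ℕ => V.eval (p.2 : ℚ)) l atTop :=
    (tendsto_atTop_of_leadingCoeff_nonneg V (by rw [hVdeg]; exact_mod_cast (show 0 < t by omega))
      (by rw [hV.leadingCoeff]; norm_num)).comp hy
  have hRU : Tendsto (fun p : ℕ × ℕ => R.eval (p.1 : ℚ) / U.eval (p.1 : ℚ)) l (𝓝 0) :=
    (div_tendsto_atTop_zero_of_degree_lt R U (by rw [hUdeg]; exact hR)).comp hx
  have hSV : Tendsto (fun p : ℕ × ℕ => S.eval (p.2 : ℚ) / V.eval (p.2 : ℚ)) l (𝓝 0) :=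
    (div_tendsto_atTop_zero_of_degree_lt S V (by rw [hVdeg]; exact hS)).comp hy
  obtain ⟨D1, hD1, hD1'⟩ := clear_denoms (C κ * U)
  obtain ⟨D2, hD2, hD2'⟩ := clear_denoms V
  set D : ℚ := (D1 : ℚ) * D2 with hD
  have hDpos : 0 < D := by positivity
  have hε1 : 0 < α * κ / (2 * D) := by positivity
  have hε2 : 0 < α / (2 * D) := by positivity
  have hR1 : ∀ᶠ p : ℕ × ℕ in l, |R.eval (p.1 : ℚ) / U.eval (p.1 : ℚ)| < α * κ / (2 * D) := by
    have := (tendsto_order.1 (hRU.abs)).2 (α * κ / (2 * D)) (by simpa using hε1)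
    exact this
  have hS1 : ∀ᶠ p : ℕ × ℕ in l, |S.eval (p.2 : ℚ) / V.eval (p.2 : ℚ)| < α / (2 * D) := by
    have := (tendsto_order.1 (hSV.abs)).2 (α / (2 * D)) (by simpa using hε2)
    exact this
  have hUpos := hUtop.eventually_gt_atTop 0
  have hVpos := hVtop.eventually_gt_atTop 0
  -- the two square roots agree
  have heq : ∀ᶠ p : ℕ × ℕ in l, κ * U.eval (p.1 : ℚ) = V.eval (p.2 : ℚ) := by
    filter_upwards [hmem, hR1, hS1, hUpos, hVpos] with p hp h1 h2 h3 h4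
    by_contra hne'
    have hp' : α * κ ^ 2 * (U.eval (p.1 : ℚ)) ^ 2 + R.eval (p.1 : ℚ) =
      α * (V.eval (p.2 : ℚ)) ^ 2 + S.eval (p.2 : ℚ) := hp
    set a := U.eval (p.1 : ℚ) with ha
    set b := V.eval (p.2 : ℚ) with hb
    rw [abs_div, abs_of_pos h3, div_lt_iff₀ h3] at h1
    rw [abs_div, abs_of_pos h4, div_lt_iff₀ h4] at h2
    obtain ⟨k1, hk1⟩ := hD1' (p.1 : ℤ)
    obtain ⟨k2, hk2⟩ := hD2' (p.2 : ℤ)
    rw [eval_mul, eval_C] at hk1
    have hk1' : (D1 : ℚ) * (κ * a) = k1 := by exact_mod_cast hk1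
    have hk2' : (D2 : ℚ) * b = k2 := by exact_mod_cast hk2
    have hint : D * (κ * a - b) = ((D2 * k1 - D1 * k2 : ℤ) : ℚ) := by
      push_cast
      rw [← hk1', ← hk2', hD]
      ring
    have hint0 : (D2 * k1 - D1 * k2 : ℤ) ≠ 0 := by
      intro h0
      rw [h0, Int.cast_zero] at hint
      rcases mul_eq_zero.1 hint with h | h
      · exact hDpos.ne' h
      · exact hne' (sub_eq_zero.1 h)
    have habs : 1 ≤ D * |κ * a - b| := by
      have h5 : |D * (κ * a - b)| = D * |κ * a - b| := by rw [abs_mul, abs_of_pos hDpos]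
      rw [← h5, hint, ← Int.cast_abs]
      exact_mod_cast Int.one_le_abs hint0
    have hsum : 0 < κ * a + b := by positivity
    have hkey : α * (|κ * a - b| * (κ * a + b)) = |S.eval (p.2 : ℚ) - R.eval (p.1 : ℚ)| := by
      have e1 : S.eval (p.2 : ℚ) - R.eval (p.1 : ℚ) = α * ((κ * a - b) * (κ * a + b)) := by
        linear_combination (-1 : ℚ) * hp'
      rw [e1, abs_mul, abs_mul, abs_of_pos hα, abs_of_pos hsum]
    have hle : |S.eval (p.2 : ℚ) - R.eval (p.1 : ℚ)| < α / (2 * D) * b + α * κ / (2 * D) * a := by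
      have := abs_sub (S.eval (p.2 : ℚ)) (R.eval (p.1 : ℚ))
      linarith
    have h7 : α * (κ * a + b) ≤ D * (α * (|κ * a - b| * (κ * a + b))) := by
      have : α * (κ * a + b) * 1 ≤ α * (κ * a + b) * (D * |κ * a - b|) :=
        mul_le_mul_of_nonneg_left habs (by positivity)
      linarith
    have h8 : D * (α / (2 * D) * b + α * κ / (2 * D) * a) = α * (κ * a + b) / 2 := by
      field_simp
      ring
    have h9 : D * (α * (|κ * a - b| * (κ * a + b))) < α * (κ * a + b) / 2 := by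
      rw [hkey, ← h8]
      exact mul_lt_mul_of_pos_left hle hDpos
    have h10 : 0 < α * (κ * a + b) := by positivity
    linarith
  have heq2 : ∀ᶠ p : ℕ × ℕ in l, R.eval (p.1 : ℚ) = S.eval (p.2 : ℚ) := by
    filter_upwards [hmem, heq] with p hp h1
    have hp' : α * κ ^ 2 * (U.eval (p.1 : ℚ)) ^ 2 + R.eval (p.1 : ℚ) =
      α * (V.eval (p.2 : ℚ)) ^ 2 + S.eval (p.2 : ℚ) := hp
    rw [← h1] at hp'
    linear_combination hp'
  have hSnd : 0 < S.natDegree := by
    have := le_natDegree_of_ne_zero hS'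
    omega
  by_cases hs1 : s = 1
  · -- `R` is constant
    have hRc : R = C (R.coeff 0) := by
      apply eq_C_of_degree_le_zero
      rw [hs1] at hR
      exact Order.le_of_lt_succ hR
    have hfin := fiber_finite S hSnd (R.coeff 0)
    have h1 : ∀ᶠ y : ℕ in atTop, S.eval (y : ℚ) ≠ R.coeff 0 := by
      rw [← Nat.cofinite_eq_atTop, eventually_cofinite]
      simpa using hfin
    have h2 := hy0.eventually h1
    have h3 : ∀ᶠ p : ℕ × ℕ in l, False := by
      filter_upwards [h2, heq2] with p hp hp'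
      rw [hRc, eval_C] at hp'
      exact hp hp'.symm
    rw [eventually_false_iff_eq_bot] at h3
    exact hne.ne h3
  · have hR2 : R.coeff (s - 1) ≠ 0 := by
      rcases hR' with h | h
      · exact absurd h hs1
      · exact h
    have hRd : R.natDegree = s - 1 := by
      apply le_antisymm
      · have : R ≠ 0 := fun h => hR2 (by rw [h]; simp)
        rw [degree_eq_natDegree this] at hR
        have : R.natDegree < s := by exact_mod_cast hR
        omega
      · exact le_natDegree_of_ne_zero hR2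
    have hSd : S.natDegree = t - 1 := by
      apply le_antisymm
      · have : S ≠ 0 := fun h => hS' (by rw [h]; simp)
        rw [degree_eq_natDegree this] at hS
        have : S.natDegree < t := by exact_mod_cast hS
        omega
      · exact le_natDegree_of_ne_zero hS'
    have hlim : ∀ (W : ℚ[X]), W ≠ 0 → Tendsto (fun x : ℚ => W.eval x / x ^ W.natDegree) atTop
        (𝓝 W.leadingCoeff) := by
      intro W hW
      have := div_tendsto_atTop_leadingCoeff_div_of_degree_eq W (X ^ W.natDegree)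
        (by rw [degree_X_pow, degree_eq_natDegree hW])
      simpa using this
    have f1 : Tendsto (fun p : ℕ × ℕ => U.eval (p.1 : ℚ) / (p.1 : ℚ) ^ s) l (𝓝 1) := by
      have := (hlim U hU.ne_zero).comp hx
      rw [hU.leadingCoeff, hUd] at this
      exact this
    have f2 : Tendsto (fun p : ℕ × ℕ => V.eval (p.2 : ℚ) / (p.2 : ℚ) ^ t) l (𝓝 1) := by
      have := (hlim V hV.ne_zero).comp hy
      rw [hV.leadingCoeff, hVd] at this
      exact this
    set ρ := R.leadingCoeff with hρ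
    set σ := S.leadingCoeff with hσ
    have hρ0 : ρ ≠ 0 := by
      rw [hρ, leadingCoeff_ne_zero]
      exact fun h => hR2 (by rw [h]; simp)
    have hσ0 : σ ≠ 0 := by
      rw [hσ, leadingCoeff_ne_zero]
      exact fun h => hS' (by rw [h]; simp)
    have f3 : Tendsto (fun p : ℕ × ℕ => R.eval (p.1 : ℚ) / (p.1 : ℚ) ^ (s - 1)) l (𝓝 ρ) := by
      have := (hlim R (fun h => hR2 (by rw [h]; simp))).comp hx
      rw [hRd] at this
      exact this
    have f4 : Tendsto (fun p : ℕ × ℕ => S.eval (p.2 : ℚ) / (p.2 : ℚ) ^ (t - 1)) l (𝓝 σ) := by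
      have := (hlim S (fun h => hS' (by rw [h]; simp))).comp hy
      rw [hSd] at this
      exact this
    have hxpos := hx.eventually_gt_atTop 0
    have hypos := hy.eventually_gt_atTop 0
    have f1pos : ∀ᶠ p : ℕ × ℕ in l, 0 < U.eval (p.1 : ℚ) / (p.1 : ℚ) ^ s :=
      f1.eventually_const_lt (by norm_num)
    have f4ne : ∀ᶠ p : ℕ × ℕ in l, S.eval (p.2 : ℚ) / (p.2 : ℚ) ^ (t - 1) ≠ 0 :=
      f4.eventually_ne hσ0
    -- `x / y` converges
    have g1 : Tendsto (fun p : ℕ × ℕ => (p.1 : ℚ) / p.2) l (𝓝 (1 * ρ / (κ * 1 * σ))) := by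
      have h1 : Tendsto (fun p : ℕ × ℕ => (V.eval (p.2 : ℚ) / (p.2 : ℚ) ^ t) *
          (R.eval (p.1 : ℚ) / (p.1 : ℚ) ^ (s - 1)) /
          (κ * (U.eval (p.1 : ℚ) / (p.1 : ℚ) ^ s) * (S.eval (p.2 : ℚ) / (p.2 : ℚ) ^ (t - 1)))) l
          (𝓝 (1 * ρ / (κ * 1 * σ))) := by
        apply Tendsto.div (f2.mul f3) ((f1.const_mul κ).mul f4)
        exact mul_ne_zero (mul_ne_zero hκ.ne' one_ne_zero) hσ0
      apply h1.congr'
      filter_upwards [heq, heq2, hxpos, hypos, f1pos, f4ne] with p e1 e2 e3 e4 e5 e6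
      have e7 : U.eval (p.1 : ℚ) ≠ 0 := by
        intro h
        rw [h] at e5
        simp at e5
      have e8 : S.eval (p.2 : ℚ) ≠ 0 := by
        intro h
        rw [h] at e6
        simp at e6
      rw [← e1, e2]
      obtain ⟨s', rfl⟩ : ∃ s', s = s' + 1 := ⟨s - 1, by omega⟩
      obtain ⟨t', rfl⟩ : ∃ t', t = t' + 1 := ⟨t - 1, by omega⟩
      rw [Nat.add_sub_cancel, Nat.add_sub_cancel]
      field_simp
      ring
    -- contradiction
    have g2 : Tendsto (fun p : ℕ × ℕ => κ * (U.eval (p.1 : ℚ) / (p.1 : ℚ) ^ s) *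
        ((p.1 : ℚ) / p.2) ^ s) l (𝓝 (κ * 1 * (1 * ρ / (κ * 1 * σ)) ^ s)) :=
      (f1.const_mul κ).mul (g1.pow s)
    have g3 : Tendsto (fun p : ℕ × ℕ => (V.eval (p.2 : ℚ) / (p.2 : ℚ) ^ t) *
        (p.2 : ℚ) ^ (t - s)) l atTop := by
      apply f2.pos_mul_atTop (by norm_num)
      exact (tendsto_pow_atTop (by omega)).comp hy
    have g4 : (fun p : ℕ × ℕ => κ * (U.eval (p.1 : ℚ) / (p.1 : ℚ) ^ s) *
        ((p.1 : ℚ) / p.2) ^ s) =ᶠ[l] (fun p : ℕ × ℕ => (V.eval (p.2 : ℚ) / (p.2 : ℚ) ^ t) *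
        (p.2 : ℚ) ^ (t - s)) := by
      filter_upwards [heq, hxpos, hypos] with p e1 e3 e4
      rw [← e1]
      obtain ⟨d, rfl⟩ : ∃ d, t = s + d := ⟨t - s, by omega⟩
      rw [Nat.add_sub_cancel_left, div_pow, pow_add]
      field_simp
    exact not_tendsto_nhds_of_tendsto_atTop g3 _ (g2.congr' g4)

end Pool.Agent.Helper23.EP
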