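import Mathlib
import Pool.Agent.Helper23.EP.Cls
import Pool.Agent.Helper23.EP.Runge

/-!
# Finiteness from class data
-/

set_option autoImplicit false

namespace Pool.Agent.Helper23.EP

open Finset Polynomial

/-- On every residue class `P n` is `α U ^ 2 + R` with `U` monic of degree `s` and `R` of degree
exactly `s - 1` (for `s = 1`: `R` constant). -/
def ClassData (n s : ℕ) (α : ℚ) : Prop :=
  ∃ L : ℕ, 0 < L ∧ ∀ r : ℤ, ∃ U R : ℚ[X], U.Monic ∧ U.natDegree = s ∧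
      R.degree < (s : ℕ) ∧ (s = 1 ∨ R.coeff (s - 1) ≠ 0) ∧
      ∀ j : ℤ, ∀ y : ℕ, (y : ℤ) = r + L * j →
        (P n y : ℚ) = α * (U.eval (y : ℚ)) ^ 2 + R.eval (y : ℚ)

theorem finite_of_classData (m n s t : ℕ) (hs : 1 ≤ s) (hst : s < t) (α κ : ℚ) (hα : 0 < α)
    (hκ : 0 < κ) (hm : ClassData m s (α * κ ^ 2)) (hn : ClassData n t α) :
    {p : ℕ × ℕ | P m p.1 = P n p.2}.Finite := by
  obtain ⟨L, hL, hL'⟩ := hm
  obtain ⟨M, hM, hM'⟩ := hn
  choose U R hU hUd hR hR' hUR using hL'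
  choose V S hV hVd hS hS' hVS using hM'
  have hfin : (⋃ a ∈ Set.Iio L, ⋃ b ∈ Set.Iio M,
      {p : ℕ × ℕ | α * κ ^ 2 * ((U (a : ℤ)).eval (p.1 : ℚ)) ^ 2 + (R (a : ℤ)).eval (p.1 : ℚ) =
        α * ((V (b : ℤ)).eval (p.2 : ℚ)) ^ 2 + (S (b : ℤ)).eval (p.2 : ℚ)}).Finite := by
    apply (Set.finite_Iio L).biUnion
    intro a _
    apply (Set.finite_Iio M).biUnion
    intro b _
    apply runge_core s t hs hst _ _ _ _ α κ hα hκ (hU _) (hUd _) (hV _) (hVd _) (hR _) (hS _)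
      (hR' _)
    rcases hS' (b : ℤ) with h | h
    · omega
    · exact h
  apply hfin.subset
  rintro ⟨x, y⟩ hxy
  have hxy' : P m x = P n y := hxy
  simp only [Set.mem_iUnion]
  refine ⟨x % L, Nat.mod_lt _ hL, y % M, Nat.mod_lt _ hM, ?_⟩
  have e1 : (x : ℤ) = ((x % L : ℕ) : ℤ) + L * ((x / L : ℕ) : ℤ) := by
    exact_mod_cast (Nat.mod_add_div x L).symm
  have e2 : (y : ℤ) = ((y % M : ℕ) : ℤ) + M * ((y / M : ℕ) : ℤ) := by
    exact_mod_cast (Nat.mod_add_div y M).symm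
  have h1 := hUR _ _ x e1
  have h2 := hVS _ _ y e2
  show α * κ ^ 2 * ((U ((x % L : ℕ) : ℤ)).eval (x : ℚ)) ^ 2 + (R ((x % L : ℕ) : ℤ)).eval (x : ℚ) =
        α * ((V ((y % M : ℕ) : ℤ)).eval (y : ℚ)) ^ 2 + (S ((y % M : ℕ) : ℤ)).eval (y : ℚ)
  rw [← h1, ← h2, hxy']

/-- `α n = 1 / (n! (n-1)!)` -/
noncomputable def al (n : ℕ) : ℚ := 1 / (n.factorial * (n - 1).factorial)

theorem al_pos (n : ℕ) : 0 < al n := by
  unfold al
  positivity

theorem classData_one_mod_four (n : ℕ) (h4 : n % 4 = 1) (h5 : 5 ≤ n) :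
    ClassData n ((n - 1) / 2) (al n) := by
  obtain ⟨L, hL, h⟩ := class_structure n h4 h5
  refine ⟨L, hL, fun r => ?_⟩
  obtain ⟨U, R, h1, h2, h3, h4, h5⟩ := h r
  exact ⟨U, R, h1, h2, h3, Or.inr h4, h5⟩

theorem al_ratio (m n : ℕ) (hm : 1 ≤ m) (hmn : m ≤ n) (hsq : IsSquare (m * n)) :
    ∃ κ : ℚ, 0 < κ ∧ al m = al n * κ ^ 2 := by
  obtain ⟨k, hk⟩ := hsq
  have hk0 : 0 < k := by
    rcases Nat.eq_zero_or_pos k with h | h
    · rw [h] at hk
      simp at hk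
      omega
    · exact h
  refine ⟨(k : ℚ) / m * ((n - 1).factorial / (m - 1).factorial), by positivity, ?_⟩
  have hmf : (m.factorial : ℚ) = m * (m - 1).factorial := by
    rw [← Nat.mul_factorial_pred (show m ≠ 0 by omega)]
    push_cast
    ring
  have hnf : (n.factorial : ℚ) = n * (n - 1).factorial := by
    rw [← Nat.mul_factorial_pred (show n ≠ 0 by omega)]
    push_cast
    ring
  have hkq : (k : ℚ) * k = m * n := by exact_mod_cast hk.symm
  have h1 : (m : ℚ) ≠ 0 := by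
    have : (0 : ℚ) < m := by exact_mod_cast hm
    exact this.ne'
  have h2 : (n : ℚ) ≠ 0 := by
    have : (0 : ℚ) < n := by exact_mod_cast (show 0 < n by omega)
    exact this.ne'
  have h3 : ((m - 1).factorial : ℚ) ≠ 0 := by positivity
  have h4 : ((n - 1).factorial : ℚ) ≠ 0 := by positivity
  unfold al
  rw [hmf, hnf]
  field_simp
  linear_combination (-1 : ℚ) * hkq

end Pool.Agent.Helper23.EP
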