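import Mathlib

/-!
# The power series `exp (a τ)`, `sinh (a τ) / (a τ)` and their products
-/

set_option autoImplicit false

namespace Pool.Agent.Helper23.EP

open PowerSeries

/-- `exp (a τ)` -/
noncomputable def ex (a : ℚ) : ℚ⟦X⟧ := rescale a (exp ℚ)

theorem coeff_ex (a : ℚ) (k : ℕ) : coeff k (ex a) = a ^ k / k.factorial := by
  rw [ex, coeff_rescale, coeff_exp]
  simp [div_eq_mul_inv]

theorem ex_mul (a b : ℚ) : ex a * ex b = ex (a + b) := exp_mul_exp_eq_exp_add a b

theorem ex_zero : ex 0 = 1 := by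
  ext k
  rw [coeff_ex, coeff_one]
  split_ifs with h
  · simp [h]
  · simp [h]

theorem ex_pow (a : ℚ) (k : ℕ) : ex a ^ k = ex (k * a) := by
  induction k with
  | zero => simp [ex_zero]
  | succ k ih =>
    rw [pow_succ, ih, ex_mul]
    congr 1
    push_cast
    ring

theorem derivative_ex (a : ℚ) : derivative ℚ (ex a) = C a * ex a := by
  ext k
  rw [coeff_derivative, coeff_ex, coeff_C_mul, coeff_ex, pow_succ, Nat.factorial_succ]
  push_cast
  have h1 : ((k : ℚ) + 1) ≠ 0 := by positivity
  have h2 : (k.factorial : ℚ) ≠ 0 := by positivity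
  field_simp

/-- `sinh (a τ) / (a τ)` -/
noncomputable def Sh (a : ℚ) : ℚ⟦X⟧ :=
  PowerSeries.mk fun k => if Even k then a ^ k / (k + 1).factorial else 0

theorem Sh_spec (a : ℚ) : C (2 * a) * X * Sh a = ex a - ex (-a) := by
  ext k
  rcases k with _ | k
  · rw [mul_assoc, coeff_C_mul, coeff_zero_X_mul, map_sub, coeff_ex, coeff_ex]
    simp
  · rw [mul_assoc, coeff_C_mul, coeff_succ_X_mul, Sh, coeff_mk, map_sub, coeff_ex, coeff_ex]
    split_ifs with h
    · have h2 : Odd (k + 1) := h.add_one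
      rw [h2.neg_pow]
      ring
    · have h2 : Even (k + 1) := by
        rw [Nat.even_add_one]
        exact h
      rw [h2.neg_pow]
      ring

theorem constantCoeff_Sh (a : ℚ) : constantCoeff (Sh a) = 1 := by
  rw [← coeff_zero_eq_constantCoeff_apply, Sh, coeff_mk]
  simp

theorem coeff_one_Sh (a : ℚ) : coeff 1 (Sh a) = 0 := by
  rw [Sh, coeff_mk, if_neg (by decide)]

theorem coeff_two_Sh (a : ℚ) : coeff 2 (Sh a) = a ^ 2 / 6 := by
  rw [Sh, coeff_mk, if_pos (by decide)]
  norm_num [Nat.factorial]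

/-- `Sh 1 * ... * Sh n` -/
noncomputable def Pi (n : ℕ) : ℚ⟦X⟧ := ∏ i ∈ Finset.range n, Sh ((i + 1 : ℕ) : ℚ)

theorem Pi_succ (n : ℕ) : Pi (n + 1) = Pi n * Sh ((n + 1 : ℕ) : ℚ) := by
  simp [Pi, Finset.prod_range_succ]

theorem constantCoeff_Pi (n : ℕ) : constantCoeff (Pi n) = 1 := by
  rw [Pi, map_prod]
  apply Finset.prod_eq_one
  intro i _
  exact constantCoeff_Sh _

/-- the inverse of `Pi n` -/
noncomputable def Ci (n : ℕ) : ℚ⟦X⟧ := (Pi n)⁻¹

theorem Pi_mul_Ci (n : ℕ) : Pi n * Ci n = 1 :=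
  PowerSeries.mul_inv_cancel _ (by rw [constantCoeff_Pi]; norm_num)

theorem Ci_succ_mul (n : ℕ) : Ci (n + 1) * Sh ((n + 1 : ℕ) : ℚ) = Ci n := by
  have h1 := Pi_mul_Ci n
  have h2 := Pi_mul_Ci (n + 1)
  rw [Pi_succ] at h2
  calc Ci (n + 1) * Sh ((n + 1 : ℕ) : ℚ) = Ci (n + 1) * Sh ((n + 1 : ℕ) : ℚ) * (Pi n * Ci n) := by
        rw [h1, mul_one]
    _ = (Pi n * Sh ((n + 1 : ℕ) : ℚ) * Ci (n + 1)) * Ci n := by ring
    _ = Ci n := by rw [h2, one_mul]

theorem coeff_zero_Ci (n : ℕ) : coeff 0 (Ci n) = 1 := by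
  have h := congrArg constantCoeff (Pi_mul_Ci n)
  rw [map_mul, constantCoeff_Pi, one_mul, map_one] at h
  rw [coeff_zero_eq_constantCoeff_apply, h]

theorem coeff_one_two_Ci (n : ℕ) : coeff 1 (Ci n) = 0 ∧
    coeff 2 (Ci n) = -((n : ℚ) * (n + 1) * (2 * n + 1)) / 36 := by
  induction n with
  | zero =>
    have : Ci 0 = 1 := by
      have := Pi_mul_Ci 0
      simpa [Pi] using this
    rw [this, coeff_one, coeff_one]
    simp
  | succ n ih =>
    have h := Ci_succ_mul n
    have c0 := coeff_zero_Ci (n + 1)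
    have h1 := congrArg (coeff 1) h
    have h2 := congrArg (coeff 2) h
    rw [coeff_mul] at h1 h2
    have a1 : Finset.HasAntidiagonal.antidiagonal 1 = {(0, 1), (1, 0)} := by decide
    have a2 : Finset.HasAntidiagonal.antidiagonal 2 = {(0, 2), (1, 1), (2, 0)} := by decide
    have s0 : coeff 0 (Sh ((n + 1 : ℕ) : ℚ)) = 1 := by
      rw [coeff_zero_eq_constantCoeff_apply, constantCoeff_Sh]
    rw [a1, Finset.sum_pair (by decide), c0, coeff_one_Sh, s0, ih.1] at h1
    rw [a2, Finset.sum_insert (by decide), Finset.sum_pair (by decide), c0, coeff_one_Sh, s0,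
      coeff_two_Sh, ih.2] at h2
    constructor
    · linarith
    · push_cast at h2 ⊢
      linear_combination h2

theorem coeff_odd_Ci (n : ℕ) : ∀ k, Odd k → coeff k (Ci n) = 0 := by
  have hPi : ∀ k, Odd k → coeff k (Pi n) = 0 := by
    induction n with
    | zero =>
      intro k hk
      have : Pi 0 = 1 := by simp [Pi]
      rw [this, coeff_one, if_neg]
      rintro rfl
      simp at hk
    | succ n ih =>
      intro k hk
      rw [Pi_succ, coeff_mul]
      apply Finset.sum_eq_zero
      rintro ⟨i, j⟩ hij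
      rw [Finset.HasAntidiagonal.mem_antidiagonal] at hij
      simp only at hij ⊢
      rcases Nat.even_or_odd j with h | h
      · have : Odd i := by
          rw [← hij] at hk
          exact (Nat.odd_add.1 hk).2 h
        rw [ih i this, zero_mul]
      · rw [Sh, coeff_mk, if_neg (by rwa [Nat.not_even_iff_odd]), mul_zero]
  intro k
  induction k using Nat.strong_induction_on with
  | _ k ih =>
    intro hk
    have h := congrArg (coeff k) (Pi_mul_Ci n)
    rw [coeff_mul, coeff_one, if_neg (by rintro rfl; simp at hk)] at h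
    rw [Finset.sum_eq_single (0, k)] at h
    · rw [coeff_zero_eq_constantCoeff_apply, constantCoeff_Pi, one_mul] at h
      exact h
    · rintro ⟨i, j⟩ hij hne
      rw [Finset.HasAntidiagonal.mem_antidiagonal] at hij
      simp only at hij ⊢
      rcases Nat.even_or_odd i with h' | h'
      · have hj : Odd j := by
          rw [← hij] at hk
          exact (Nat.odd_add'.1 hk).2 h'
        have hi0 : i ≠ 0 := by
          rintro rfl
          apply hne
          simp only [zero_add] at hij
          rw [hij]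
        rw [ih j (by omega) hj, mul_zero]
      · rw [hPi i h', zero_mul]
    · intro h'
      exfalso
      apply h'
      simp

end Pool.Agent.Helper23.EP
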