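import Mathlib
import Pool.Agent.Helper23.EP.Ser
import Pool.Agent.Helper23.EP.Lead

/-!
# Exact formula for the polynomial part of the restricted partition function
-/

set_option autoImplicit false

namespace Pool.Agent.Helper23.EP

open PowerSeries

/-- the candidate for the polynomial part -/
noncomputable def Hf (n : ℕ) (y : ℚ) : ℚ :=
  1 / (n.factorial * 2 ^ (n - 1)) * coeff (n - 1) (ex (N n) * Ci n * ex (2 * y))

theorem Hf_one (y : ℚ) : Hf 1 y = 1 := by
  have h := coeff_zero_Ci 1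
  rw [coeff_zero_eq_constantCoeff_apply] at h
  have e : ∀ a : ℚ, constantCoeff (ex a) = 1 := by
    intro a
    rw [← coeff_zero_eq_constantCoeff_apply, coeff_ex]
    simp
  rw [Hf]
  simp [h, e]

theorem Hf_diff (n : ℕ) (hn : 1 ≤ n) (y : ℚ) : Hf (n + 1) y - Hf (n + 1) (y - (n + 1 : ℕ)) = Hf n y := by
  obtain ⟨k, rfl⟩ : ∃ k, n = k + 1 := ⟨n - 1, by omega⟩
  set a : ℚ := ((k + 1 + 1 : ℕ) : ℚ) with ha
  have h1 : ex (N (k + 1 + 1)) * Ci (k + 1 + 1) * ex (2 * y) -
      ex (N (k + 1 + 1)) * Ci (k + 1 + 1) * ex (2 * (y - a)) =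
      X * (C (2 * a) * (ex (N (k + 1)) * Ci (k + 1) * ex (2 * y))) := by
    have e1 : ex (2 * y) - ex (2 * (y - a)) = ex (2 * y - a) * (C (2 * a) * X * Sh a) := by
      have g1 : ex (2 * y - a) * ex a = ex (2 * y) := by
        rw [ex_mul]
        congr 1
        ring
      have g2 : ex (2 * y - a) * ex (-a) = ex (2 * (y - a)) := by
        rw [ex_mul]
        congr 1
        ring
      rw [Sh_spec, ← g1, ← g2]
      ring
    have e2 : ex (N (k + 1 + 1)) = ex (N (k + 1)) * ex a := by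
      rw [ex_mul, N_succ]
      congr 1
      push_cast [ha]
      ring
    have e3 : ex a * ex (2 * y - a) = ex (2 * y) := by
      rw [ex_mul]
      congr 1
      ring
    rw [← mul_sub, e1, e2]
    have e4 := Ci_succ_mul (k + 1)
    rw [← ha] at e4
    rw [← e4, ← e3]
    ring
  rw [Hf, Hf, Hf, ← mul_sub, ← map_sub, h1, Nat.add_sub_cancel, Nat.add_sub_cancel,
    coeff_succ_X_mul, coeff_C_mul, Nat.factorial_succ (k + 1)]
  have f1 : ((k + 1).factorial : ℚ) ≠ 0 := by positivity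
  rw [ha]
  push_cast
  have f2 : ((k : ℚ) + 1 + 1) ≠ 0 := by positivity
  field_simp
  ring

/-- action of polynomials in the shift -/
theorem aeval_T_coeff (p : Polynomial ℚ) (m : ℕ) (F : ℚ⟦X⟧) (y : ℤ) :
    (Polynomial.aeval T p) (fun y : ℤ => coeff m (F * ex (2 * (y : ℚ)))) y =
      coeff m (F * ex (2 * (y : ℚ)) * Polynomial.aeval (ex (-2)) p) := by
  rw [aeval_apply_eq_sum p _ y (Nat.lt_succ_self _),
    Polynomial.aeval_eq_sum_range' (Nat.lt_succ_self _), Finset.mul_sum, map_sum]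
  apply Finset.sum_congr rfl
  intro j _
  have : ex (2 * ((y - j : ℤ) : ℚ)) = ex (2 * (y : ℚ)) * ex (-2) ^ j := by
    rw [ex_pow, ex_mul]
    congr 1
    push_cast
    ring
  rw [this, mul_smul_comm, map_smul, smul_eq_mul, mul_assoc]

theorem aeval_D (n : ℕ) : Polynomial.aeval (ex (-2)) (D n) =
    C ((-2) ^ n * (n.factorial : ℚ)) * X ^ n * ex (-(N n : ℚ)) * Pi n := by
  induction n with
  | zero => simp [D, N, Pi, ex_zero]
  | succ n ih =>
    rw [D_succ, map_mul, ih, Pi_succ]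
    set a : ℚ := ((n + 1 : ℕ) : ℚ) with ha
    have h1 : Polynomial.aeval (ex (-2)) (Polynomial.X ^ (n + 1) - 1 : Polynomial ℚ) =
        -(ex (-a) * (C (2 * a) * X * Sh a)) := by
      rw [Sh_spec, mul_sub, ex_mul, ex_mul, map_sub, map_pow, Polynomial.aeval_X, map_one, ex_pow]
      have e1 : -a + a = 0 := by ring
      have e2 : -a + -a = ((n + 1 : ℕ) : ℚ) * -2 := by rw [ha]; ring
      rw [e1, e2, ex_zero]
      ring
    rw [h1]
    have e3 : ex (-(N (n + 1) : ℚ)) = ex (-(N n : ℚ)) * ex (-a) := by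
      rw [ex_mul, N_succ]
      congr 1
      push_cast [ha]
      ring
    rw [e3, Nat.factorial_succ, pow_succ, pow_succ]
    have e4 : C ((-2) ^ n * -2 * (((n + 1) * n.factorial : ℕ) : ℚ)) =
        (C ((-2) ^ n * (n.factorial : ℚ)) * C (-(2 * a)) : ℚ⟦X⟧) := by
      rw [← map_mul]
      congr 1
      push_cast [ha]
      ring
    have e5 : (C (-(2 * a)) : ℚ⟦X⟧) = - C (2 * a) := by rw [map_neg]
    rw [e4, e5]
    ring

/-- `θ` -/
noncomputable def th : ℚ⟦X⟧ := C 2 * ex (-1) * Sh 1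

theorem X_mul_th : X * th = 1 - ex (-2) := by
  have h := Sh_spec 1
  rw [mul_one] at h
  have : X * th = ex (-1) * (C 2 * X * Sh 1) := by rw [th]; ring
  rw [this, h, mul_sub, ex_mul, ex_mul]
  norm_num [ex_zero]

theorem constantCoeff_th : constantCoeff th = 2 := by
  have e : constantCoeff (ex (-1)) = 1 := by
    rw [← coeff_zero_eq_constantCoeff_apply, coeff_ex]
    simp
  rw [th, map_mul, map_mul, e, constantCoeff_Sh, constantCoeff_C]
  ring

theorem psi_coeff (k : ℕ) : coeff (k + 1) (ex (-2) * (th⁻¹) ^ (k + 2)) = 0 := by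
  set ψ := th⁻¹ with hψ
  have h1 : th * ψ = 1 := PowerSeries.mul_inv_cancel _ (by rw [constantCoeff_th]; norm_num)
  have h2 : th + X * derivative ℚ th = C 2 * ex (-2) := by
    have := congrArg (derivative ℚ) X_mul_th
    rw [Derivation.leibniz, map_sub, derivative_one, derivative_ex, derivative_X] at this
    simp only [smul_eq_mul, mul_one] at this
    have e : (C (-2) : ℚ⟦X⟧) = - C 2 := by rw [map_neg]
    rw [e] at this
    linear_combination this
  have h3 : derivative ℚ ψ = -ψ ^ 2 * derivative ℚ th := derivative_inv' th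
  have h4 : derivative ℚ (ψ ^ (k + 1)) = -(C ((k : ℚ) + 1) * (ψ ^ (k + 2) * derivative ℚ th)) := by
    rw [derivative_pow, Nat.add_sub_cancel, h3]
    have : ((k + 1 : ℕ) : ℚ⟦X⟧) = C ((k : ℚ) + 1) := by
      rw [map_add, map_natCast, map_one]
      push_cast
      ring
    rw [this]
    ring
  have h5 : C ((k : ℚ) + 1) * (C 2 * (ex (-2) * ψ ^ (k + 2))) =
      C ((k : ℚ) + 1) * ψ ^ (k + 1) - X * derivative ℚ (ψ ^ (k + 1)) := by
    rw [h4]
    have e1 : C 2 * (ex (-2) * ψ ^ (k + 2)) = (th + X * derivative ℚ th) * ψ ^ (k + 2) := by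
      rw [h2]; ring
    have e2 : (th + X * derivative ℚ th) * ψ ^ (k + 2) =
        (th * ψ) * ψ ^ (k + 1) + X * (ψ ^ (k + 2) * derivative ℚ th) := by ring
    rw [e1, e2, h1]
    ring
  have h6 := congrArg (coeff (k + 1)) h5
  rw [coeff_C_mul, coeff_C_mul, map_sub, coeff_C_mul, coeff_succ_X_mul, coeff_derivative] at h6
  have hk : ((k : ℚ) + 1) ≠ 0 := by positivity
  have h7 : ((k : ℚ) + 1) * (2 * coeff (k + 1) (ex (-2) * ψ ^ (k + 2))) = 0 := by
    rw [h6]
    ring
  rcases mul_eq_zero.1 h7 with h | h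
  · exact absurd h hk
  · linarith

/-- `(X + 1) ^ (n / 2) * K n` -/
noncomputable def K' (n : ℕ) : Polynomial ℚ := (Polynomial.X + 1) ^ (n / 2) * K n

theorem D_eq' (n : ℕ) : D n = (Polynomial.X - 1) ^ n * K' n := by
  rw [D_eq, K']
  ring

theorem aeval_K' (n : ℕ) : Polynomial.aeval (ex (-2)) (K' n) =
    C (2 ^ n * (n.factorial : ℚ)) * ex (-(N n : ℚ)) * Pi n * (th⁻¹) ^ n := by
  have h1 := aeval_D n
  rw [D_eq', map_mul, map_pow, map_sub, Polynomial.aeval_X, map_one] at h1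
  have h2 : ex (-2) - 1 = -(X * th) := by rw [X_mul_th]; ring
  rw [h2] at h1
  have h3 : th * th⁻¹ = 1 := PowerSeries.mul_inv_cancel _ (by rw [constantCoeff_th]; norm_num)
  have h4 : (X : ℚ⟦X⟧) ^ n ≠ 0 := pow_ne_zero _ X_ne_zero
  have h5 : (C ((-2) ^ n * (n.factorial : ℚ)) : ℚ⟦X⟧) = (-1) ^ n * C (2 ^ n * (n.factorial : ℚ)) := by
    have : ((-1 : ℚ⟦X⟧)) ^ n = C ((-1) ^ n) := by rw [map_pow, map_neg, map_one]
    rw [this, ← map_mul]
    congr 1
    rw [← mul_assoc, ← mul_pow]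
    norm_num
  rw [h5] at h1
  have h6 : (X : ℚ⟦X⟧) ^ n * ((-1) ^ n * (th ^ n * Polynomial.aeval (ex (-2)) (K' n))) =
      X ^ n * ((-1) ^ n * (C (2 ^ n * (n.factorial : ℚ)) * ex (-(N n : ℚ)) * Pi n)) := by
    have : (-(X * th) : ℚ⟦X⟧) ^ n = (-1) ^ n * (X ^ n * th ^ n) := by
      rw [neg_pow, mul_pow]
    rw [this] at h1
    linear_combination h1
  have h7 := mul_left_cancel₀ h4 h6
  have h8 : ((-1 : ℚ⟦X⟧)) ^ n ≠ 0 := pow_ne_zero _ (by norm_num)
  have h9 := mul_left_cancel₀ h8 h7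
  calc Polynomial.aeval (ex (-2)) (K' n) = (th * th⁻¹) ^ n * Polynomial.aeval (ex (-2)) (K' n) := by
        rw [h3, one_pow, one_mul]
    _ = (th⁻¹) ^ n * (th ^ n * Polynomial.aeval (ex (-2)) (K' n)) := by
        rw [mul_pow]; ring
    _ = _ := by rw [h9]; ring

/-- the function `H n` as a function on `ℤ` -/
noncomputable def Hz (n : ℕ) : ℤ → ℚ := fun y => Hf n (y : ℚ)

theorem K'_Hz (n : ℕ) (hn : 2 ≤ n) : (Polynomial.aeval T (K' n)) (Hz n) (-1) = 0 := by
  obtain ⟨k, rfl⟩ : ∃ k, n = k + 2 := ⟨n - 2, by omega⟩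
  have h1 : Hz (k + 2) = (1 / ((k + 2).factorial * 2 ^ (k + 2 - 1)) : ℚ) •
      (fun y : ℤ => coeff (k + 2 - 1) (ex (N (k + 2)) * Ci (k + 2) * ex (2 * (y : ℚ)))) := by
    ext y
    simp only [Hz, Hf, Pi.smul_apply, smul_eq_mul]
  rw [h1, map_smul, Pi.smul_apply, aeval_T_coeff, aeval_K']
  have h2 : ex (N (k + 2)) * Ci (k + 2) * ex (2 * ((-1 : ℤ) : ℚ)) *
      (C (2 ^ (k + 2) * ((k + 2).factorial : ℚ)) * ex (-(N (k + 2) : ℚ)) * Pi (k + 2) *
        (th⁻¹) ^ (k + 2)) = C (2 ^ (k + 2) * ((k + 2).factorial : ℚ)) *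
          (ex (-2) * (th⁻¹) ^ (k + 2)) := by
    have e1 : ex (N (k + 2)) * ex (-(N (k + 2) : ℚ)) = 1 := by
      rw [ex_mul, add_neg_cancel, ex_zero]
    have e2 := Pi_mul_Ci (k + 2)
    have e3 : ex (2 * ((-1 : ℤ) : ℚ)) = ex (-2) := by
      congr 1
      norm_num
    rw [e3]
    linear_combination (Ci (k + 2) * ex (-2) * C (2 ^ (k + 2) * ((k + 2).factorial : ℚ)) *
      Pi (k + 2) * (th⁻¹) ^ (k + 2)) * e1 + (ex (-2) * C (2 ^ (k + 2) * ((k + 2).factorial : ℚ)) *
      (th⁻¹) ^ (k + 2)) * e2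
  rw [h2, coeff_C_mul, show k + 2 - 1 = k + 1 by omega, psi_coeff]
  simp

/-- the polynomial in `v = 2 y + N` -/
noncomputable def Gv (n : ℕ) : Polynomial ℚ :=
  ∑ k ∈ Finset.range n, Polynomial.C (coeff k (Ci n) / (n - 1 - k).factorial) *
    Polynomial.X ^ (n - 1 - k)

theorem Hf_eq (n : ℕ) (hn : 1 ≤ n) (y : ℚ) :
    Hf n y = 1 / (n.factorial * 2 ^ (n - 1)) * (Gv n).eval (2 * y + N n) := by
  rw [Hf]
  congr 1
  have h1 : ex (N n) * Ci n * ex (2 * y) = Ci n * ex (2 * y + N n) := by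
    rw [← ex_mul]
    ring
  rw [h1, coeff_mul, Finset.Nat.sum_antidiagonal_eq_sum_range_succ_mk, Nat.succ_eq_add_one,
    Nat.sub_add_cancel hn, Gv, Polynomial.eval_finsetSum]
  apply Finset.sum_congr rfl
  intro k _
  rw [coeff_ex]
  simp only [Polynomial.eval_mul, Polynomial.eval_C, Polynomial.eval_pow, Polynomial.eval_X]
  ring

theorem K'_eval_one (n : ℕ) : (K' n).eval 1 ≠ 0 := by
  have h : IsCoprime (Polynomial.X - 1 : Polynomial ℚ) (K' n) :=
    IsCoprime.mul_right isCoprime_sub_add.pow_right (isCoprime_K_X_sub_one n)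
  obtain ⟨a, b, hab⟩ := h
  intro h0
  have := congrArg (Polynomial.eval 1) hab
  simp [h0] at this

theorem natDegree_K' (n : ℕ) (hn : 2 ≤ n) : (K' n).natDegree < N n - 1 := by
  have h1 := natDegree_D n
  have h2 : (D n) ≠ 0 := fun h => D_coeff_zero n (by rw [h]; simp)
  rw [D_eq'] at h1 h2
  rw [Polynomial.natDegree_mul (left_ne_zero_of_mul h2) (right_ne_zero_of_mul h2),
    Polynomial.natDegree_pow] at h1
  have h3 : (Polynomial.X - 1 : Polynomial ℚ).natDegree = 1 := Polynomial.natDegree_X_sub_C (1 : ℚ)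
  rw [h3] at h1
  omega

/-- the exact formula -/
theorem G_eq (n : ℕ) (hn : 1 ≤ n) : ∀ (G B : Polynomial ℚ) (w : ℤ → ℚ), IsDecomp n G B w →
    ∀ y : ℤ, G.eval (y : ℚ) = Hf n y := by
  induction n, hn using Nat.le_induction with
  | base =>
    intro G B w h y
    have h1 := coeff_G 1 le_rfl G B w h
    have h2 : G = Polynomial.C (G.coeff 0) := by
      apply Polynomial.eq_C_of_degree_le_zero
      exact Order.le_of_lt_succ h.degG
    rw [h2, Polynomial.eval_C, Hf_one]
    simpa using h1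
  | succ n hn ih =>
    intro G' B' w' h' y
    obtain ⟨G, B, w, h⟩ := exists_isDecomp n hn
    have ih' := ih G B w h
    -- the difference is a periodic polynomial
    set P1 : Polynomial ℚ := G' - Polynomial.C (1 / ((n + 1).factorial * 2 ^ n) : ℚ) *
      (Gv (n + 1)).comp (Polynomial.C 2 * Polynomial.X + Polynomial.C (N (n + 1) : ℚ)) with hP1
    have hP : ∀ z : ℚ, P1.eval z = G'.eval z - Hf (n + 1) z := by
      intro z
      rw [hP1, Hf_eq (n + 1) (by omega)]
      simp [Polynomial.eval_comp]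
    have hper : ∀ z : ℤ, P1.eval (z : ℚ) = P1.eval ((z - (n + 1 : ℕ) : ℤ) : ℚ) := by
      intro z
      have e1 := G_rec hn h h' z
      have e2 := Hf_diff n hn (z : ℚ)
      rw [ih' z] at e1
      rw [hP, hP]
      have e3 : ((z : ℚ) - ((n + 1 : ℕ) : ℚ)) = ((z - (n + 1 : ℕ) : ℤ) : ℚ) := by push_cast; ring
      rw [e3] at e2
      linarith
    have hper' : ∀ j : ℕ, P1.eval ((-(((n + 1) * j : ℕ) : ℤ) : ℤ) : ℚ) = P1.eval 0 := by
      intro j
      induction j with
      | zero => simp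
      | succ j ihj =>
        rw [← ihj, hper (-(((n + 1) * j : ℕ) : ℤ))]
        congr 1
        push_cast
        ring
    have hconst : P1 = Polynomial.C (P1.eval 0) := by
      apply Polynomial.eq_of_infinite_eval_eq
      have hinf : Set.Infinite (Set.range (fun j : ℕ => ((-(((n + 1) * j : ℕ) : ℤ) : ℤ) : ℚ))) := by
        apply Set.infinite_range_of_injective
        intro a b hab
        have hab' : (-(((n + 1) * a : ℕ) : ℤ) : ℤ) = -(((n + 1) * b : ℕ) : ℤ) :=
          Int.cast_injective (α := ℚ) hab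
        have : (n + 1) * a = (n + 1) * b := by omega
        exact Nat.eq_of_mul_eq_mul_left (Nat.succ_pos n) this
      apply hinf.mono
      rintro _ ⟨j, rfl⟩
      show P1.eval _ = (Polynomial.C (P1.eval 0)).eval _
      rw [Polynomial.eval_C]
      exact hper' j
    set δ := P1.eval 0 with hδ
    have hall : ∀ z : ℤ, G'.eval (z : ℚ) = Hz (n + 1) z + δ := by
      intro z
      have e1 := hP z
      rw [hconst, Polynomial.eval_C] at e1
      simp only [Hz]
      linarith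
    -- the constant vanishes
    have k1 : (Polynomial.aeval T (K' (n + 1))) (fun z : ℤ => G'.eval (z : ℚ)) (-1) = 0 := by
      have e1 : (fun z : ℤ => G'.eval (z : ℚ)) = Q (n + 1) - (fun z : ℤ => (-1) ^ z * B'.eval (z : ℚ)) - w' := by
        ext z
        have := h'.eq z
        simp only [Pi.sub_apply]
        rw [this]
        ring
      rw [e1, map_sub, map_sub]
      have e2 : (Polynomial.aeval T (K' (n + 1))) (fun z : ℤ => (-1) ^ z * B'.eval (z : ℚ)) = 0 :=
        mem_ker_of_dvd (dvd_mul_right _ _) h'.kB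
      have e3 : (Polynomial.aeval T (K' (n + 1))) w' = 0 := mem_ker_of_dvd (dvd_mul_left _ _) h'.kw
      rw [e2, e3, sub_zero, sub_zero, aeval_apply_eq_sum _ _ _ (natDegree_K' (n + 1) (by omega))]
      apply Finset.sum_eq_zero
      intro j hj
      rw [Finset.mem_range] at hj
      rw [Q_gap (by omega) (by omega), mul_zero]
    have k2 : (fun z : ℤ => G'.eval (z : ℚ)) = Hz (n + 1) + (fun _ : ℤ => δ) := by
      ext z
      simp only [Pi.add_apply]
      exact hall z
    have k3 : (Polynomial.aeval T (K' (n + 1))) (fun _ : ℤ => δ) (-1) = (K' (n + 1)).eval 1 * δ := by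
      rw [aeval_apply_eq_sum _ _ _ (Nat.lt_succ_self _), ← Finset.sum_mul,
        Polynomial.eval_eq_sum_range' (Nat.lt_succ_self _)]
      simp
    rw [k2, map_add, Pi.add_apply, K'_Hz (n + 1) (by omega), k3, zero_add] at k1
    have hδ0 : δ = 0 := by
      rcases mul_eq_zero.1 k1 with h0 | h0
      · exact absurd h0 (K'_eval_one _)
      · exact h0
    rw [hall y, hδ0, add_zero]
    rfl

end Pool.Agent.Helper23.EP
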