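import Mathlib
import Pool.Agent.Helper23.EP.Ser

/-!
# 2-adic size of coefficients
-/

set_option autoImplicit false

namespace Pool.Agent.Helper23.EP

open PowerSeries

/-- all coefficients satisfy `|f_k| ≤ 2^(-c k)` -/
def Cc (c : ℕ) (f : ℚ⟦X⟧) : Prop := ∀ k, padicNorm 2 (coeff k f) ≤ (1 / 2) ^ (c * k)

theorem Cc.mul {c : ℕ} {f g : ℚ⟦X⟧} (hf : Cc c f) (hg : Cc c g) : Cc c (f * g) := by
  intro k
  rw [coeff_mul]
  apply padicNorm.sum_le' _ (by positivity)
  rintro ⟨i, j⟩ hij
  rw [Finset.HasAntidiagonal.mem_antidiagonal] at hij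
  rw [padicNorm.mul, ← hij, mul_add, pow_add]
  exact mul_le_mul (hf i) (hg j) (padicNorm.nonneg _) (by positivity)

theorem Cc.one {c : ℕ} : Cc c 1 := by
  intro k
  rw [coeff_one]
  split_ifs with h
  · rw [h]; simp
  · simp

theorem Cc.pow {c : ℕ} {f : ℚ⟦X⟧} (hf : Cc c f) (k : ℕ) : Cc c (f ^ k) := by
  induction k with
  | zero => rw [pow_zero]; exact Cc.one
  | succ k ih => rw [pow_succ]; exact ih.mul hf

theorem Cc_inv {f g : ℚ⟦X⟧} (hf : Cc 0 f) (h0 : constantCoeff f = 1) (h : f * g = 1) : Cc 0 g := by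
  intro k
  rw [zero_mul, pow_zero]
  induction k using Nat.strong_induction_on with
  | _ k ih =>
    rcases Nat.eq_zero_or_pos k with rfl | hk
    · have h1 := congrArg constantCoeff h
      rw [map_mul, h0, one_mul, map_one] at h1
      rw [coeff_zero_eq_constantCoeff_apply, h1]
      simp
    · have h1 := congrArg (coeff k) h
      rw [coeff_mul, coeff_one, if_neg hk.ne'] at h1
      have h2 : (0, k) ∈ Finset.HasAntidiagonal.antidiagonal k := by simp
      rw [← Finset.add_sum_erase _ _ h2, coeff_zero_eq_constantCoeff_apply, h0, one_mul] at h1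
      have h3 : coeff k g = -∑ x ∈ (Finset.HasAntidiagonal.antidiagonal k).erase (0, k),
          coeff x.1 f * coeff x.2 g := by
        linarith
      rw [h3, padicNorm.neg]
      apply padicNorm.sum_le' _ (by norm_num)
      rintro ⟨i, j⟩ hij
      rw [Finset.mem_erase, Finset.HasAntidiagonal.mem_antidiagonal] at hij
      obtain ⟨hne, hij⟩ := hij
      simp only at hij ⊢
      have hj : j < k := by
        rcases Nat.eq_zero_or_pos i with rfl | hi
        · exfalso
          apply hne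
          rw [zero_add] at hij
          rw [hij]
        · omega
      rw [padicNorm.mul]
      have e1 := hf i
      rw [zero_mul, pow_zero] at e1
      exact mul_le_one₀ e1 (padicNorm.nonneg _) (ih j hj)

theorem nu_two : padicNorm 2 (2 : ℚ) = 1 / 2 := by
  have := padicNorm.padicNorm_p_of_prime (p := 2)
  rw [Nat.cast_ofNat] at this
  rw [this]
  norm_num

theorem nu_pow (x : ℚ) (k : ℕ) : padicNorm 2 (x ^ k) = (padicNorm 2 x) ^ k := by
  induction k with
  | zero => simp
  | succ k ih => rw [pow_succ, padicNorm.mul, ih, pow_succ]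

theorem nu_odd (m : ℕ) (hm : m % 2 = 1) : padicNorm 2 (m : ℚ) = 1 := by
  rw [padicNorm.nat_eq_one_iff]
  omega

/-- lower bound for `|m!|` -/
theorem nu_factorial (m : ℕ) : (1 / 2) ^ m ≤ padicNorm 2 ((m + 1).factorial : ℚ) := by
  have h0 : ((m + 1).factorial : ℚ) ≠ 0 := by positivity
  rw [padicNorm.eq_zpow_of_nonzero h0, padicValRat.of_nat]
  have h1 : padicValNat 2 (m + 1).factorial < m + 1 :=
    padicValNat_factorial_lt_of_ne_zero 2 (Nat.succ_ne_zero m)
  have h2 : padicValNat 2 (m + 1).factorial ≤ m := by omega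
  rw [zpow_neg, zpow_natCast, one_div, inv_pow, Nat.cast_ofNat]
  apply inv_anti₀ (by positivity)
  exact pow_le_pow_right₀ (by norm_num) h2

theorem Cc_Sh_even (a : ℕ) : Cc 0 (Sh ((2 * a : ℕ) : ℚ)) := by
  intro k
  rw [zero_mul, pow_zero, Sh, coeff_mk]
  split_ifs with h
  · rw [padicNorm.div, nu_pow]
    have h1 := nu_factorial k
    have h2 : (0 : ℚ) < (1 / 2) ^ k := by positivity
    rw [div_le_one (lt_of_lt_of_le h2 h1)]
    apply le_trans _ h1
    apply pow_le_pow_left₀ (padicNorm.nonneg _)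
    push_cast
    rw [padicNorm.mul, nu_two]
    have := padicNorm.of_nat (p := 2) a
    linarith
  · simp

/-- product for two odd numbers -/
theorem Cc_Sh_pair (c d : ℕ) (hcd : (c + d) % 2 = 1) (hd : d < c) :
    Cc 0 (Sh ((c + d : ℕ) : ℚ) * Sh ((c - d : ℕ) : ℚ)) := by
  set a : ℚ := ((c + d : ℕ) : ℚ) with ha
  set b : ℚ := ((c - d : ℕ) : ℚ) with hb
  have ha' : a = c + d := by rw [ha]; push_cast; ring
  have hb' : b = c - d := by rw [hb]; push_cast [hd.le]; ring
  have hνa : padicNorm 2 a = 1 := nu_odd _ hcd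
  have hνb : padicNorm 2 b = 1 := nu_odd _ (by omega)
  have key : C (4 * a * b) * (X * (X * (Sh a * Sh b))) =
      ex (2 * c) + ex (-(2 * c)) - ex (2 * d) - ex (-(2 * d)) := by
    have h1 := Sh_spec a
    have h2 := Sh_spec b
    have h3 : C (4 * a * b) * (X * (X * (Sh a * Sh b))) =
        (C (2 * a) * X * Sh a) * (C (2 * b) * X * Sh b) := by
      have : (C (4 * a * b) : ℚ⟦X⟧) = C (2 * a) * C (2 * b) := by
        rw [← map_mul]
        congr 1
        ring
      rw [this]
      ring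
    rw [h3, h1, h2]
    have e1 : ex a * ex b = ex (2 * c) := by
      rw [ex_mul]; congr 1; rw [ha', hb']; ring
    have e2 : ex (-a) * ex (-b) = ex (-(2 * c)) := by
      rw [ex_mul]; congr 1; rw [ha', hb']; ring
    have e3 : ex a * ex (-b) = ex (2 * d) := by
      rw [ex_mul]; congr 1; rw [ha', hb']; ring
    have e4 : ex (-a) * ex b = ex (-(2 * d)) := by
      rw [ex_mul]; congr 1; rw [ha', hb']; ring
    rw [← e1, ← e2, ← e3, ← e4]
    ring
  intro k
  rw [zero_mul, pow_zero]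
  have h1 := congrArg (coeff (k + 2)) key
  rw [coeff_C_mul, coeff_succ_X_mul, coeff_succ_X_mul, map_sub, map_sub, map_add, coeff_ex,
    coeff_ex, coeff_ex, coeff_ex] at h1
  set y := coeff k (Sh a * Sh b) with hy
  set S : ℤ := (1 + (-1) ^ (k + 2)) * ((c : ℤ) ^ (k + 2) - (d : ℤ) ^ (k + 2)) with hS
  have h2 : 4 * a * b * y * ((k + 1 + 1).factorial : ℚ) = 2 ^ (k + 2) * (S : ℚ) := by
    rw [h1, hS]
    have hf : ((k + 2).factorial : ℚ) ≠ 0 := by positivity
    push_cast
    rw [neg_pow, neg_pow (2 * (d : ℚ))]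
    field_simp
    ring
  have hSν : padicNorm 2 (S : ℚ) ≤ 1 / 2 := by
    have h3 : ((2 ^ 1 : ℕ) : ℤ) ∣ S := by
      rw [hS]
      apply Dvd.dvd.mul_right
      rcases Nat.even_or_odd (k + 2) with h | h
      · rw [h.neg_one_pow]; norm_num
      · rw [h.neg_one_pow]; norm_num
    have := (padicNorm.dvd_iff_norm_le (p := 2) (n := 1) (z := S)).1 (by exact_mod_cast h3)
    refine this.trans (le_of_eq ?_)
    norm_num
  have h4 := congrArg (fun x => padicNorm 2 x) h2
  simp only [padicNorm.mul, nu_pow, nu_two] at h4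
  have h5 : padicNorm 2 (4 : ℚ) = 1 / 4 := by
    have : (4 : ℚ) = 2 * 2 := by norm_num
    rw [this, padicNorm.mul, nu_two]
    norm_num
  rw [h5, hνa, hνb] at h4
  have h6 := nu_factorial (k + 1)
  have h7 : (0 : ℚ) < (1 / 2) ^ (k + 1) := by positivity
  have h8 : 0 ≤ padicNorm 2 y := padicNorm.nonneg _
  -- `1/4 * padicNorm 2 y * padicNorm 2 ((k+2)!) = (1/2)^(k+2) * padicNorm 2 S ≤ (1/2)^(k+3)`
  have h9 : 1 / 4 * padicNorm 2 y * (1 / 2) ^ (k + 1) ≤ (1 / 2) ^ (k + 2) * (1 / 2) := by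
    calc 1 / 4 * padicNorm 2 y * (1 / 2) ^ (k + 1) ≤ 1 / 4 * padicNorm 2 y * padicNorm 2 ((k + 1 + 1).factorial : ℚ) :=
          mul_le_mul_of_nonneg_left h6 (by positivity)
      _ = (1 / 2) ^ (k + 2) * padicNorm 2 (S : ℚ) := by
          rw [← h4]; ring
      _ ≤ _ := mul_le_mul_of_nonneg_left hSν (by positivity)
  have h10 : (1 / 2 : ℚ) ^ (k + 2) * (1 / 2) = 1 / 4 * (1 / 2) ^ (k + 1) := by ring
  rw [h10] at h9
  have h11 : padicNorm 2 y * (1 / 4 * (1 / 2) ^ (k + 1)) ≤ 1 * (1 / 4 * (1 / 2) ^ (k + 1)) := by linarith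
  exact le_of_mul_le_mul_right h11 (by positivity)

theorem Cc_Pi (k : ℕ) : Cc 0 (Pi (4 * k + 3)) := by
  induction k with
  | zero =>
    have h : Pi (4 * 0 + 3) = (Sh ((2 + 1 : ℕ) : ℚ) * Sh ((2 - 1 : ℕ) : ℚ)) *
        Sh ((2 * 1 : ℕ) : ℚ) := by
      simp only [Pi, Finset.prod_range_succ, Finset.prod_range_zero]
      norm_num
      ring
    rw [h]
    exact (Cc_Sh_pair 2 1 (by norm_num) (by norm_num)).mul (Cc_Sh_even 1)
  | succ k ih =>
    have h : Pi (4 * (k + 1) + 3) = (Pi (4 * k + 3) * (Sh ((2 * (2 * k + 2) : ℕ) : ℚ) *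
        Sh ((2 * (2 * k + 3) : ℕ) : ℚ))) *
        (Sh (((4 * k + 6) + 1 : ℕ) : ℚ) * Sh (((4 * k + 6) - 1 : ℕ) : ℚ)) := by
      have e : 4 * (k + 1) + 3 = 4 * k + 3 + 1 + 1 + 1 + 1 := by ring
      rw [e, Pi_succ, Pi_succ, Pi_succ, Pi_succ]
      have e1 : 4 * k + 3 + 1 = 2 * (2 * k + 2) := by ring
      have e2 : 4 * k + 3 + 1 + 1 = (4 * k + 6) - 1 := by omega
      have e3 : 4 * k + 3 + 1 + 1 + 1 = 2 * (2 * k + 3) := by ring
      have e4 : 4 * k + 3 + 1 + 1 + 1 + 1 = (4 * k + 6) + 1 := by ring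
      rw [← e1, ← e2, ← e3, ← e4]
      ring
    rw [h]
    exact (ih.mul ((Cc_Sh_even _).mul (Cc_Sh_even _))).mul
      (Cc_Sh_pair (4 * k + 6) 1 (by omega) (by omega))

theorem Cc_Ci (k : ℕ) : Cc 0 (Ci (4 * k + 3)) :=
  Cc_inv (Cc_Pi k) (constantCoeff_Pi _) (Pi_mul_Ci _)

/-! ### Catalan numbers -/

theorem catalan_rec (m : ℕ) : (m + 2) * catalan (m + 1) = 2 * (2 * m + 1) * catalan m := by
  have h1 := succ_mul_catalan_eq_centralBinom m
  have h2 := succ_mul_catalan_eq_centralBinom (m + 1)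
  have h3 := Nat.succ_mul_centralBinom_succ m
  have h4 : (m + 1) * ((m + 2) * catalan (m + 1)) = (m + 1) * (2 * (2 * m + 1) * catalan m) := by
    have : (m + 1 + 1) * catalan (m + 1) = (m + 2) * catalan (m + 1) := by ring
    rw [← this, h2, h3, ← h1]
    ring
  exact Nat.eq_of_mul_eq_mul_left (Nat.succ_pos m) h4

theorem catalan_pos (m : ℕ) : 0 < catalan m := by
  have h1 := succ_mul_catalan_eq_centralBinom m
  have h2 := Nat.centralBinom_pos m
  rw [← h1] at h2
  exact Nat.pos_of_mul_pos_left h2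

theorem nu_catalan_pos (m : ℕ) : 0 < padicNorm 2 (catalan m : ℚ) := by
  apply lt_of_le_of_ne (padicNorm.nonneg _)
  apply Ne.symm
  apply padicNorm.nonzero
  have := catalan_pos m
  positivity

theorem nu_catalan_rec (m : ℕ) :
    padicNorm 2 ((m + 2 : ℕ) : ℚ) * padicNorm 2 (catalan (m + 1) : ℚ) = 1 / 2 * padicNorm 2 (catalan m : ℚ) := by
  have h := catalan_rec m
  have h1 : ((m + 2 : ℕ) : ℚ) * (catalan (m + 1) : ℚ) = 2 * ((2 * m + 1 : ℕ) : ℚ) * (catalan m : ℚ) := by
    exact_mod_cast h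
  have h2 := congrArg (fun x => padicNorm 2 x) h1
  simp only [padicNorm.mul, nu_two] at h2
  rw [nu_odd (2 * m + 1) (by omega), mul_one] at h2
  exact h2

theorem nu_catalan_step (m : ℕ) : 1 / 2 * padicNorm 2 (catalan m : ℚ) ≤ padicNorm 2 (catalan (m + 1) : ℚ) := by
  rw [← nu_catalan_rec m]
  have h1 := padicNorm.of_nat (p := 2) (m + 2)
  have h2 := nu_catalan_pos (m + 1)
  nlinarith

theorem nu_catalan_step_even (m : ℕ) (hm : Even m) :
    padicNorm 2 (catalan m : ℚ) ≤ padicNorm 2 (catalan (m + 1) : ℚ) := by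
  have h0 := nu_catalan_rec m
  have h1 : padicNorm 2 ((m + 2 : ℕ) : ℚ) ≤ 1 / 2 := by
    obtain ⟨j, hj⟩ := hm
    have : ((m + 2 : ℕ) : ℚ) = 2 * ((j + 1 : ℕ) : ℚ) := by
      rw [hj]; push_cast; ring
    rw [this, padicNorm.mul, nu_two]
    have := padicNorm.of_nat (p := 2) (j + 1)
    linarith
  have h2 := nu_catalan_pos (m + 1)
  nlinarith

theorem nu_catalan_le (m t : ℕ) : (1 / 2) ^ t * padicNorm 2 (catalan m : ℚ) ≤ padicNorm 2 (catalan (m + t) : ℚ) := by
  induction t with
  | zero => simp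
  | succ t ih =>
    have := nu_catalan_step (m + t)
    rw [pow_succ, ← add_assoc]
    linarith

theorem catalan_lt (m : ℕ) (hm : 1 ≤ m) : 2 * catalan m < 4 ^ m := by
  rcases Nat.eq_or_lt_of_le hm with rfl | hm2
  · simp [catalan_one]
  · have h1 := succ_mul_catalan_eq_centralBinom m
    have h2 : Nat.centralBinom m ≤ 4 ^ m := by
      have := Nat.choose_le_two_pow (2 * m) m
      rw [pow_mul] at this
      exact this
    have h3 := catalan_pos m
    nlinarith

theorem nu_natCast_ge (m : ℕ) (hm : 0 < m) : 1 / (m : ℚ) ≤ padicNorm 2 (m : ℚ) := by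
  have h0 : (m : ℚ) ≠ 0 := by positivity
  rw [padicNorm.eq_zpow_of_nonzero h0, padicValRat.of_nat, zpow_neg, zpow_natCast, one_div]
  apply inv_anti₀ (by positivity)
  have h1 : 2 ^ padicValNat 2 m ∣ m := pow_padicValNat_dvd
  exact_mod_cast Nat.le_of_dvd hm h1

theorem nu_catalan_gt (m : ℕ) (hm : 1 ≤ m) : (1 / 4) ^ m < 1 / 2 * padicNorm 2 (catalan m : ℚ) := by
  have h1 := nu_natCast_ge (catalan m) (catalan_pos m)
  have h2 := catalan_lt m hm
  have h3 : (0 : ℚ) < catalan m := by exact_mod_cast catalan_pos m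
  have h4 : (1 / 4 : ℚ) ^ m < 1 / 2 * (1 / (catalan m : ℚ)) := by
    rw [one_div, inv_pow, ← one_div, div_mul_div_comm, one_mul]
    apply one_div_lt_one_div_of_lt (by positivity)
    exact_mod_cast h2
  linarith

/-- the square root series -/
theorem exists_W (c K : ℕ) (hK : 1 ≤ K) (x : ℚ⟦X⟧) (hx : Cc c x) (hx0 : padicNorm 2 (constantCoeff x) = 1)
    (hc : c = 2 ∨ (c = 1 ∧ Even K)) :
    ∃ W : ℚ⟦X⟧, constantCoeff W = 0 ∧ W + W ^ 2 = X * x ∧
      padicNorm 2 (coeff K W) = padicNorm 2 (catalan (K - 1) : ℚ) := by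
  set b : ℚ⟦X⟧ := -(X * x) with hb
  have hs : HasSubst b := HasSubst.of_constantCoeff_zero' (by rw [hb]; simp)
  set cat : ℚ⟦X⟧ := PowerSeries.map (Nat.castRingHom ℚ) catalanSeries with hcat
  have hcat1 : cat ^ 2 * X + 1 = cat := by
    have := congrArg (PowerSeries.map (Nat.castRingHom ℚ)) catalanSeries_sq_mul_X_add_one
    simpa [hcat] using this
  have hcoef : ∀ d, coeff d cat = (catalan d : ℚ) := by
    intro d
    rw [hcat, coeff_map, catalanSeries_coeff]
    rfl
  set S : ℚ⟦X⟧ := subst b cat with hS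
  have hS1 : S ^ 2 * b + 1 = S := by
    have h1 : subst b (cat ^ 2 * X + 1) = subst b cat := by rw [hcat1]
    rw [subst_add hs, subst_mul hs, subst_pow hs, subst_X hs] at h1
    have h2 : subst b (1 : ℚ⟦X⟧) = (1 : ℚ⟦X⟧) := by
      rw [← coe_substAlgHom hs, map_one]
    rw [h2] at h1
    exact h1
  set W : ℚ⟦X⟧ := -(b * S) with hW
  have hW2 : W = -subst b (X * cat) := by
    rw [subst_mul hs, subst_X hs]
  refine ⟨W, ?_, ?_, ?_⟩
  · rw [hW, hb]; simp
  · have : X * x = -b := by rw [hb]; ring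
    rw [this, hW]
    linear_combination b * hS1
  · -- the coefficient
    have hcf : coeff K W = -∑ d ∈ Finset.range (K + 1), coeff d (X * cat) * coeff K (b ^ d) := by
      rw [hW2, map_neg, coeff_subst' hs]
      congr 1
      apply finsum_eq_sum_of_support_subset
      intro d hd
      rw [Function.mem_support] at hd
      rw [Finset.coe_range, Set.mem_Iio]
      by_contra hlt
      apply hd
      have : coeff K (b ^ d) = 0 := by
        rw [hb, neg_pow, mul_pow]
        have : ((-1 : ℚ⟦X⟧)) ^ d * (X ^ d * x ^ d) = X ^ d * ((-1) ^ d * x ^ d) := by ring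
        rw [this, coeff_X_pow_mul', if_neg (by omega)]
      rw [this, smul_zero]
    have hbk : ∀ d ≤ K, coeff K (b ^ d) = (-1) ^ d * coeff (K - d) (x ^ d) := by
      intro d hd
      have h1 : b ^ d = X ^ d * (C ((-1) ^ d) * x ^ d) := by
        rw [hb, neg_pow, mul_pow, map_pow, map_neg, map_one]
        ring
      rw [h1, coeff_X_pow_mul', if_pos hd, coeff_C_mul]
    have hone : ∀ d : ℕ, padicNorm 2 ((-1 : ℚ) ^ d) = 1 := by
      intro d
      rw [nu_pow, padicNorm.neg]
      simp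
    obtain ⟨L, rfl⟩ : ∃ L, K = L + 1 := ⟨K - 1, by omega⟩
    rw [Nat.add_sub_cancel]
    rw [hcf, padicNorm.neg, Finset.sum_range_succ]
    have hmain : padicNorm 2 (coeff (L + 1) (X * cat) * coeff (L + 1) (b ^ (L + 1))) = padicNorm 2 (catalan L : ℚ) := by
      rw [coeff_succ_X_mul, hcoef, hbk (L + 1) le_rfl, Nat.sub_self, padicNorm.mul, padicNorm.mul,
        hone, coeff_zero_eq_constantCoeff_apply, map_pow, nu_pow, hx0]
      simp
    have hrest : padicNorm 2 (∑ d ∈ Finset.range (L + 1), coeff d (X * cat) * coeff (L + 1) (b ^ d)) <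
        padicNorm 2 (catalan L : ℚ) := by
      apply padicNorm.sum_lt' _ (nu_catalan_pos L)
      intro d hd
      rw [Finset.mem_range] at hd
      rcases Nat.eq_zero_or_pos d with rfl | hd0
      · rw [coeff_zero_X_mul, zero_mul, padicNorm.zero]
        exact nu_catalan_pos L
      · obtain ⟨e, rfl⟩ : ∃ e, d = e + 1 := ⟨d - 1, by omega⟩
        obtain ⟨t, rfl⟩ : ∃ t, L = e + 1 + t := ⟨L - (e + 1), by omega⟩
        rw [coeff_succ_X_mul, hcoef, hbk _ (by omega), padicNorm.mul, padicNorm.mul, hone, one_mul]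
        have h1 := (hx.pow (e + 1)) (e + 1 + t + 1 - (e + 1))
        rw [show e + 1 + t + 1 - (e + 1) = t + 1 by omega] at h1 ⊢
        have hp := nu_catalan_pos e
        have h2 : padicNorm 2 (catalan e : ℚ) * padicNorm 2 (coeff (t + 1) (x ^ (e + 1))) ≤
            padicNorm 2 (catalan e : ℚ) * (1 / 2) ^ (c * (t + 1)) := mul_le_mul_of_nonneg_left h1 hp.le
        apply lt_of_le_of_lt h2
        rcases hc with rfl | ⟨rfl, hev⟩
        · have h3 := nu_catalan_le e (t + 1)
          rw [show e + (t + 1) = e + 1 + t by ring] at h3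
          apply lt_of_lt_of_le _ h3
          rw [mul_comm]
          apply mul_lt_mul_of_pos_right _ hp
          apply pow_lt_pow_right_of_lt_one₀ (by norm_num) (by norm_num)
          omega
        · have h3 := nu_catalan_le e t
          have h4 := nu_catalan_step_even (e + t) (by
            obtain ⟨j, hj⟩ := hev
            exact ⟨j - 1, by omega⟩)
          rw [show e + t + 1 = e + 1 + t by ring] at h4
          apply lt_of_lt_of_le _ (h3.trans h4)
          rw [mul_comm, one_mul]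
          apply mul_lt_mul_of_pos_right _ hp
          apply pow_lt_pow_right_of_lt_one₀ (by norm_num) (by norm_num)
          omega
    have hne : padicNorm 2 (∑ d ∈ Finset.range (L + 1), coeff d (X * cat) * coeff (L + 1) (b ^ d)) ≠
        padicNorm 2 (coeff (L + 1) (X * cat) * coeff (L + 1) (b ^ (L + 1))) := by
      rw [hmain]
      exact hrest.ne
    rw [padicNorm.add_eq_max_of_ne hne, hmain, max_eq_right hrest.le]

end Pool.Agent.Helper23.EP
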