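import Mathlib
import Pool.Agent.Helper23.EP.TwoAdic
import Pool.Agent.Helper23.EP.Exact

/-!
# The square root series of the polynomial part, and its truncation
-/

set_option autoImplicit false

namespace Pool.Agent.Helper23.EP

open PowerSeries

/-- normalised coefficients of the polynomial part -/
noncomputable def aj (n j : ℕ) : ℚ := ((n - 1).descFactorial (2 * j) : ℚ) * coeff (2 * j) (Ci n)

/-- their generating series -/
noncomputable def Ga (n : ℕ) : ℚ⟦X⟧ := PowerSeries.mk (aj n)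

theorem aj_zero (n : ℕ) : aj n 0 = 1 := by
  have := coeff_zero_Ci n
  simp only [aj, mul_zero, Nat.descFactorial_zero, Nat.cast_one, one_mul]
  exact this

theorem two_pow_dvd (j : ℕ) : 2 ^ j ∣ (2 * j).factorial := by
  induction j with
  | zero => simp
  | succ j ih =>
    rw [show 2 * (j + 1) = 2 * j + 1 + 1 by ring, Nat.factorial_succ, Nat.factorial_succ, pow_succ,
      mul_comm]
    apply mul_dvd_mul
    · exact ⟨j + 1, by ring⟩
    · exact ih.mul_left _

theorem two_pow_dvd' (j : ℕ) (hj : 2 ≤ j) : 2 ^ (j + 1) ∣ (2 * j).factorial := by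
  induction j, hj using Nat.le_induction with
  | base => decide
  | succ j _ ih =>
    rw [show 2 * (j + 1) = 2 * j + 1 + 1 by ring, Nat.factorial_succ, Nat.factorial_succ, pow_succ,
      mul_comm]
    apply mul_dvd_mul
    · exact ⟨j + 1, by ring⟩
    · exact ih.mul_left _

theorem nu_dvd (e m : ℕ) (h : 2 ^ e ∣ m) : padicNorm 2 (m : ℚ) ≤ (1 / 2) ^ e := by
  obtain ⟨k, rfl⟩ := h
  push_cast
  rw [padicNorm.mul, nu_pow, nu_two]
  have := padicNorm.of_nat (p := 2) k
  have h2 : (0 : ℚ) ≤ (1 / 2) ^ e := by positivity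
  nlinarith

theorem nu_aj (k j : ℕ) : padicNorm 2 (aj (4 * k + 3) j) ≤ (1 / 2) ^ j := by
  rw [aj, padicNorm.mul]
  have h1 : padicNorm 2 (((4 * k + 3 - 1).descFactorial (2 * j) : ℕ) : ℚ) ≤ (1 / 2) ^ j :=
    nu_dvd _ _ ((two_pow_dvd j).trans (Nat.factorial_dvd_descFactorial _ _))
  have h2 := Cc_Ci k (2 * j)
  rw [zero_mul, pow_zero] at h2
  calc padicNorm 2 (((4 * k + 3 - 1).descFactorial (2 * j) : ℕ) : ℚ) * padicNorm 2 (coeff (2 * j) (Ci (4 * k + 3)))
      ≤ (1 / 2) ^ j * 1 := mul_le_mul h1 h2 (padicNorm.nonneg _) (by positivity)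
    _ = _ := by ring

theorem nu_aj' (k j : ℕ) (hj : 2 ≤ j) : padicNorm 2 (aj (4 * k + 3) j) ≤ (1 / 2) ^ (j + 1) := by
  rw [aj, padicNorm.mul]
  have h1 : padicNorm 2 (((4 * k + 3 - 1).descFactorial (2 * j) : ℕ) : ℚ) ≤ (1 / 2) ^ (j + 1) :=
    nu_dvd _ _ ((two_pow_dvd' j hj).trans (Nat.factorial_dvd_descFactorial _ _))
  have h2 := Cc_Ci k (2 * j)
  rw [zero_mul, pow_zero] at h2
  calc padicNorm 2 (((4 * k + 3 - 1).descFactorial (2 * j) : ℕ) : ℚ) * padicNorm 2 (coeff (2 * j) (Ci (4 * k + 3)))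
      ≤ (1 / 2) ^ (j + 1) * 1 := mul_le_mul h1 h2 (padicNorm.nonneg _) (by positivity)
    _ = _ := by ring

theorem aj_one (k : ℕ) : aj (4 * k + 3) 1 =
    -(2 / 9) * ((k + 1 : ℕ) : ℚ) * ((2 * k + 1 : ℕ) : ℚ) * ((4 * k + 1 : ℕ) : ℚ) *
      ((4 * k + 3 : ℕ) : ℚ) * ((8 * k + 7 : ℕ) : ℚ) := by
  rw [aj, mul_one, (coeff_one_two_Ci _).2]
  have h : (4 * k + 3 - 1).descFactorial 2 = (4 * k + 2) * (4 * k + 1) := by
    rw [show 4 * k + 3 - 1 = 4 * k + 2 by omega]
    simp [Nat.descFactorial_succ]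
    ring
  rw [h]
  push_cast
  ring

theorem nu_aj_one (k : ℕ) : padicNorm 2 (aj (4 * k + 3) 1) = 1 / 2 * padicNorm 2 ((k + 1 : ℕ) : ℚ) := by
  rw [aj_one]
  have h9 : padicNorm 2 (2 / 9 : ℚ) = 1 / 2 := by
    rw [padicNorm.div, nu_two]
    have : padicNorm 2 (9 : ℚ) = 1 := by
      have := nu_odd 9 (by norm_num)
      exact_mod_cast this
    rw [this]
    norm_num
  simp only [padicNorm.mul, padicNorm.neg, h9]
  rw [nu_odd (2 * k + 1) (by omega), nu_odd (4 * k + 1) (by omega), nu_odd (4 * k + 3) (by omega),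
    nu_odd (8 * k + 7) (by omega)]
  ring

/-- the square root series -/
theorem exists_root (K : ℕ) (hK : 2 ≤ K) (hpar : K % 2 = 1 ∨ K % 4 = 2) :
    ∃ H : ℚ⟦X⟧, constantCoeff H = 1 ∧ H ^ 2 = Ga (4 * K - 1) ∧
      (1 / 4) ^ (K - 1) < padicNorm 2 (coeff K H) := by
  obtain ⟨k, rfl⟩ : ∃ k, K = k + 1 := ⟨K - 1, by omega⟩
  have hn : 4 * (k + 1) - 1 = 4 * k + 3 := by omega
  rw [hn]
  -- the scaling factor
  obtain ⟨ϖ, c, hϖ, hc, hbd, h1⟩ : ∃ (ϖ : ℚ) (c : ℕ), (ϖ = 1 ∨ ϖ = 2) ∧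
      (c = 2 ∨ (c = 1 ∧ Even (k + 1))) ∧
      (∀ j, padicNorm 2 (ϖ ^ (j + 1) * aj (4 * k + 3) (j + 1) / 4) ≤ (1 / 2) ^ (c * j)) ∧
      padicNorm 2 (ϖ ^ 1 * aj (4 * k + 3) 1 / 4) = 1 := by
    have h4 : padicNorm 2 (4 : ℚ) = 1 / 4 := by
      have : (4 : ℚ) = 2 * 2 := by norm_num
      rw [this, padicNorm.mul, nu_two]
      norm_num
    rcases hpar with h | h
    · refine ⟨2, 2, Or.inr rfl, Or.inl rfl, fun j => ?_, ?_⟩
      · rw [padicNorm.div, padicNorm.mul, nu_pow, nu_two, h4]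
        have := nu_aj k (j + 1)
        have h2 : (1 / 2 : ℚ) ^ (j + 1) * padicNorm 2 (aj (4 * k + 3) (j + 1)) ≤
            (1 / 2) ^ (j + 1) * (1 / 2) ^ (j + 1) := mul_le_mul_of_nonneg_left this (by positivity)
        rw [div_le_iff₀ (by norm_num)]
        apply h2.trans (le_of_eq _)
        rw [pow_mul]
        norm_num
        ring_nf
        rw [mul_comm j 2, pow_mul]
        norm_num
      · rw [padicNorm.div, padicNorm.mul, nu_pow, nu_two, h4, nu_aj_one, nu_odd (k + 1) h]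
        norm_num
    · have hev : Even (k + 1) := ⟨(k + 1) / 2, by omega⟩
      have hν : padicNorm 2 ((k + 1 : ℕ) : ℚ) = 1 / 2 := by
        obtain ⟨t, ht⟩ : ∃ t, k + 1 = 2 * (2 * t + 1) := ⟨(k + 1) / 4, by omega⟩
        rw [ht, Nat.cast_mul, padicNorm.mul, Nat.cast_ofNat, nu_two, nu_odd _ (by omega)]
        norm_num
      refine ⟨1, 1, Or.inl rfl, Or.inr ⟨rfl, hev⟩, fun j => ?_, ?_⟩
      · rw [one_pow, one_mul, one_mul, padicNorm.div, h4]
        rcases Nat.eq_zero_or_pos j with rfl | hj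
        · rw [zero_add, nu_aj_one, hν]
          norm_num
        · have := nu_aj' k (j + 1) (by omega)
          rw [div_le_iff₀ (by norm_num)]
          apply this.trans (le_of_eq _)
          rw [pow_succ, pow_succ]
          ring
      · rw [one_pow, one_mul, padicNorm.div, h4, nu_aj_one, hν]
        norm_num
  have hϖ0 : ϖ ≠ 0 := by rcases hϖ with rfl | rfl <;> norm_num
  set x : ℚ⟦X⟧ := PowerSeries.mk fun j => ϖ ^ (j + 1) * aj (4 * k + 3) (j + 1) / 4 with hx
  have hxC : Cc c x := by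
    intro j
    rw [hx, coeff_mk]
    exact hbd j
  have hx0 : padicNorm 2 (constantCoeff x) = 1 := by
    rw [← coeff_zero_eq_constantCoeff_apply, hx, coeff_mk]
    exact h1
  have hscale : rescale ϖ (Ga (4 * k + 3)) = 1 + C 4 * (X * x) := by
    ext j
    rw [coeff_rescale, Ga, coeff_mk, map_add, coeff_C_mul]
    rcases j with _ | j
    · rw [aj_zero]
      simp
    · rw [coeff_succ_X_mul, hx, coeff_mk, coeff_one, if_neg (Nat.succ_ne_zero j)]
      ring
  obtain ⟨W, hW0, hW, hWK⟩ := exists_W c (k + 1) (by omega) x hxC hx0 hc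
  set H0 : ℚ⟦X⟧ := 1 + C 2 * W with hH0
  have hH0sq : H0 ^ 2 = rescale ϖ (Ga (4 * k + 3)) := by
    rw [hscale, hH0]
    have e4 : (C 4 : ℚ⟦X⟧) = C 2 * C 2 := by rw [← map_mul]; norm_num
    have e2 : (C 2 : ℚ⟦X⟧) = 2 := by rw [map_ofNat]
    rw [e4, e2]
    linear_combination 4 * hW
  refine ⟨rescale ϖ⁻¹ H0, ?_, ?_, ?_⟩
  · rw [← coeff_zero_eq_constantCoeff_apply, coeff_rescale, coeff_zero_eq_constantCoeff_apply, hH0]
    simp [hW0]
  · rw [← map_pow, hH0sq, rescale_rescale]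
    rw [mul_inv_cancel₀ hϖ0, rescale_one]
    rfl
  · rw [coeff_rescale, hH0, map_add, coeff_one, if_neg (Nat.succ_ne_zero k), zero_add, coeff_C_mul,
      padicNorm.mul, padicNorm.mul, nu_two, hWK, nu_pow, Nat.add_sub_cancel]
    have h3 := nu_catalan_gt k (by omega)
    have h4 : 1 ≤ padicNorm 2 (ϖ⁻¹) ^ (k + 1) := by
      apply one_le_pow₀
      rcases hϖ with rfl | rfl
      · simp
      · have : (2 : ℚ)⁻¹ = 1 / 2 := by norm_num
        rw [this, padicNorm.div, nu_two]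
        norm_num
    have h5 : 0 < 1 / 2 * padicNorm 2 (catalan k : ℚ) := by
      have := nu_catalan_pos k
      positivity
    calc (1 / 4 : ℚ) ^ k < 1 * (1 / 2 * padicNorm 2 (catalan k : ℚ)) := by rw [one_mul]; exact h3
      _ ≤ _ := mul_le_mul_of_nonneg_right h4 h5.le

/-- truncation of the root: reversed polynomials -/
theorem exists_trunc (K : ℕ) (hK : 1 ≤ K) (Γ H : ℚ⟦X⟧) (h : H ^ 2 = Γ) (h0 : constantCoeff H = 1) :
    ∃ p : Polynomial ℚ, p.Monic ∧ p.natDegree = K - 1 ∧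
      (∀ m, K - 1 < m → (Polynomial.reflect (2 * K - 1) (trunc (2 * K) Γ) -
        Polynomial.X * p ^ 2).coeff m = 0) ∧
      (Polynomial.reflect (2 * K - 1) (trunc (2 * K) Γ) -
        Polynomial.X * p ^ 2).coeff (K - 1) = 2 * coeff K H := by
  obtain ⟨L, rfl⟩ : ∃ L, K = L + 1 := ⟨K - 1, by omega⟩
  set t : Polynomial ℚ := trunc (L + 1) H with ht
  have htd : t.natDegree ≤ L := by
    have := natDegree_trunc_lt H L
    rw [← ht] at this
    omega
  set p : Polynomial ℚ := Polynomial.reflect L t with hp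
  have hpc : ∀ i ≤ L, p.coeff i = coeff (L - i) H := by
    intro i hi
    rw [hp, Polynomial.coeff_reflect, Polynomial.revAt_le hi, ht, coeff_trunc, if_pos (by omega)]
  have hpL : p.coeff L = 1 := by
    rw [hpc L le_rfl, Nat.sub_self, coeff_zero_eq_constantCoeff_apply, h0]
  have hpd : p.natDegree ≤ L := by
    rw [Polynomial.natDegree_le_iff_coeff_eq_zero]
    intro m hm
    rw [hp, Polynomial.coeff_reflect, Polynomial.revAt_eq_self_of_lt hm]
    exact Polynomial.coeff_eq_zero_of_natDegree_lt (by omega)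
  have hpn : p.natDegree = L :=
    le_antisymm hpd (Polynomial.le_natDegree_of_ne_zero (by rw [hpL]; norm_num))
  have hpm : p.Monic := by
    rw [Polynomial.Monic, Polynomial.leadingCoeff, hpn, hpL]
  have hp2 : p ^ 2 = Polynomial.reflect (L + L) (t ^ 2) := by
    rw [pow_two, pow_two, hp, Polynomial.reflect_mul t t htd htd]
  -- coefficients of `t ^ 2`
  have hdec := eq_X_pow_mul_shift_add_trunc (L + 1) H
  rw [← ht] at hdec
  set g : ℚ⟦X⟧ := PowerSeries.mk fun i => coeff (i + (L + 1)) H with hg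
  have hg0 : coeff 0 g = coeff (L + 1) H := by
    rw [hg, coeff_mk, zero_add]
  have hsq : Γ = ((t ^ 2 : Polynomial ℚ) : ℚ⟦X⟧) + X ^ (L + 1) * (g * (H + (t : ℚ⟦X⟧))) := by
    rw [← h, Polynomial.coe_pow]
    linear_combination (H + (t : ℚ⟦X⟧)) * hdec
  have ht0 : coeff 0 (t : ℚ⟦X⟧) = 1 := by
    rw [Polynomial.coeff_coe, ht, coeff_trunc, if_pos (by omega), coeff_zero_eq_constantCoeff_apply,
      h0]
  have htlow : ∀ l ≤ L, (t ^ 2).coeff l = coeff l Γ := by
    intro l hl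
    rw [hsq, map_add, Polynomial.coeff_coe, coeff_X_pow_mul', if_neg (by omega), add_zero]
  have htop : (t ^ 2).coeff (L + 1) = coeff (L + 1) Γ - 2 * coeff (L + 1) H := by
    have := congrArg (coeff (L + 1)) hsq
    rw [map_add, Polynomial.coeff_coe, coeff_X_pow_mul', if_pos le_rfl, Nat.sub_self,
      coeff_zero_eq_constantCoeff_apply, map_mul, map_add, h0] at this
    rw [← coeff_zero_eq_constantCoeff_apply, hg0, ← coeff_zero_eq_constantCoeff_apply, ht0] at this
    linarith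
  have htd2 : (t ^ 2).natDegree ≤ L + L := by
    rw [pow_two]
    exact (Polynomial.natDegree_mul_le).trans (add_le_add htd htd)
  refine ⟨p, hpm, by omega, ?_, ?_⟩
  · intro m hm
    rw [Nat.add_sub_cancel] at hm
    obtain ⟨m', rfl⟩ : ∃ m', m = m' + 1 := ⟨m - 1, by omega⟩
    rw [Polynomial.coeff_sub, Polynomial.coeff_X_mul, Polynomial.coeff_reflect, hp2,
      Polynomial.coeff_reflect]
    rcases Nat.lt_or_ge (2 * (L + 1) - 1) (m' + 1) with h1 | h1
    · rw [Polynomial.revAt_eq_self_of_lt h1, Polynomial.revAt_eq_self_of_lt (by omega), coeff_trunc,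
        if_neg (by omega), Polynomial.coeff_eq_zero_of_natDegree_lt (by omega)]
      ring
    · rw [Polynomial.revAt_le h1, Polynomial.revAt_le (by omega), coeff_trunc, if_pos (by omega),
        htlow _ (by omega)]
      rw [show 2 * (L + 1) - 1 - (m' + 1) = L + L - m' by omega]
      ring
  · rw [Nat.add_sub_cancel]
    rcases Nat.eq_zero_or_pos L with rfl | hL
    · rw [Polynomial.coeff_sub, Polynomial.coeff_X_mul_zero, Polynomial.coeff_reflect,
        Polynomial.revAt_le (by omega), coeff_trunc, if_pos (by omega), sub_zero]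
      have h2 : (t ^ 2).coeff 1 = 0 := Polynomial.coeff_eq_zero_of_natDegree_lt (by omega)
      rw [zero_add] at htop
      rw [h2] at htop
      simp only [mul_one, zero_add] at *
      linarith
    · obtain ⟨L', rfl⟩ : ∃ L', L = L' + 1 := ⟨L - 1, by omega⟩
      rw [Polynomial.coeff_sub, Polynomial.coeff_X_mul, Polynomial.coeff_reflect, hp2,
        Polynomial.coeff_reflect, Polynomial.revAt_le (by omega), Polynomial.revAt_le (by omega),
        coeff_trunc, if_pos (by omega)]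
      rw [show 2 * (L' + 1 + 1) - 1 - (L' + 1) = L' + 1 + 1 by omega,
        show L' + 1 + (L' + 1) - L' = L' + 1 + 1 by omega, htop]
      ring

end Pool.Agent.Helper23.EP
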