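import Mathlib
import Pool.Agent.Helper23.EP.Root
import Pool.Agent.Helper23.EP.Beta
import Pool.Agent.Helper23.EP.Fin

/-!
# Class data for `n = 3 mod 4`
-/

set_option autoImplicit false

namespace Pool.Agent.Helper23.EP

open Polynomial

/-- composition with `2 X + c` -/
noncomputable def lin (c : ℚ) (f : ℚ[X]) : ℚ[X] := (f.comp (C 2 * X)).comp (X + C (c / 2))

theorem lin_eval (c : ℚ) (f : ℚ[X]) (x : ℚ) : (lin c f).eval x = f.eval (2 * x + c) := by
  rw [lin, eval_comp, eval_comp]
  simp only [eval_add, eval_mul, eval_X, eval_C]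
  congr 1
  ring

theorem natDegree_lin (c : ℚ) (f : ℚ[X]) : (lin c f).natDegree = f.natDegree := by
  rw [lin, natDegree_comp_X_add_C, natDegree_comp, natDegree_C_mul (by norm_num : (2 : ℚ) ≠ 0),
    natDegree_X, mul_one]

theorem coeff_lin (c : ℚ) (f : ℚ[X]) (k : ℕ) (hf : f.natDegree ≤ k) :
    (lin c f).coeff k = 2 ^ k * f.coeff k := by
  rw [lin, coeff_comp_high _ _ _ (by
    rw [natDegree_comp, natDegree_C_mul (by norm_num : (2 : ℚ) ≠ 0), natDegree_X, mul_one]
    exact hf), comp_C_mul_X_coeff]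
  ring

/-- `Gv n` in terms of the normalised series -/
theorem Gv_eq (n s : ℕ) (hn : n = 2 * s + 1) :
    Gv n = C (1 / ((n - 1).factorial : ℚ)) *
      expand ℚ 2 (reflect s (PowerSeries.trunc (s + 1) (Ga n))) := by
  ext m
  rw [coeff_C_mul, coeff_expand (by norm_num)]
  have hG : (Gv n).coeff m = if m ≤ n - 1 then
      PowerSeries.coeff (n - 1 - m) (Ci n) / (m.factorial : ℚ) else 0 := by
    rw [Gv, finsetSum_coeff]
    simp only [coeff_C_mul_X_pow]
    split_ifs with h
    · rw [Finset.sum_eq_single (n - 1 - m)]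
      · rw [if_pos (by omega), show n - 1 - (n - 1 - m) = m by omega]
      · intro k hk hne
        rw [Finset.mem_range] at hk
        rw [if_neg (by omega)]
      · intro h'
        exfalso
        apply h'
        rw [Finset.mem_range]
        omega
    · apply Finset.sum_eq_zero
      intro k hk
      rw [Finset.mem_range] at hk
      rw [if_neg (by omega)]
  rw [hG]
  by_cases hm2 : 2 ∣ m
  · rw [if_pos hm2]
    obtain ⟨i, rfl⟩ := hm2
    rw [Nat.mul_div_cancel_left i (by norm_num), coeff_reflect]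
    split_ifs with h
    · have hi : i ≤ s := by omega
      rw [revAt_le hi, PowerSeries.coeff_trunc, if_pos (by omega), Ga, PowerSeries.coeff_mk, aj]
      have e1 : n - 1 - 2 * i = 2 * (s - i) := by omega
      rw [e1]
      have e2 : (2 * i).factorial * (n - 1).descFactorial (2 * (s - i)) = (n - 1).factorial := by
        have := Nat.factorial_mul_descFactorial (show 2 * (s - i) ≤ n - 1 by omega)
        rw [show n - 1 - 2 * (s - i) = 2 * i by omega] at this
        exact this
      have e3 : ((2 * i).factorial : ℚ) * ((n - 1).descFactorial (2 * (s - i)) : ℚ) =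
          ((n - 1).factorial : ℚ) := by exact_mod_cast e2
      have f1 : ((2 * i).factorial : ℚ) ≠ 0 := by positivity
      have f2 : ((n - 1).factorial : ℚ) ≠ 0 := by positivity
      rw [div_eq_iff f1, one_div]
      rw [← e3] at f2 ⊢
      have f3 := right_ne_zero_of_mul f2
      field_simp
    · have hi : s < i := by omega
      rw [revAt_eq_self_of_lt hi, PowerSeries.coeff_trunc, if_neg (by omega), mul_zero]
  · rw [if_neg hm2, mul_zero]
    split_ifs with h
    · rw [coeff_odd_Ci n _ (by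
        rw [Nat.odd_iff]
        omega), zero_div]
    · rfl

/-- class data for `n = 4 K - 1` -/
theorem classData_three_mod_four (K : ℕ) (hK : 2 ≤ K) (hpar : K % 2 = 1 ∨ K % 4 = 2) :
    ClassData (4 * K - 1) (2 * K - 1) (al (4 * K - 1)) := by
  obtain ⟨k, hk⟩ : ∃ k, K = k + 2 := ⟨K - 2, by omega⟩
  set n : ℕ := 4 * K - 1 with hn
  set s : ℕ := 2 * K - 1 with hs
  have hns : n = 2 * s + 1 := by omega
  obtain ⟨H, hH0, hH2, hHK⟩ := exists_root K hK hpar
  rw [← hn] at hH2
  obtain ⟨p, hpm, hpd, hΔ1, hΔ2⟩ := exists_trunc K (by omega) (Ga n) H hH2 hH0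
  rw [show 2 * K = s + 1 by omega, Nat.add_sub_cancel] at hΔ1 hΔ2
  set gx : ℚ[X] := reflect s (PowerSeries.trunc (s + 1) (Ga n)) with hgx
  set Δ : ℚ[X] := gx - X * p ^ 2 with hΔ
  have hΔd : Δ.natDegree ≤ K - 1 := by
    rw [natDegree_le_iff_coeff_eq_zero]
    exact hΔ1
  obtain ⟨G, B, w, hd⟩ := exists_isDecomp n (by omega)
  set α : ℚ := al n with hα
  have hαpos : 0 < α := al_pos n
  set Nn : ℚ := (N n : ℚ) with hNn
  -- the polynomial `V`
  set V : ℚ[X] := X * expand ℚ 2 p with hV
  have hVm : V.Monic := monic_X.mul (hpm.expand (by norm_num))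
  have hVd : V.natDegree = s := by
    rw [hV, natDegree_X_mul (hpm.expand (by norm_num)).ne_zero, natDegree_expand, hpd]
    omega
  have hV2 : expand ℚ 2 gx = V ^ 2 + expand ℚ 2 Δ := by
    rw [hΔ, hV, map_sub, map_mul, map_pow, expand_X]
    ring
  set U : ℚ[X] := C ((1 / 2) ^ s) * lin Nn V with hU
  have hUd : U.natDegree = s := by
    rw [hU, natDegree_C_mul (by positivity), natDegree_lin, hVd]
  have hUm : U.Monic := by
    rw [Monic, leadingCoeff, hUd, hU, coeff_C_mul, coeff_lin _ _ _ hVd.le]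
    have : V.coeff s = 1 := by rw [← hVd]; exact hVm.coeff_natDegree
    rw [this, mul_one, ← mul_pow]
    norm_num
  -- the polynomial part
  have hGe : ∀ y : ℤ, G.eval (y : ℚ) = α * (U.eval (y : ℚ)) ^ 2 +
      (C (α * (1 / 4) ^ s) * lin Nn (expand ℚ 2 Δ)).eval (y : ℚ) := by
    intro y
    rw [G_eq n (by omega) G B w hd y, Hf_eq n (by omega), Gv_eq n s hns, ← hgx, hV2, hU]
    simp only [eval_mul, eval_C, eval_add, eval_pow, lin_eval]
    have e1 : (1 / ((n.factorial : ℚ) * 2 ^ (n - 1))) * (1 / ((n - 1).factorial : ℚ)) =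
        α * (1 / 4) ^ s := by
      rw [hα, al, show n - 1 = 2 * s by omega, pow_mul]
      have f1 : (n.factorial : ℚ) ≠ 0 := by positivity
      have f2 : ((2 * s).factorial : ℚ) ≠ 0 := by positivity
      norm_num
      field_simp
      rw [← mul_pow]
      norm_num
    have e2 : ((1 / 2 : ℚ) ^ s) ^ 2 = (1 / 4) ^ s := by
      rw [← pow_mul, mul_comm s 2, pow_mul]
      norm_num
    rw [← mul_assoc, e1, mul_pow, e2]
    ring
  -- classes
  set L : ℕ := (n + 2).factorial with hL
  have hL0 : 0 < L := Nat.factorial_pos _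
  have hLdvd : ∀ i, 0 < i → i ≤ n + 2 → i ∣ L := fun i hi hi' => Nat.dvd_factorial hi hi'
  have hLeven : 2 ∣ L := hLdvd 2 (by omega) (by omega)
  have hw : (aeval T ((X ^ L - 1 : ℚ[X]) ^ (n / 3))) w = 0 :=
    mem_ker_of_dvd (K_dvd L n hLdvd) hd.kw
  have hBc := coeff_B_eq n (by omega) G B w hd
  have hBd : B.natDegree ≤ s - 1 := by
    have := natDegree_lt_of_degree_lt (by omega) hd.degB
    omega
  refine ⟨L, hL0, fun r => ?_⟩
  obtain ⟨Hr, hHr, hHr'⟩ := exists_poly L hL0 (n / 3) w hw r
  have hHrd : Hr.natDegree < n / 3 := natDegree_lt_of_degree_lt (by omega) hHr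
  set R : ℚ[X] := C (α * (1 / 4) ^ s) * lin Nn (expand ℚ 2 Δ) + C ((-1 : ℚ) ^ r) * B + Hr with hR
  have hDd : (expand ℚ 2 Δ).natDegree ≤ s - 1 := by
    rw [natDegree_expand]
    omega
  have hDc : (expand ℚ 2 Δ).coeff (s - 1) = 2 * PowerSeries.coeff K H := by
    rw [show s - 1 = 2 * (K - 1) by omega, coeff_expand_mul' (by norm_num)]
    exact hΔ2
  refine ⟨U, R, hUm, hUd, ?_, Or.inr ?_, ?_⟩
  · rw [degree_lt_iff_coeff_zero]
    intro m hm
    rw [hR, coeff_add, coeff_add, coeff_C_mul, coeff_C_mul,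
      coeff_eq_zero_of_natDegree_lt (show (lin Nn (expand ℚ 2 Δ)).natDegree < m by
        rw [natDegree_lin]; omega),
      coeff_eq_zero_of_natDegree_lt (show B.natDegree < m by omega),
      coeff_eq_zero_of_natDegree_lt (show Hr.natDegree < m by omega)]
    ring
  · -- the 2-adic argument
    rw [hR, coeff_add, coeff_add, coeff_C_mul, coeff_C_mul, coeff_lin _ _ _ hDd, hDc,
      coeff_eq_zero_of_natDegree_lt (show Hr.natDegree < s - 1 by omega), add_zero]
    have hs2 : n / 2 = s := by omega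
    rw [hs2] at hBc
    rw [hBc]
    set η := PowerSeries.coeff K H with hη
    intro h0
    have hfac : ∃ z : ℤ, α * (z : ℚ) = 2 * (1 / (((s - 1).factorial : ℚ) * s.factorial * 2 ^ n)) := by
      obtain ⟨z1, hz1⟩ : 2 ^ s * s.factorial ∣ (2 * s).factorial := by
        have := Nat.factorial_eq_mul_doubleFactorial (2 * s - 1)
        rw [show 2 * s - 1 + 1 = 2 * s by omega, Nat.doubleFactorial_two_mul] at this
        exact ⟨_, this⟩
      have hz2 : n.factorial = (2 * s + 1) * (2 * s).factorial := by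
        rw [hns, Nat.factorial_succ]
      have hz3 : s.factorial = s * (s - 1).factorial :=
        (Nat.mul_factorial_pred (by omega)).symm
      refine ⟨((2 * s + 1) * z1 * z1 * s : ℕ), ?_⟩
      rw [hα, al, hz2, show n - 1 = 2 * s by omega, hz1, hns, hz3]
      have f0 : (z1 : ℚ) ≠ 0 := by
        have : z1 ≠ 0 := by
          rintro rfl
          rw [mul_zero] at hz1
          exact (Nat.factorial_pos _).ne' hz1
        exact_mod_cast this
      have f1 : ((s - 1).factorial : ℚ) ≠ 0 := by positivity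
      have f2 : ((2 * s + 1 : ℕ) : ℚ) ≠ 0 := by positivity
      have f3 : (s : ℚ) ≠ 0 := by
        have : s ≠ 0 := by omega
        exact_mod_cast this
      push_cast at f2 ⊢
      field_simp
      ring
    obtain ⟨z, hz⟩ := hfac
    have hone : padicNorm 2 ((-1 : ℚ) ^ r) = 1 := by
      rcases Int.even_or_odd r with h | h
      · rw [h.neg_one_zpow]; simp
      · rw [h.neg_one_zpow, padicNorm.neg]; simp
    have h1 : α * ((1 / 2) ^ s * η) = -((-1 : ℚ) ^ r * (1 / (((s - 1).factorial : ℚ) * s.factorial * 2 ^ n))) := by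
      have e1 : α * (1 / 4) ^ s * (2 ^ (s - 1) * (2 * η)) = α * ((1 / 2) ^ s * η) := by
        have e2 : (2 : ℚ) ^ (s - 1) * 2 = 2 ^ s := by
          rw [← pow_succ]
          congr 1
          omega
        have e3 : (1 / 4 : ℚ) ^ s * 2 ^ s = (1 / 2) ^ s := by
          rw [← mul_pow]
          norm_num
        linear_combination (α * (1 / 4) ^ s * η) * e2 + (α * η) * e3
      linarith
    have h2 : α * (2 * ((1 / 2) ^ s * η)) = α * (-((-1 : ℚ) ^ r * z)) := by
      linear_combination 2 * h1 + (-1 : ℚ) ^ r * hz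
    have h3 := mul_left_cancel₀ hαpos.ne' h2
    have h4 := congrArg (fun x => padicNorm 2 x) h3
    simp only [padicNorm.mul, padicNorm.neg, hone, nu_two, nu_pow, one_mul, padicNorm.div,
      padicNorm.one] at h4
    have h5 := padicNorm.of_int (p := 2) z
    rw [← h4] at h5
    -- `1/2 * (2^s * padicNorm 2 η) ≤ 1` contradicts `padicNorm 2 η > (1/4)^(K-1)`
    have h6 : (1 / (1 / 2 : ℚ)) ^ s = 2 * 4 ^ (K - 1) := by
      have : s = 2 * (K - 1) + 1 := by omega
      rw [this, pow_succ, pow_mul]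
      norm_num
      ring
    rw [h6] at h5
    have h7 : (4 : ℚ) ^ (K - 1) * padicNorm 2 η ≤ 1 := by linarith
    have h8 : (4 : ℚ) ^ (K - 1) * (1 / 4) ^ (K - 1) < (4 : ℚ) ^ (K - 1) * padicNorm 2 η :=
      mul_lt_mul_of_pos_left hHK (by positivity)
    rw [← mul_pow] at h8
    norm_num at h8
    linarith
  · intro j y hy
    have h1 := hd.eq (y : ℤ)
    rw [Q_natCast, hGe] at h1
    rw [h1, hR]
    have e1 : w (y : ℤ) = Hr.eval ((y : ℤ) : ℚ) := by
      have := hHr' j
      rw [← hy] at this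
      exact this
    have e2 : (-1 : ℚ) ^ (y : ℤ) = (-1) ^ r := by
      rw [hy]
      obtain ⟨L', hL'⟩ := hLeven
      rw [hL']
      push_cast
      rw [zpow_add₀ (by norm_num), mul_assoc, zpow_mul]
      simp
    rw [e1, e2]
    simp only [eval_add, eval_mul, eval_C, Int.cast_natCast]
    ring

end Pool.Agent.Helper23.EP
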